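import Pool.Agent.Helper109.Basic

/-!
# Irreducibility of `f (X ^ t)` over the field with two elements
-/

set_option autoImplicit false
set_option linter.style.haveILetI false

namespace Pool.Agent.Helper109

open Polynomial

theorem monic_of_ne_zero {f : (ZMod 2)[X]} (hf : f ≠ 0) : f.Monic := by
  unfold Monic
  have h : f.leadingCoeff ≠ 0 := leadingCoeff_ne_zero.mpr hf
  revert h
  generalize f.leadingCoeff = c
  revert c
  decide

/-- `f (X ^ t)` is irreducible if no prime divisor `p` of `t` is such that the root of `f` is a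
`p`-th power. -/
theorem irr_expand {f : (ZMod 2)[X]} (hf : Irreducible f) {t : ℕ} (ht : Odd t)
    (h : ∀ p : ℕ, p.Prime → p ∣ t → p ∣ 2 ^ f.natDegree - 1 ∧
      ¬ f ∣ X ^ ((2 ^ f.natDegree - 1) / p) - 1) :
    Irreducible (expand (ZMod 2) t f) := by
  have ht0 : t ≠ 0 := by rintro rfl; simp at ht
  rw [expand_eq_comp_X_pow]
  apply Polynomial.irreducible_comp (monic_of_ne_zero hf.ne_zero) (monic_X_pow t) hf
  intro E _ _ x hx
  rw [Polynomial.map_pow, Polynomial.map_X]
  rw [X_pow_sub_C_irreducible_iff_forall_prime_of_odd ht]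
  intro p hp hpt b hb
  obtain ⟨h1, h2⟩ := h p hp hpt
  have hint : IsIntegral (ZMod 2) x := by
    by_contra hni
    rw [minpoly.eq_zero hni] at hx
    exact hf.ne_zero hx.symm
  haveI : FiniteDimensional (ZMod 2) (IntermediateField.adjoin (ZMod 2) {x}) :=
    IntermediateField.adjoin.finiteDimensional hint
  haveI : Finite (IntermediateField.adjoin (ZMod 2) {x}) := Module.finite_of_finite (ZMod 2)
  haveI : Fintype (IntermediateField.adjoin (ZMod 2) {x}) := Fintype.ofFinite _
  have hcard : Fintype.card (IntermediateField.adjoin (ZMod 2) {x}) = 2 ^ f.natDegree := by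
    rw [Module.card_eq_pow_finrank (K := ZMod 2), ZMod.card,
      IntermediateField.adjoin.finrank hint, hx]
  set g := IntermediateField.AdjoinSimple.gen (ZMod 2) x with hg
  have hgx : algebraMap (IntermediateField.adjoin (ZMod 2) {x}) E g = x := by
    exact IntermediateField.AdjoinSimple.algebraMap_gen (ZMod 2) x
  rcases eq_or_ne b 0 with hb0 | hb0
  · rw [hb0, zero_pow hp.ne_zero] at hb
    rw [← hb, map_zero] at hgx
    rw [← hgx, minpoly.zero] at hx
    rw [← hx, natDegree_X] at h1
    norm_num at h1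
    exact hp.one_lt.ne' h1
  · have h3 : g ^ ((2 ^ f.natDegree - 1) / p) = 1 := by
      rw [← hb, ← pow_mul, Nat.mul_div_cancel' h1, ← hcard]
      exact FiniteField.pow_card_sub_one_eq_one b hb0
    apply h2
    have h4 : x ^ ((2 ^ f.natDegree - 1) / p) = 1 := by
      rw [← hgx, ← map_pow, h3, map_one]
    have h5 : minpoly (ZMod 2) x ∣ X ^ ((2 ^ f.natDegree - 1) / p) - 1 := by
      apply minpoly.dvd
      rw [map_sub, map_pow, aeval_X, map_one, h4, sub_self]
    rwa [hx] at h5

/-- The prime divisors of `d` divide `2 ^ deg h - 1` if `h (X ^ d)` is irreducible. -/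
theorem prime_dvd_of_irr_expand {h : (ZMod 2)[X]} {d p : ℕ} (hd : d ≠ 0) (hp : p.Prime)
    (hpd : p ∣ d) (hirr : Irreducible (expand (ZMod 2) d h)) : p ∣ 2 ^ h.natDegree - 1 := by
  by_contra hnd
  obtain ⟨e, rfl⟩ := hpd
  have he : e ≠ 0 := by rintro rfl; simp at hd
  have h1 : Irreducible (expand (ZMod 2) p h) := by
    rw [mul_comm, expand_mul] at hirr
    exact of_irreducible_expand he hirr
  have h2 : Irreducible h := of_irreducible_expand hp.ne_zero h1
  haveI : Fact (Irreducible h) := ⟨h2⟩
  have hpb := AdjoinRoot.powerBasis h2.ne_zero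
  haveI hfd : FiniteDimensional (ZMod 2) (AdjoinRoot h) := (AdjoinRoot.powerBasis h2.ne_zero).finite
  haveI : Finite (AdjoinRoot h) := Module.finite_of_finite (ZMod 2)
  haveI : Fintype (AdjoinRoot h) := Fintype.ofFinite _
  have hrank : Module.finrank (ZMod 2) (AdjoinRoot h) = h.natDegree := by
    rw [(AdjoinRoot.powerBasis h2.ne_zero).finrank, AdjoinRoot.powerBasis_dim]
  have hcard : Fintype.card (AdjoinRoot h) = 2 ^ h.natDegree := by
    rw [Module.card_eq_pow_finrank (K := ZMod 2), ZMod.card, hrank]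
  obtain ⟨z, hz⟩ : ∃ z : AdjoinRoot h, z ^ p = AdjoinRoot.root h := by
    rcases eq_or_ne (AdjoinRoot.root h) 0 with h0 | h0
    · exact ⟨0, by rw [h0, zero_pow hp.ne_zero]⟩
    · have hcop : Nat.Coprime p (2 ^ h.natDegree - 1) := (Nat.Prime.coprime_iff_not_dvd hp).mpr hnd
      have hy : (AdjoinRoot.root h) ^ (2 ^ h.natDegree - 1) = 1 := by
        rw [← hcard]; exact FiniteField.pow_card_sub_one_eq_one _ h0
      have hcop2 : Nat.Coprime p (orderOf (AdjoinRoot.root h)) :=
        Nat.Coprime.coprime_dvd_right (orderOf_dvd_of_pow_eq_one hy) hcop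
      obtain ⟨m, hm⟩ := exists_pow_eq_self_of_coprime hcop2
      exact ⟨(AdjoinRoot.root h) ^ m, by rw [← pow_mul, mul_comm, pow_mul]; exact hm⟩
  have hroot : aeval z (expand (ZMod 2) p h) = 0 := by
    rw [expand_aeval, hz]
    rw [AdjoinRoot.aeval_eq, AdjoinRoot.mk_self]
  have hzint : IsIntegral (ZMod 2) z := Algebra.IsIntegral.isIntegral z
  have hdvd := minpoly.dvd _ _ hroot
  have hassoc : Associated (minpoly (ZMod 2) z) (expand (ZMod 2) p h) :=
    (minpoly.irreducible hzint).associated_of_dvd h1 hdvd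
  have hdeg : (minpoly (ZMod 2) z).natDegree = h.natDegree * p := by
    rw [natDegree_eq_of_degree_eq (degree_eq_degree_of_associated hassoc), natDegree_expand]
  have hle : (minpoly (ZMod 2) z).natDegree ≤ Module.finrank (ZMod 2) (AdjoinRoot h) :=
    minpoly.natDegree_le z
  rw [hdeg, hrank] at hle
  have hpos : 0 < h.natDegree := h2.natDegree_pos
  have := hp.two_le
  nlinarith

theorem support_expand_card {f : (ZMod 2)[X]} {t : ℕ} (ht : 0 < t) :
    (expand (ZMod 2) t f).support.card = f.support.card := by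
  have : (expand (ZMod 2) t f).support = f.support.image (fun e => e * t) := by
    ext i
    rw [mem_support_iff, coeff_expand ht, Finset.mem_image]
    constructor
    · intro h
      split_ifs at h with hd
      · exact ⟨i / t, by rw [mem_support_iff]; exact h, Nat.div_mul_cancel hd⟩
      · exact absurd rfl h
    · rintro ⟨e, he, rfl⟩
      rw [if_pos (Dvd.intro_left e rfl), Nat.mul_div_cancel _ ht]
      exact mem_support_iff.mp he
  rw [this, Finset.card_image_of_injective]
  intro a b hab
  exact Nat.eq_of_mul_eq_mul_right ht hab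

theorem PD_expand {f : (ZMod 2)[X]} {t : ℕ} (ht : 0 < t) (h5 : f.support.card = 5)
    (hirr : Irreducible (expand (ZMod 2) t f)) : PD (f.natDegree * t) :=
  ⟨expand (ZMod 2) t f, natDegree_expand t f, by rw [support_expand_card ht, h5], hirr⟩

end Pool.Agent.Helper109
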