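import Pool.Agent.Helper109.Cert
import Pool.Agent.Helper109.Expand

/-!
# Some families of degrees of irreducible pentanomials
-/

set_option autoImplicit false

namespace Pool.Agent.Helper109

open Polynomial

theorem support_ev {F n : ℕ} (h2 : F < 2 ^ (n + 1)) :
    (ev (X : (ZMod 2)[X]) F).support = (Finset.range (n + 1)).filter (fun i => F.testBit i = true) := by
  ext i
  rw [mem_support_iff, coeff_ev, Finset.mem_filter, Finset.mem_range]
  constructor
  · intro h
    by_cases hb : F.testBit i = true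
    · refine ⟨?_, hb⟩
      by_contra hi
      push Not at hi
      rw [Nat.testBit_lt_two_pow (lt_of_lt_of_le h2 (Nat.pow_le_pow_right (by norm_num) hi))] at hb
      exact absurd hb (by decide)
    · rw [if_neg hb] at h; exact absurd rfl h
  · rintro ⟨_, hb⟩
    rw [if_pos hb]; exact one_ne_zero

/-- A family of irreducible pentanomials from one certificate. -/
theorem PD_of_cert {F n t : ℕ} (hn : n ≠ 0) (hb1 : F.testBit n = true) (hb2 : F < 2 ^ (n + 1))
    (hirr : Irreducible (ev (X : (ZMod 2)[X]) F))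
    (h5 : ((Finset.range (n + 1)).filter (fun i => F.testBit i = true)).card = 5)
    (ht : Odd t) (h : ∀ p : ℕ, p.Prime → p ∣ t → p ∣ 2 ^ n - 1 ∧
      ∃ k u, (2 ^ n - 1) / p < 2 ^ k ∧ MU F n (pw F n k ((2 ^ n - 1) / p) ^^^ 1) u = 1) :
    PD (n * t) := by
  have hdeg : (ev (X : (ZMod 2)[X]) F).natDegree = n := natDegree_ev hb1 hb2
  have h0 : 0 < t := by obtain ⟨m, hm⟩ := ht; omega
  have := PD_expand (f := ev (X : (ZMod 2)[X]) F) h0 (by rw [support_ev hb2]; exact h5)
    (irr_expand hirr ht (by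
      intro p hp hpt
      obtain ⟨h1, k, u, hk, hu⟩ := h p hp hpt
      rw [hdeg]
      exact ⟨h1, not_dvd_of_cert hn hb1 hb2 hk ⟨u, hu⟩⟩))
  rwa [hdeg] at this

theorem prime_of_dvd_pow_three {p i : ℕ} (hp : p.Prime) (h : p ∣ 3 ^ i) : p = 3 :=
  (Nat.prime_dvd_prime_iff_eq hp Nat.prime_three).mp (hp.dvd_of_dvd_pow h)

theorem prime_of_dvd_pow_five {p i : ℕ} (hp : p.Prime) (h : p ∣ 5 ^ i) : p = 5 :=
  (Nat.prime_dvd_prime_iff_eq hp Nat.prime_five).mp (hp.dvd_of_dvd_pow h)

theorem prime_of_dvd_pow_seven {p i : ℕ} (hp : p.Prime) (h : p ∣ 7 ^ i) : p = 7 :=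
  (Nat.prime_dvd_prime_iff_eq hp (by norm_num)).mp (hp.dvd_of_dvd_pow h)

/-- degree `6 * 3 ^ i` -/
theorem PD_six (i : ℕ) : PD (6 * 3 ^ i) := by
  apply PD_of_cert (F := 103) (by norm_num) (by decide +kernel) (by norm_num) _ (by decide +kernel)
  · exact Odd.pow (by decide)
  · intro p hp hpt
    obtain rfl := prime_of_dvd_pow_three hp hpt
    exact ⟨by norm_num, 6, 44, by norm_num, by decide +kernel⟩
  · apply irr_of_cert (n := 6) (by norm_num) (by decide +kernel) (by norm_num) (by decide +kernel)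
    intro p hp hpt
    have h6 : (6 : ℕ) = 2 * 3 := by norm_num
    rw [h6] at hpt
    rcases (hp.dvd_mul).mp hpt with h | h
    · obtain rfl := (Nat.prime_dvd_prime_iff_eq hp Nat.prime_two).mp h
      exact ⟨13, by decide +kernel⟩
    · obtain rfl := (Nat.prime_dvd_prime_iff_eq hp Nat.prime_three).mp h
      exact ⟨41, by decide +kernel⟩

/-- degree `12 * (3 ^ i * 5 ^ j)` -/
theorem PD_twelve (i j : ℕ) : PD (12 * (3 ^ i * 5 ^ j)) := by
  apply PD_of_cert (F := 4119) (by norm_num) (by decide +kernel) (by norm_num) _ (by decide +kernel)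
  · exact (Odd.pow (by decide)).mul (Odd.pow (by decide))
  · intro p hp hpt
    rcases (hp.dvd_mul).mp hpt with h | h
    · obtain rfl := prime_of_dvd_pow_three hp h
      exact ⟨by norm_num, 12, 1966, by norm_num, by decide +kernel⟩
    · obtain rfl := prime_of_dvd_pow_five hp h
      exact ⟨by norm_num, 12, 1254, by norm_num, by decide +kernel⟩
  · apply irr_of_cert (n := 12) (by norm_num) (by decide +kernel) (by norm_num) (by decide +kernel)
    intro p hp hpt
    have h6 : (12 : ℕ) = 2 * 2 * 3 := by norm_num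
    rw [h6] at hpt
    rcases (hp.dvd_mul).mp hpt with h | h
    · have h' : p ∣ 2 := by
        rcases (hp.dvd_mul).mp h with h | h <;> exact h
      obtain rfl := (Nat.prime_dvd_prime_iff_eq hp Nat.prime_two).mp h'
      exact ⟨420, by decide +kernel⟩
    · obtain rfl := (Nat.prime_dvd_prime_iff_eq hp Nat.prime_three).mp h
      exact ⟨455, by decide +kernel⟩

/-- degree `21 * 7 ^ i` -/
theorem PD_twentyone (i : ℕ) : PD (21 * 7 ^ i) := by
  apply PD_of_cert (F := 2097191) (by norm_num) (by decide +kernel) (by norm_num) _ (by decide +kernel)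
  · exact Odd.pow (by decide)
  · intro p hp hpt
    obtain rfl := prime_of_dvd_pow_seven hp hpt
    exact ⟨by norm_num, 21, 1177429, by norm_num, by decide +kernel⟩
  · apply irr_of_cert (n := 21) (by norm_num) (by decide +kernel) (by norm_num) (by decide +kernel)
    intro p hp hpt
    have h6 : (21 : ℕ) = 3 * 7 := by norm_num
    rw [h6] at hpt
    rcases (hp.dvd_mul).mp hpt with h | h
    · obtain rfl := (Nat.prime_dvd_prime_iff_eq hp Nat.prime_three).mp h
      exact ⟨179491, by decide +kernel⟩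
    · obtain rfl := (Nat.prime_dvd_prime_iff_eq hp (by norm_num)).mp h
      exact ⟨966005, by decide +kernel⟩

/-- degree `4 * 5 ^ j` -/
theorem PD_four (j : ℕ) : PD (4 * 5 ^ j) := by
  apply PD_of_cert (F := 31) (by norm_num) (by decide +kernel) (by norm_num) _ (by decide +kernel)
  · exact Odd.pow (by decide)
  · intro p hp hpt
    obtain rfl := prime_of_dvd_pow_five hp hpt
    exact ⟨by norm_num, 4, 7, by norm_num, by decide +kernel⟩
  · apply irr_of_cert (n := 4) (by norm_num) (by decide +kernel) (by norm_num) (by decide +kernel)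
    intro p hp hpt
    have h6 : (4 : ℕ) = 2 * 2 := by norm_num
    rw [h6] at hpt
    have h' : p ∣ 2 := by
      rcases (hp.dvd_mul).mp hpt with h | h <;> exact h
    obtain rfl := (Nat.prime_dvd_prime_iff_eq hp Nat.prime_two).mp h'
    exact ⟨12, by decide +kernel⟩

/-- degree `4 * (3 ^ i * 5 ^ j)` -/
theorem PD_four' (i j : ℕ) : PD (4 * (3 ^ i * 5 ^ j)) := by
  cases i with
  | zero => simpa using PD_four j
  | succ i =>
    have := PD_twelve i j
    have h : 12 * (3 ^ i * 5 ^ j) = 4 * (3 ^ (i + 1) * 5 ^ j) := by ring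
    rwa [h] at this

/-- numbers with the only prime divisors 3 and 5 -/
theorem eq_three_five {d : ℕ} (hd : d ≠ 0) (h : ∀ p : ℕ, p.Prime → p ∣ d → p = 3 ∨ p = 5) :
    ∃ i j, d = 3 ^ i * 5 ^ j := by
  induction d using Nat.strong_induction_on with
  | _ d ih =>
    rcases eq_or_ne d 1 with rfl | h1
    · exact ⟨0, 0, by norm_num⟩
    obtain ⟨p, hp, m, rfl⟩ := Nat.exists_prime_and_dvd h1
    have hm0 : m ≠ 0 := by rintro rfl; simp at hd
    obtain ⟨i, j, hij⟩ := ih m (by
      have := hp.one_lt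
      have : 1 * m < p * m := Nat.mul_lt_mul_of_pos_right this (Nat.pos_of_ne_zero hm0)
      omega) hm0 (fun q hq hqm => h q hq (hqm.mul_left p))
    rcases h p hp (Dvd.intro m rfl) with rfl | rfl
    · exact ⟨i + 1, j, by rw [hij]; ring⟩
    · exact ⟨i, j + 1, by rw [hij]; ring⟩

/-- The exceptional trinomials: degree two in `X ^ k`. -/
theorem PD_exc2 {k : ℕ} (hk : 2 ≤ k) (h : Irreducible (X ^ (2 * k) + X ^ k + 1 : (ZMod 2)[X])) :
    PD (2 * k) := by
  have h1 : (X ^ (2 * k) + X ^ k + 1 : (ZMod 2)[X]) = expand (ZMod 2) k (X ^ 2 + X + 1) := by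
    simp [pow_mul, mul_comm]
  rw [h1] at h
  have hdeg : (X ^ 2 + X + 1 : (ZMod 2)[X]).natDegree = 2 := by compute_degree!
  have h3 : ∀ p : ℕ, p.Prime → p ∣ k → p = 3 := by
    intro p hp hpk
    have := prime_dvd_of_irr_expand (by omega) hp hpk h
    rw [hdeg] at this
    exact (Nat.prime_dvd_prime_iff_eq hp Nat.prime_three).mp (by simpa using this)
  have hk3 : k = 3 ^ k.primeFactorsList.length :=
    Nat.eq_prime_pow_of_unique_prime_dvd (by omega) (fun {p} hp hpk => h3 p hp hpk)
  obtain ⟨i, hi⟩ : ∃ i, k = 3 ^ i := ⟨_, hk3⟩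
  cases i with
  | zero => simp at hi; omega
  | succ i =>
    have := PD_six i
    have h4 : 6 * 3 ^ i = 2 * k := by rw [hi]; ring
    rwa [h4] at this

/-- The exceptional trinomials: degree three in `X ^ k`. -/
theorem PD_exc3 {k : ℕ} (hk : 2 ≤ k) {g : (ZMod 2)[X]} (hdeg : g.natDegree = 3)
    (h : Irreducible (expand (ZMod 2) k g)) : PD (3 * k) := by
  have h3 : ∀ p : ℕ, p.Prime → p ∣ k → p = 7 := by
    intro p hp hpk
    have := prime_dvd_of_irr_expand (by omega) hp hpk h
    rw [hdeg] at this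
    exact (Nat.prime_dvd_prime_iff_eq hp (by norm_num)).mp (by simpa using this)
  have hk3 : k = 7 ^ k.primeFactorsList.length :=
    Nat.eq_prime_pow_of_unique_prime_dvd (by omega) (fun {p} hp hpk => h3 p hp hpk)
  obtain ⟨i, hi⟩ : ∃ i, k = 7 ^ i := ⟨_, hk3⟩
  cases i with
  | zero => simp at hi; omega
  | succ i =>
    have := PD_twentyone i
    have h4 : 21 * 7 ^ i = 3 * k := by rw [hi]; ring
    rwa [h4] at this

/-- The exceptional trinomials: degree four in `X ^ k`. -/
theorem PD_exc4 {k : ℕ} (hk : k ≠ 0) {g : (ZMod 2)[X]} (hdeg : g.natDegree = 4)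
    (h : Irreducible (expand (ZMod 2) k g)) : PD (4 * k) := by
  have h3 : ∀ p : ℕ, p.Prime → p ∣ k → p = 3 ∨ p = 5 := by
    intro p hp hpk
    have := prime_dvd_of_irr_expand hk hp hpk h
    rw [hdeg] at this
    have h15 : p ∣ 3 * 5 := by simpa using this
    rcases (hp.dvd_mul).mp h15 with h | h
    · left; exact (Nat.prime_dvd_prime_iff_eq hp Nat.prime_three).mp h
    · right; exact (Nat.prime_dvd_prime_iff_eq hp Nat.prime_five).mp h
  obtain ⟨i, j, hij⟩ := eq_three_five hk h3
  rw [hij]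
  exact PD_four' i j

end Pool.Agent.Helper109
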