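import Mathlib

/-!
# Sparse polynomials over the field with two elements

`sp S` is the sum of the monomials `X ^ e`, `e ∈ S`.  `PD n` says that there is an irreducible
polynomial of degree `n` with exactly five nonzero coefficients.
-/

set_option autoImplicit false

namespace Pool.Agent.Helper109

open Polynomial

/-- there is an irreducible pentanomial of degree `n` over the field with two elements -/
def PD (n : ℕ) : Prop :=
  ∃ p : (ZMod 2)[X], p.natDegree = n ∧ p.support.card = 5 ∧ Irreducible p

/-- the sum of the monomials with exponents in `S` -/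
noncomputable def sp (S : Finset ℕ) : (ZMod 2)[X] := ∑ e ∈ S, X ^ e

theorem coeff_sp (S : Finset ℕ) (i : ℕ) : (sp S).coeff i = if i ∈ S then 1 else 0 := by
  unfold sp
  rw [finsetSum_coeff]
  simp only [coeff_X_pow]
  rw [Finset.sum_ite_eq]

theorem support_sp (S : Finset ℕ) : (sp S).support = S := by
  ext i
  rw [mem_support_iff, coeff_sp]
  split_ifs with h
  · simp [h]
  · simp [h]

theorem natDegree_sp {S : Finset ℕ} {n : ℕ} (hn : n ∈ S) (h : ∀ e ∈ S, e ≤ n) :
    (sp S).natDegree = n := by
  apply le_antisymm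
  · rw [natDegree_le_iff_coeff_eq_zero]
    intro N hN
    rw [coeff_sp, if_neg]
    intro h'
    exact absurd (h N h') (by omega)
  · apply le_natDegree_of_ne_zero
    rw [coeff_sp, if_pos hn]
    exact one_ne_zero

theorem monic_sp {S : Finset ℕ} {n : ℕ} (hn : n ∈ S) (h : ∀ e ∈ S, e ≤ n) :
    (sp S).Monic := by
  unfold Monic leadingCoeff
  rw [natDegree_sp hn h, coeff_sp, if_pos hn]

theorem aeval_sp {A : Type*} [CommRing A] [Algebra (ZMod 2) A] (x : A) (S : Finset ℕ) :
    aeval x (sp S) = ∑ e ∈ S, x ^ e := by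
  unfold sp
  simp

theorem sum5 {A : Type*} [CommRing A] (x : A) {a b c d e : ℕ} (h1 : a ∉ ({b, c, d, e} : Finset ℕ))
    (h2 : b ∉ ({c, d, e} : Finset ℕ)) (h3 : c ∉ ({d, e} : Finset ℕ)) (h4 : d ≠ e) :
    ∑ i ∈ ({a, b, c, d, e} : Finset ℕ), x ^ i = x ^ a + x ^ b + x ^ c + x ^ d + x ^ e := by
  rw [Finset.sum_insert h1, Finset.sum_insert h2, Finset.sum_insert h3, Finset.sum_pair h4]
  ring

theorem card5 {a b c d e : ℕ} (h1 : a ∉ ({b, c, d, e} : Finset ℕ))
    (h2 : b ∉ ({c, d, e} : Finset ℕ)) (h3 : c ∉ ({d, e} : Finset ℕ)) (h4 : d ≠ e) :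
    ({a, b, c, d, e} : Finset ℕ).card = 5 := by
  rw [Finset.card_insert_of_notMem h1, Finset.card_insert_of_notMem h2,
    Finset.card_insert_of_notMem h3, Finset.card_pair h4]

/-- Every monic polynomial with five coefficients over `F_2`, whose root generates a field of the
right degree, is an irreducible pentanomial. -/
theorem PD_of_root {K : Type*} [Field K] [Algebra (ZMod 2) K] {β : K} {n a b c d : ℕ}
    (hint : IsIntegral (ZMod 2) β) (hdeg : (minpoly (ZMod 2) β).natDegree = n)
    (h0 : 0 < a ∧ 0 < b ∧ 0 < c ∧ 0 < n) (hn : a < n ∧ b < n ∧ c < n)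
    (hne : a ≠ b ∧ a ≠ c ∧ b ≠ c) (hd : d = 0)
    (hβ : β ^ n + β ^ a + β ^ b + β ^ c + 1 = 0) : PD n := by
  subst hd
  have h1 : n ∉ ({a, b, c, 0} : Finset ℕ) := by simp; omega
  have h2 : a ∉ ({b, c, 0} : Finset ℕ) := by simp; omega
  have h3 : b ∉ ({c, 0} : Finset ℕ) := by simp; omega
  have h4 : c ≠ 0 := by omega
  have hle : ∀ e ∈ ({n, a, b, c, 0} : Finset ℕ), e ≤ n := by
    intro e he
    simp at he
    omega
  have hmem : n ∈ ({n, a, b, c, 0} : Finset ℕ) := by simp
  refine ⟨sp {n, a, b, c, 0}, natDegree_sp hmem hle, ?_, ?_⟩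
  · rw [support_sp]; exact card5 h1 h2 h3 h4
  · have hroot : aeval β (sp {n, a, b, c, 0}) = 0 := by
      rw [aeval_sp, sum5 β h1 h2 h3 h4, pow_zero]
      exact hβ
    have hdvd : minpoly (ZMod 2) β ∣ sp {n, a, b, c, 0} := minpoly.dvd _ _ hroot
    have heq : minpoly (ZMod 2) β = sp {n, a, b, c, 0} := by
      symm
      apply eq_of_monic_of_dvd_of_natDegree_le (minpoly.monic hint) (monic_sp hmem hle) hdvd
      rw [hdeg, natDegree_sp hmem hle]
    rw [← heq]
    exact minpoly.irreducible hint

/-- If every automorphism that fixes `β` fixes the generator `α`, then `β` is a generator. -/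
theorem gen_of_fix {F K : Type*} [Field F] [Field K] [Algebra F K] [FiniteDimensional F K]
    [IsGalois F K] {α β : K} (hα : IntermediateField.adjoin F {α} = ⊤)
    (h : ∀ τ : K ≃ₐ[F] K, τ β = β → τ α = α) : IntermediateField.adjoin F {β} = ⊤ := by
  have hfix : (IntermediateField.adjoin F {β}).fixingSubgroup = ⊥ := by
    rw [eq_bot_iff]
    intro τ hτ
    rw [Subgroup.mem_bot]
    have h1 : τ β = β := by
      rw [IntermediateField.mem_fixingSubgroup_iff] at hτ
      exact hτ β (IntermediateField.mem_adjoin_simple_self F β)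
    have h2 : τ α = α := h τ h1
    have h3 : (IntermediateField.adjoin F {α}) ≤ IntermediateField.fixedField (Subgroup.zpowers τ) := by
      rw [IntermediateField.adjoin_simple_le_iff, IntermediateField.mem_fixedField_iff]
      intro σ hσ
      obtain ⟨k, rfl⟩ := Subgroup.mem_zpowers_iff.mp hσ
      have h4 : ∀ m : ℕ, (τ ^ m) α = α := by
        intro m
        induction m with
        | zero => simp
        | succ m ih => rw [pow_succ, AlgEquiv.mul_apply, h2, ih]
      cases k with
      | ofNat m => simpa using h4 m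
      | negSucc m =>
        rw [zpow_negSucc]
        have h5 := h4 (m + 1)
        have h6 : (τ ^ (m + 1))⁻¹ ((τ ^ (m + 1)) α) = α := by
          rw [← AlgEquiv.mul_apply]; simp
        rw [h5] at h6
        exact h6
    rw [hα, top_le_iff] at h3
    ext x
    have hx : x ∈ IntermediateField.fixedField (Subgroup.zpowers τ) := by rw [h3]; trivial
    rw [IntermediateField.mem_fixedField_iff] at hx
    exact hx τ (Subgroup.mem_zpowers τ)
  have := IsGalois.fixedField_fixingSubgroup (IntermediateField.adjoin F {β})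
  rw [← this, hfix]
  exact IntermediateField.fixedField_bot

theorem natDegree_minpoly_of_gen {F K : Type*} [Field F] [Field K] [Algebra F K]
    [FiniteDimensional F K] {β : K} (hβ : IntermediateField.adjoin F {β} = ⊤) :
    (minpoly F β).natDegree = Module.finrank F K := by
  rw [← IntermediateField.adjoin.finrank (Algebra.IsIntegral.isIntegral β), hβ]
  exact IntermediateField.finrank_top'

end Pool.Agent.Helper109
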