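import Pool.Agent.Helper109.Basic

/-!
# Kernel certificates of irreducibility over the field with two elements

Polynomials over `F_2` are encoded as natural numbers (bit `i` is the coefficient of `X ^ i`).
The functions `ev`, `xt`, `mm` are as in the starting file `Pool.Agent.H727R3.Cert`.
-/

set_option autoImplicit false
set_option linter.style.haveILetI false
set_option linter.unusedSectionVars false

namespace Pool.Agent.Helper109

open Polynomial

section ev
variable {R : Type*} [CommRing R] [CharP R 2]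

/-- evaluation of the polynomial over `F_2` whose coefficients are the bits of a number -/
noncomputable def ev (α : R) : ℕ → R
  | 0 => 0
  | (n + 1) => (if (n + 1) % 2 = 1 then 1 else 0) + α * ev α ((n + 1) / 2)
decreasing_by omega

theorem ev_eq (α : R) (a : ℕ) : ev α a = (if a % 2 = 1 then 1 else 0) + α * ev α (a / 2) := by
  cases a with
  | zero => simp [ev]
  | succ n => rw [ev]

theorem ev_zero (α : R) : ev α 0 = 0 := by rw [ev]

theorem ev_one (α : R) : ev α 1 = 1 := by
  rw [ev_eq]; norm_num [ev_zero]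

theorem ev_two (α : R) : ev α 2 = α := by
  rw [ev_eq]; norm_num [ev_one]

theorem ev_xor (α : R) (a b : ℕ) : ev α (a ^^^ b) = ev α a + ev α b := by
  induction hs : a + b using Nat.strong_induction_on generalizing a b with
  | _ s ih =>
    rcases Nat.eq_zero_or_pos a with ha | ha
    · subst ha; rw [Nat.zero_xor, ev_zero, zero_add]
    rcases Nat.eq_zero_or_pos b with hb | hb
    · subst hb; rw [Nat.xor_zero, ev_zero, add_zero]
    rw [ev_eq α (a ^^^ b), ev_eq α a, ev_eq α b, Nat.xor_div_two,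
      ih (a / 2 + b / 2) (by omega) (a / 2) (b / 2) rfl]
    have h2 : (2 : R) = 0 := CharTwo.two_eq_zero
    have h1 : (if (a ^^^ b) % 2 = 1 then (1 : R) else 0) =
        (if a % 2 = 1 then 1 else 0) + (if b % 2 = 1 then 1 else 0) := by
      have hx := Nat.xor_mod_two_eq_one (a := a) (b := b)
      by_cases p1 : a % 2 = 1
      · by_cases p2 : b % 2 = 1
        · rw [if_pos p1, if_pos p2, if_neg (by rw [hx]; tauto), one_add_one_eq_two, h2]
        · rw [if_pos p1, if_neg p2, if_pos (by rw [hx]; tauto), add_zero]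
      · by_cases p2 : b % 2 = 1
        · rw [if_neg p1, if_pos p2, if_pos (by rw [hx]; tauto), zero_add]
        · rw [if_neg p1, if_neg p2, if_neg (by rw [hx]; tauto), add_zero]
    rw [h1]; ring

theorem ev_double (α : R) (a : ℕ) : ev α (2 * a) = α * ev α a := by
  rw [ev_eq]
  have h1 : 2 * a % 2 = 0 := by omega
  have h2 : 2 * a / 2 = a := by omega
  rw [h1, h2]; simp

theorem ev_two_pow (α : R) (k : ℕ) : ev α (2 ^ k) = α ^ k := by
  induction k with
  | zero => rw [pow_zero, pow_zero, ev_one]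
  | succ k ih => rw [pow_succ, mul_comm, ev_double, ih, pow_succ, mul_comm]

/-- multiplication by the generator -/
def xt (f n a : ℕ) : ℕ := if (2 * a).testBit n then (2 * a) ^^^ f else 2 * a

theorem ev_xt {α : R} {f n : ℕ} (hf : ev α f = 0) (a : ℕ) : ev α (xt f n a) = α * ev α a := by
  unfold xt
  split_ifs
  · rw [ev_xor, hf, add_zero, ev_double]
  · rw [ev_double]

/-- multiplication with fuel -/
def mm (f n : ℕ) : ℕ → ℕ → ℕ → ℕ
  | 0, _, _ => 0
  | (k + 1), a, b => (if b % 2 = 1 then a else 0) ^^^ mm f n k (xt f n a) (b / 2)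

theorem ev_mm {α : R} {f n : ℕ} (hf : ev α f = 0) : ∀ (k a b : ℕ), b < 2 ^ k →
    ev α (mm f n k a b) = ev α a * ev α b := by
  intro k
  induction k with
  | zero =>
    intro a b hb
    have : b = 0 := by simpa using hb
    subst this
    rw [mm, ev_zero, mul_zero]
  | succ k ih =>
    intro a b hb
    have hb2 : b / 2 < 2 ^ k := by rw [pow_succ] at hb; omega
    rw [mm, ev_xor, ih _ _ hb2, ev_xt hf, ev_eq α b]
    split_ifs
    · ring
    · rw [ev_zero]; ring

/-- multiplication -/
def MU (f n a b : ℕ) : ℕ := mm f n (Nat.log2 b + 1) a b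

theorem ev_MU {α : R} {f n : ℕ} (hf : ev α f = 0) (a b : ℕ) :
    ev α (MU f n a b) = ev α a * ev α b := by
  unfold MU
  exact ev_mm hf _ _ _ Nat.lt_log2_self

/-- iterated squaring of the generator -/
def sqn (f n : ℕ) : ℕ → ℕ
  | 0 => 2
  | (k + 1) => MU f n (sqn f n k) (sqn f n k)

theorem ev_sqn {α : R} {f n : ℕ} (hf : ev α f = 0) (k : ℕ) : ev α (sqn f n k) = α ^ (2 ^ k) := by
  induction k with
  | zero => rw [sqn, ev_two]; simp
  | succ k ih => rw [sqn, ev_MU hf, ih, pow_succ, pow_mul, sq]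

/-- the power of the generator with exponent `e < 2 ^ k` -/
def pw (f n : ℕ) : ℕ → ℕ → ℕ
  | 0, _ => 1
  | (k + 1), e => if e % 2 = 1 then xt f n (MU f n (pw f n k (e / 2)) (pw f n k (e / 2)))
      else MU f n (pw f n k (e / 2)) (pw f n k (e / 2))

theorem ev_pw {α : R} {f n : ℕ} (hf : ev α f = 0) : ∀ k e : ℕ, e < 2 ^ k →
    ev α (pw f n k e) = α ^ e := by
  intro k
  induction k with
  | zero =>
    intro e he
    have : e = 0 := by simpa using he
    subst this
    rw [pw, ev_one, pow_zero]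
  | succ k ih =>
    intro e he
    have he2 : e / 2 < 2 ^ k := by rw [pow_succ] at he; omega
    rw [pw]
    split_ifs with h
    · rw [ev_xt hf, ev_MU hf, ih _ he2, ← pow_add, ← pow_succ']
      congr 1; omega
    · rw [ev_MU hf, ih _ he2, ← pow_add]
      congr 1; omega

end ev

theorem ev_map {R R' : Type*} [CommRing R] [CharP R 2] [CommRing R'] [CharP R' 2] (φ : R →+* R')
    (α : R) (a : ℕ) : φ (ev α a) = ev (φ α) a := by
  induction a using Nat.strong_induction_on with
  | _ a ih =>
    rcases Nat.eq_zero_or_pos a with ha | ha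
    · subst ha; rw [ev_zero, ev_zero, map_zero]
    · rw [ev_eq, ev_eq (φ α), map_add, map_mul, ih (a / 2) (by omega)]
      congr 1
      split_ifs <;> simp

theorem coeff_ev (i : ℕ) : ∀ a : ℕ, (ev (X : (ZMod 2)[X]) a).coeff i = if a.testBit i then 1 else 0 := by
  induction i with
  | zero =>
    intro a
    rw [ev_eq, coeff_add, coeff_X_mul_zero, add_zero, Nat.testBit_zero]
    by_cases h : a % 2 = 1 <;> simp [h]
  | succ i ih =>
    intro a
    rw [ev_eq, coeff_add, coeff_X_mul, ih, Nat.testBit_succ]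
    have : (if a % 2 = 1 then (1 : (ZMod 2)[X]) else 0).coeff (i + 1) = 0 := by
      split_ifs
      · rw [coeff_one]; simp
      · simp
    rw [this, zero_add]

theorem natDegree_ev {F n : ℕ} (h1 : F.testBit n = true) (h2 : F < 2 ^ (n + 1)) :
    (ev (X : (ZMod 2)[X]) F).natDegree = n := by
  apply le_antisymm
  · rw [natDegree_le_iff_coeff_eq_zero]
    intro N hN
    rw [coeff_ev, Nat.testBit_lt_two_pow (lt_of_lt_of_le h2 (Nat.pow_le_pow_right (by norm_num) hN))]
    rfl
  · apply le_natDegree_of_ne_zero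
    rw [coeff_ev, h1]
    exact one_ne_zero

theorem ev_root_map {f : (ZMod 2)[X]} [CharP (AdjoinRoot f) 2] (a : ℕ) :
    AdjoinRoot.mk f (ev X a) = ev (AdjoinRoot.root f) a := by
  rw [ev_map (AdjoinRoot.mk f) X a, AdjoinRoot.mk_X]

theorem charP_adjoinRoot {f : (ZMod 2)[X]} (hf : f.natDegree ≠ 0) : CharP (AdjoinRoot f) 2 := by
  haveI : Nontrivial (AdjoinRoot f) := by
    apply AdjoinRoot.nontrivial
    intro h0
    exact hf (natDegree_eq_of_degree_eq_some h0)
  exact charP_of_injective_algebraMap (algebraMap (ZMod 2) (AdjoinRoot f)).injective 2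

/-- The certificate of irreducibility. -/
theorem irr_of_cert {F n : ℕ} (hn : n ≠ 0) (hb1 : F.testBit n = true) (hb2 : F < 2 ^ (n + 1))
    (hs : sqn F n n = 2)
    (hu : ∀ p : ℕ, p.Prime → p ∣ n → ∃ u, MU F n (sqn F n (n / p) ^^^ 2) u = 1) :
    Irreducible (ev (X : (ZMod 2)[X]) F) := by
  set f : (ZMod 2)[X] := ev X F with hf
  have hdeg : f.natDegree = n := natDegree_ev hb1 hb2
  haveI := charP_adjoinRoot (f := f) (by rw [hdeg]; exact hn)
  have hF : ev (AdjoinRoot.root f) F = 0 := by
    rw [← ev_root_map, ← hf, AdjoinRoot.mk_self]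
  have hdvd : f ∣ X ^ (2 ^ n) - X := by
    rw [← AdjoinRoot.mk_eq_zero, map_sub, map_pow, AdjoinRoot.mk_X, ← ev_sqn (n := n) hF n, hs, ev_two,
      sub_self]
  have hnu : ¬ IsUnit f := by
    intro h
    exact hn (by rw [← hdeg]; exact natDegree_eq_zero_of_isUnit h)
  have hf0 : f ≠ 0 := by
    intro h; rw [h, natDegree_zero] at hdeg; exact hn hdeg.symm
  obtain ⟨g, hg, hgf⟩ := WfDvdMonoid.exists_irreducible_factor hnu hf0
  have hcard : Nat.card (ZMod 2) = 2 := by simp
  have hgn : g.natDegree ∣ n := by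
    rw [hg.natDegree_dvd_iff_dvd_X_pow_card_pow_sub_X, hcard]
    exact hgf.trans hdvd
  have hgd : g.natDegree = n := by
    by_contra hne
    obtain ⟨m, hm⟩ := hgn
    have hm1 : m ≠ 1 := by rintro rfl; rw [mul_one] at hm; exact hne hm.symm
    obtain ⟨p, hp, hpm⟩ := Nat.exists_prime_and_dvd hm1
    obtain ⟨m', rfl⟩ := hpm
    have hpn : p ∣ n := by rw [hm]; exact ⟨g.natDegree * m', by ring⟩
    have hnp : n / p = g.natDegree * m' := by
      rw [hm]
      apply Nat.div_eq_of_eq_mul_left hp.pos; ring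
    have hg2 : g ∣ X ^ (2 ^ (n / p)) - X := by
      have := (hg.natDegree_dvd_iff_dvd_X_pow_card_pow_sub_X (n := n / p)).mp
        (by rw [hnp]; exact Dvd.intro _ rfl)
      rwa [hcard] at this
    obtain ⟨u, hu'⟩ := hu p hp hpn
    have h1 : f ∣ (X ^ (2 ^ (n / p)) - X) * ev X u - 1 := by
      rw [← AdjoinRoot.mk_eq_zero, map_sub, map_mul, map_sub, map_pow, AdjoinRoot.mk_X,
        ev_root_map, map_one, ← ev_sqn (n := n) hF (n / p)]
      have h2 := ev_MU (n := n) hF (sqn F n (n / p) ^^^ 2) u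
      rw [hu', ev_one, ev_xor, ev_two] at h2
      rw [CharTwo.sub_eq_add (ev (AdjoinRoot.root f) (sqn F n (n / p))) (AdjoinRoot.root f), ← h2,
        sub_self]
    have h3 : g ∣ 1 := by
      have h4 := hgf.trans h1
      have h5 : g ∣ (X ^ (2 ^ (n / p)) - X) * ev X u := hg2.mul_right _
      have := dvd_sub h5 h4
      rwa [sub_sub_cancel] at this
    exact hg.not_isUnit (isUnit_of_dvd_one h3)
  have hassoc : Associated g f := by
    obtain ⟨c, hc⟩ := hgf
    have hc0 : c ≠ 0 := by rintro rfl; rw [mul_zero] at hc; exact hf0 hc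
    have hcd : c.natDegree = 0 := by
      have := natDegree_mul hg.ne_zero hc0
      rw [← hc, hdeg, hgd] at this
      omega
    rw [eq_C_of_natDegree_eq_zero hcd] at hc hc0
    have hcu : IsUnit (C (c.coeff 0)) := by
      rw [isUnit_C]
      exact isUnit_iff_ne_zero.mpr (by intro h; apply hc0; rw [h, C_0])
    rw [hc]
    exact ⟨hcu.unit, rfl⟩
  exact hassoc.irreducible hg

/-- The certificate for a power of the root being different from one. -/
theorem not_dvd_of_cert {F n k e : ℕ} (hn : n ≠ 0) (hb1 : F.testBit n = true)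
    (hb2 : F < 2 ^ (n + 1)) (he : e < 2 ^ k) (hu : ∃ u, MU F n (pw F n k e ^^^ 1) u = 1) :
    ¬ ev (X : (ZMod 2)[X]) F ∣ X ^ e - 1 := by
  set f : (ZMod 2)[X] := ev X F with hf
  have hdeg : f.natDegree = n := natDegree_ev hb1 hb2
  haveI := charP_adjoinRoot (f := f) (by rw [hdeg]; exact hn)
  have hF : ev (AdjoinRoot.root f) F = 0 := by
    rw [← ev_root_map, ← hf, AdjoinRoot.mk_self]
  intro hdvd
  rw [← AdjoinRoot.mk_eq_zero, map_sub, map_pow, AdjoinRoot.mk_X, map_one] at hdvd
  obtain ⟨u, hu⟩ := hu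
  have h2 := ev_MU (n := n) hF (pw F n k e ^^^ 1) u
  rw [hu, ev_one, ev_xor, ev_one, ev_pw hF k e he, ← CharTwo.sub_eq_add, hdvd, zero_mul] at h2
  haveI : Nontrivial (AdjoinRoot f) := CharP.nontrivial_of_char_ne_one (R := AdjoinRoot f)
    (v := 2) (by norm_num)
  exact one_ne_zero h2

end Pool.Agent.Helper109
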