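import Pool.Agent.Helper109.KronCert

/-!
# Irreducible pentanomials of degree `2 ^ J * 3 ^ i * 5 ^ j` for `3 ≤ J ≤ 12`
-/

set_option autoImplicit false
set_option maxRecDepth 100000

namespace Pool.Agent.Helper109

theorem kron_3 (i j : ℕ) : PD (2 ^ 3 * (3 ^ i * 5 ^ j)) :=
  PD_of_kron (k := 4) (J := 3) (a := 4) (b := 3) (c := 2) (by norm_num)
    ⟨by norm_num, by norm_num, by norm_num, by norm_num, by norm_num⟩ (by norm_num)
    (by decide +kernel) (by decide +kernel) (by decide +kernel) (by decide +kernel) i j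

theorem kron_4 (i j : ℕ) : PD (2 ^ 4 * (3 ^ i * 5 ^ j)) :=
  PD_of_kron (k := 5) (J := 4) (a := 5) (b := 3) (c := 2) (by norm_num)
    ⟨by norm_num, by norm_num, by norm_num, by norm_num, by norm_num⟩ (by norm_num)
    (by decide +kernel) (by decide +kernel) (by decide +kernel) (by decide +kernel) i j

theorem kron_5 (i j : ℕ) : PD (2 ^ 5 * (3 ^ i * 5 ^ j)) :=
  PD_of_kron (k := 6) (J := 5) (a := 7) (b := 6) (c := 2) (by norm_num)
    ⟨by norm_num, by norm_num, by norm_num, by norm_num, by norm_num⟩ (by norm_num)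
    (by decide +kernel) (by decide +kernel) (by decide +kernel) (by decide +kernel) i j

theorem kron_6 (i j : ℕ) : PD (2 ^ 6 * (3 ^ i * 5 ^ j)) :=
  PD_of_kron (k := 7) (J := 6) (a := 4) (b := 3) (c := 1) (by norm_num)
    ⟨by norm_num, by norm_num, by norm_num, by norm_num, by norm_num⟩ (by norm_num)
    (by decide +kernel) (by decide +kernel) (by decide +kernel) (by decide +kernel) i j

theorem kron_7 (i j : ℕ) : PD (2 ^ 7 * (3 ^ i * 5 ^ j)) :=
  PD_of_kron (k := 8) (J := 7) (a := 7) (b := 2) (c := 1) (by norm_num)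
    ⟨by norm_num, by norm_num, by norm_num, by norm_num, by norm_num⟩ (by norm_num)
    (by decide +kernel) (by decide +kernel) (by decide +kernel) (by decide +kernel) i j

theorem kron_8 (i j : ℕ) : PD (2 ^ 8 * (3 ^ i * 5 ^ j)) :=
  PD_of_kron (k := 9) (J := 8) (a := 10) (b := 5) (c := 2) (by norm_num)
    ⟨by norm_num, by norm_num, by norm_num, by norm_num, by norm_num⟩ (by norm_num)
    (by decide +kernel) (by decide +kernel) (by decide +kernel) (by decide +kernel) i j

theorem kron_9 (i j : ℕ) : PD (2 ^ 9 * (3 ^ i * 5 ^ j)) :=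
  PD_of_kron (k := 10) (J := 9) (a := 8) (b := 5) (c := 2) (by norm_num)
    ⟨by norm_num, by norm_num, by norm_num, by norm_num, by norm_num⟩ (by norm_num)
    (by decide +kernel) (by decide +kernel) (by decide +kernel) (by decide +kernel) i j

theorem kron_10 (i j : ℕ) : PD (2 ^ 10 * (3 ^ i * 5 ^ j)) :=
  PD_of_kron (k := 11) (J := 10) (a := 23) (b := 22) (c := 9) (by norm_num)
    ⟨by norm_num, by norm_num, by norm_num, by norm_num, by norm_num⟩ (by norm_num)
    (by decide +kernel) (by decide +kernel) (by decide +kernel) (by decide +kernel) i j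

theorem kron_11 (i j : ℕ) : PD (2 ^ 11 * (3 ^ i * 5 ^ j)) :=
  PD_of_kron (k := 12) (J := 11) (a := 19) (b := 14) (c := 13) (by norm_num)
    ⟨by norm_num, by norm_num, by norm_num, by norm_num, by norm_num⟩ (by norm_num)
    (by decide +kernel) (by decide +kernel) (by decide +kernel) (by decide +kernel) i j

theorem kron_12 (i j : ℕ) : PD (2 ^ 12 * (3 ^ i * 5 ^ j)) :=
  PD_of_kron (k := 13) (J := 12) (a := 27) (b := 15) (c := 1) (by norm_num)
    ⟨by norm_num, by norm_num, by norm_num, by norm_num, by norm_num⟩ (by norm_num)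
    (by decide +kernel) (by decide +kernel) (by decide +kernel) (by decide +kernel) i j

end Pool.Agent.Helper109
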