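import Mathlib

/-!
# Numbers with two multiplicatively independent generators are dense on the logarithmic scale
-/

set_option autoImplicit false

namespace Pool.Agent.Helper109

open Real

/-- the walk: from a ratio close to one to the density of the semigroup -/
theorem between_of_ratio {P Q : ℝ} (hP : 1 < P) (hQ : 1 < Q) {ε : ℝ} {u v : ℕ}
    (h1 : Q ^ v < P ^ u) (h2 : P ^ u ≤ (1 + ε) * Q ^ v) :
    ∃ Y : ℝ, ∀ y : ℝ, Y ≤ y → ∃ i j : ℕ, y < P ^ i * Q ^ j ∧ P ^ i * Q ^ j ≤ (1 + ε) * y := by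
  have hQ0 : (0 : ℝ) < Q := by linarith
  have hP0 : (0 : ℝ) < P := by linarith
  have hQv : 0 < Q ^ v := pow_pos hQ0 v
  set r := P ^ u / Q ^ v with hr
  have hr1 : 1 < r := by rw [hr, one_lt_div hQv]; exact h1
  have hr2 : r ≤ 1 + ε := by rw [hr, div_le_iff₀ hQv]; exact h2
  obtain ⟨S, hS⟩ := pow_unbounded_of_one_lt Q hr1
  refine ⟨Q ^ (v * S), ?_⟩
  intro y hy
  have hy1 : 1 ≤ y := le_trans (one_le_pow₀ hQ.le) hy
  have hy0 : 0 < y := by linarith
  obtain ⟨j, hj1, hj2⟩ := exists_nat_pow_near hy1 hQ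
  have hjS : v * S ≤ j := by
    by_contra hlt
    push Not at hlt
    have : Q ^ (j + 1) ≤ Q ^ (v * S) := pow_le_pow_right₀ hQ.le hlt
    linarith
  -- minimal `s` with `y < Q ^ j * r ^ s`
  have hex : ∃ s, y < Q ^ j * r ^ s := by
    refine ⟨S, lt_of_lt_of_le hj2 ?_⟩
    rw [pow_succ]
    exact mul_le_mul_of_nonneg_left hS.le (pow_pos hQ0 j).le
  classical
  set s := Nat.find hex with hs
  have hs1 : y < Q ^ j * r ^ s := Nat.find_spec hex
  have hs0 : s ≠ 0 := by
    intro h0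
    rw [h0, pow_zero, mul_one] at hs1
    linarith
  have hsS : s ≤ S := by
    apply Nat.find_min' hex
    refine lt_of_lt_of_le hj2 ?_
    rw [pow_succ]
    exact mul_le_mul_of_nonneg_left hS.le (pow_pos hQ0 j).le
  have hs2 : Q ^ j * r ^ (s - 1) ≤ y := by
    have := Nat.find_min hex (m := s - 1) (by omega)
    push Not at this
    exact this
  have hvs : v * s ≤ j := le_trans (Nat.mul_le_mul_left v hsS) hjS
  have hval : P ^ (u * s) * Q ^ (j - v * s) = Q ^ j * r ^ s := by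
    rw [hr, div_pow, ← pow_mul, ← pow_mul]
    have : Q ^ j = Q ^ (j - v * s) * Q ^ (v * s) := by
      rw [← pow_add]; congr 1; omega
    rw [this]
    field_simp
  refine ⟨u * s, j - v * s, ?_, ?_⟩
  · rw [hval]; exact hs1
  · rw [hval]
    have : r ^ s = r ^ (s - 1) * r := by
      rw [← pow_succ]; congr 1; omega
    rw [this, ← mul_assoc]
    calc Q ^ j * r ^ (s - 1) * r ≤ y * r := mul_le_mul_of_nonneg_right hs2 (by linarith)
      _ ≤ y * (1 + ε) := mul_le_mul_of_nonneg_left hr2 hy0.le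
      _ = (1 + ε) * y := mul_comm _ _

/-- **Density of a semigroup with two multiplicatively independent generators.** -/
theorem exists_between {P Q : ℕ} (hP : 1 < P) (hQ : 1 < Q)
    (hind : ∀ u v : ℕ, 0 < u → P ^ u ≠ Q ^ v) {ε : ℝ} (hε : 0 < ε) :
    ∃ Y : ℝ, ∀ y : ℝ, Y ≤ y → ∃ i j : ℕ, y < (P : ℝ) ^ i * (Q : ℝ) ^ j ∧
      (P : ℝ) ^ i * (Q : ℝ) ^ j ≤ (1 + ε) * y := by
  have hP' : (1 : ℝ) < P := by exact_mod_cast hP
  have hQ' : (1 : ℝ) < Q := by exact_mod_cast hQ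
  have hlP : 0 < Real.log P := Real.log_pos hP'
  have hlQ : 0 < Real.log Q := Real.log_pos hQ'
  set δ := Real.log (1 + ε) with hδ
  have hδ0 : 0 < δ := Real.log_pos (by linarith)
  obtain ⟨N, hN⟩ := exists_nat_gt (Real.log Q / δ)
  have hN0 : 0 < N := by
    have : (0 : ℝ) < N := lt_trans (div_pos hlQ hδ0) hN
    exact_mod_cast this
  obtain ⟨k, hk0, hkN, hk⟩ := Real.exists_nat_abs_mul_sub_round_le (Real.log P / Real.log Q) hN0
  set j : ℤ := round ((k : ℝ) * (Real.log P / Real.log Q)) with hj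
  have hk0' : (0 : ℝ) < k := by exact_mod_cast hk0
  have hjnn : 0 ≤ j := by
    rw [hj, round_eq]
    apply Int.floor_nonneg.mpr
    positivity
  obtain ⟨v, hv⟩ := Int.eq_ofNat_of_zero_le hjnn
  have hbound : |(k : ℝ) * Real.log P - v * Real.log Q| < δ := by
    have h1 : (k : ℝ) * Real.log P - v * Real.log Q =
        ((k : ℝ) * (Real.log P / Real.log Q) - j) * Real.log Q := by
      rw [hv]; push_cast; field_simp
    rw [h1, abs_mul, abs_of_pos hlQ]
    have h2 : (1 : ℝ) / ((N : ℝ) + 1) * Real.log Q < δ := by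
      rw [div_lt_iff₀ hδ0] at hN
      rw [div_mul_eq_mul_div, one_mul, div_lt_iff₀ (by positivity)]
      nlinarith
    calc _ ≤ 1 / ((N : ℝ) + 1) * Real.log Q := mul_le_mul_of_nonneg_right hk hlQ.le
      _ < δ := h2
  have hPk : (0 : ℝ) < (P : ℝ) ^ k := by positivity
  have hQv : (0 : ℝ) < (Q : ℝ) ^ v := by positivity
  have hlogk : Real.log ((P : ℝ) ^ k) = k * Real.log P := Real.log_pow _ _
  have hlogv : Real.log ((Q : ℝ) ^ v) = v * Real.log Q := Real.log_pow _ _
  have hne : (P : ℝ) ^ k ≠ (Q : ℝ) ^ v := by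
    intro h
    exact hind k v hk0 (by exact_mod_cast h)
  have hexpδ : Real.exp δ = 1 + ε := by rw [hδ, Real.exp_log (by linarith)]
  rcases lt_or_gt_of_ne hne with hlt | hgt
  · -- `P ^ k < Q ^ v`
    have h3 : (Q : ℝ) ^ v ≤ (1 + ε) * (P : ℝ) ^ k := by
      rw [← Real.log_le_log_iff hQv (by positivity), Real.log_mul (by linarith) hPk.ne', hlogk,
        hlogv, ← hδ]
      have := (abs_lt.mp hbound).1
      linarith
    obtain ⟨Y, hY⟩ := between_of_ratio hQ' hP' hlt h3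
    refine ⟨Y, fun y hy => ?_⟩
    obtain ⟨i, j', h4, h5⟩ := hY y hy
    exact ⟨j', i, by rw [mul_comm]; exact h4, by rw [mul_comm]; exact h5⟩
  · have h3 : (P : ℝ) ^ k ≤ (1 + ε) * (Q : ℝ) ^ v := by
      rw [← Real.log_le_log_iff hPk (by positivity), Real.log_mul (by linarith) hQv.ne', hlogk,
        hlogv, ← hδ]
      have := (abs_lt.mp hbound).2
      linarith
    exact between_of_ratio hP' hQ' hgt h3

/-- Powers of different primes are multiplicatively independent. -/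
theorem prime_pow_ind {p q a b : ℕ} (hp : p.Prime) (hq : q.Prime) (hne : p ≠ q) (ha : 0 < a) :
    ∀ u v : ℕ, 0 < u → (p ^ a) ^ u ≠ (q ^ b) ^ v := by
  intro u v hu h
  have h1 : p ∣ (q ^ b) ^ v := by
    rw [← h, ← pow_mul]
    exact dvd_pow_self p (Nat.mul_pos ha hu).ne'
  exact hne ((Nat.prime_dvd_prime_iff_eq hp hq).mp (hp.dvd_of_dvd_pow (hp.dvd_of_dvd_pow h1)))

end Pool.Agent.Helper109
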