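import Pool.Agent.Helper109.OddBase
import Pool.Agent.Helper109.KronBase
import Pool.Agent.Helper109.Units

/-!
# Degrees of irreducible pentanomials in residue classes modulo powers of two
-/

set_option autoImplicit false

namespace Pool.Agent.Helper109

theorem pow_two_pow_form {g : ℤ} (hg : ∃ m, g = 1 + 8 * (2 * m + 1)) (i : ℕ) :
    ∃ m, g ^ (2 ^ i) = 1 + 2 ^ (i + 3) * (2 * m + 1) := by
  induction i with
  | zero => obtain ⟨m, hm⟩ := hg; exact ⟨m, by rw [hm]; norm_num⟩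
  | succ i ih =>
    obtain ⟨m, hm⟩ := ih
    refine ⟨m + 2 ^ (i + 1) * (2 * m + 1) ^ 2, ?_⟩
    rw [pow_succ 2 i, pow_mul, hm]
    ring

/-- Powers of a number congruent to 9 modulo 16. -/
theorem exists_pow_cong {g : ℤ} (hg : ∃ m, g = 1 + 8 * (2 * m + 1)) (K : ℕ) {u : ℤ}
    (hu : (8 : ℤ) ∣ u - 1) : ∃ j : ℕ, (2 : ℤ) ^ K ∣ u - g ^ j := by
  have hodd : ∀ j : ℕ, ∃ m, g ^ j = 2 * m + 1 := by
    intro j
    induction j with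
    | zero => exact ⟨0, by norm_num⟩
    | succ j ih =>
      obtain ⟨m, hm⟩ := ih
      obtain ⟨m', hm'⟩ := hg
      refine ⟨m + (2 * m + 1) * 4 * (2 * m' + 1), ?_⟩
      rw [pow_succ, hm, hm']; ring
  have key : ∀ L : ℕ, ∃ j : ℕ, (2 : ℤ) ^ (L + 3) ∣ u - g ^ j := by
    intro L
    induction L with
    | zero => exact ⟨0, by simpa using hu⟩
    | succ L ih =>
      obtain ⟨j, t, ht⟩ := ih
      rcases Int.even_or_odd' t with ⟨s, hs | hs⟩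
      · refine ⟨j, s, ?_⟩
        rw [ht, hs]; ring
      · obtain ⟨m, hm⟩ := pow_two_pow_form hg L
        obtain ⟨e, he⟩ := hodd j
        refine ⟨j + 2 ^ L, s - e - m * (2 * e + 1), ?_⟩
        rw [pow_add, hm, ← sub_eq_zero]
        have hu' : u = g ^ j + 2 ^ (L + 3) * t := by linear_combination ht
        rw [hu', hs, he]
        ring
  rcases le_total K 3 with h | h
  · exact ⟨0, by
      rw [pow_zero]
      exact (pow_dvd_pow 2 h).trans (by norm_num; exact hu)⟩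
  · obtain ⟨L, rfl⟩ : ∃ L, K = L + 3 := ⟨K - 3, by omega⟩
    exact key L

theorem odd_pow_two_pow {s : ℤ} (hs : Odd s) (K : ℕ) : (2 : ℤ) ^ K ∣ s ^ (2 ^ K) - 1 := by
  induction K with
  | zero => simp
  | succ K ih =>
    rw [pow_succ 2 K (M := ℕ), pow_mul]
    have h1 : (s ^ (2 ^ K)) ^ 2 - 1 = (s ^ (2 ^ K) - 1) * (s ^ (2 ^ K) + 1) := by ring
    rw [h1, pow_succ]
    apply mul_dvd_mul ih
    have : Odd (s ^ (2 ^ K)) := hs.pow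
    exact (this.add_odd (by decide)).two_dvd

/-- Solving `u = g ^ j * s` modulo `2 ^ K`. -/
theorem exists_pow_cong' {g : ℤ} (hg : ∃ m, g = 1 + 8 * (2 * m + 1)) (K : ℕ) {u s : ℤ}
    (hs : Odd s) (hu : (8 : ℤ) ∣ u * s - 1) : ∃ j : ℕ, (2 : ℤ) ^ K ∣ u - g ^ j * s := by
  have hK : 0 < 2 ^ K := by positivity
  have h8 : (8 : ℤ) ∣ s ^ 2 - 1 := by
    obtain ⟨t, ht⟩ := hs
    rcases Int.even_or_odd' t with ⟨r, hr | hr⟩
    · exact ⟨r * (2 * r + 1), by rw [ht, hr]; ring⟩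
    · exact ⟨(r + 1) * (2 * r + 1), by rw [ht, hr]; ring⟩
  -- the inverse of s
  have hinv : (8 : ℤ) ∣ u * s ^ (2 * 2 ^ K - 1) - 1 := by
    have h1 : ∀ e : ℕ, (8 : ℤ) ∣ (s ^ 2) ^ e - 1 := by
      intro e
      have := sub_one_dvd_pow_sub_one (s ^ 2) e
      exact h8.trans this
    obtain ⟨e, he⟩ : ∃ e, 2 * 2 ^ K - 1 = 2 * e + 1 := ⟨2 ^ K - 1, by omega⟩
    rw [he, pow_succ, pow_mul]
    have h2 : u * ((s ^ 2) ^ e * s) - 1 = (u * s) * ((s ^ 2) ^ e - 1) + (u * s - 1) := by ring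
    rw [h2]
    exact dvd_add ((h1 e).mul_left _) hu
  obtain ⟨j, hj⟩ := exists_pow_cong hg K hinv
  refine ⟨j, ?_⟩
  have h3 : (2 : ℤ) ^ K ∣ (s ^ (2 ^ K)) ^ 2 - 1 := by
    have h1 : (s ^ (2 ^ K)) ^ 2 - 1 = (s ^ (2 ^ K) - 1) * (s ^ (2 ^ K) + 1) := by ring
    rw [h1]
    exact (odd_pow_two_pow hs K).mul_right _
  have h4 : s ^ (2 * 2 ^ K - 1) * s = (s ^ (2 ^ K)) ^ 2 := by
    rw [← pow_succ, ← pow_mul]
    congr 1; omega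
  have h5 : u - g ^ j * s = (u * s ^ (2 * 2 ^ K - 1) - g ^ j) * s - u * ((s ^ (2 ^ K)) ^ 2 - 1) := by
    rw [sub_mul, mul_assoc, h4]; ring
  rw [h5]
  exact dvd_sub (hj.mul_right _) (h3.mul_left _)

/-- the semigroup generated by two odd primes, and the degrees in one class -/
theorem class_of_family {m r1 r2 : ℕ} (hm : 0 < m) (hp1 : r1.Prime) (hp2 : r2.Prime)
    (hne : r1 ≠ r2) (ho1 : Odd r1) (ho2 : Odd r2)
    (hPD : ∀ i j : ℕ, PD (m * (r1 ^ i * r2 ^ j))) {K : ℕ} {t : ℤ}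
    (ht : ∃ i j : ℕ, (2 : ℤ) ^ K ∣ t - m * (r1 ^ i * r2 ^ j)) {ε : ℝ} (hε : 0 < ε) :
    ∃ X : ℝ, ∀ x : ℝ, X ≤ x → ∃ n : ℕ, (2 : ℤ) ^ K ∣ t - n ∧ x < n ∧ n ≤ (1 + ε) * x ∧ PD n := by
  obtain ⟨i0, j0, h0⟩ := ht
  have hK : 0 < 2 ^ K := by positivity
  have h1P : 1 < r1 ^ (2 ^ K) := Nat.one_lt_pow hK.ne' hp1.one_lt
  have h1Q : 1 < r2 ^ (2 ^ K) := Nat.one_lt_pow hK.ne' hp2.one_lt
  obtain ⟨Y, hY⟩ := exists_between h1P h1Q (prime_pow_ind hp1 hp2 hne hK) hε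
  set C : ℕ := m * (r1 ^ i0 * r2 ^ j0) with hC
  have hC0 : 0 < C := Nat.mul_pos hm (Nat.mul_pos (Nat.pow_pos hp1.pos) (Nat.pow_pos hp2.pos))
  have hC0' : (0 : ℝ) < C := by exact_mod_cast hC0
  refine ⟨C * Y, fun x hx => ?_⟩
  obtain ⟨i, j, h1, h2⟩ := hY (x / C) (by rw [le_div_iff₀ hC0', mul_comm]; exact hx)
  refine ⟨m * (r1 ^ (i0 + 2 ^ K * i) * r2 ^ (j0 + 2 ^ K * j)), ?_, ?_, ?_, hPD _ _⟩
  · have e1 : ((m * (r1 ^ (i0 + 2 ^ K * i) * r2 ^ (j0 + 2 ^ K * j)) : ℕ) : ℤ) =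
        (m * (r1 ^ i0 * r2 ^ j0)) * ((r1 : ℤ) ^ (2 ^ K)) ^ i * ((r2 : ℤ) ^ (2 ^ K)) ^ j := by
      push_cast
      rw [pow_add, pow_add, pow_mul, pow_mul]; ring
    rw [e1]
    obtain ⟨A, hA⟩ : ∃ A, A = ((r1 : ℤ) ^ (2 ^ K)) ^ i := ⟨_, rfl⟩
    obtain ⟨B, hB⟩ : ∃ B, B = ((r2 : ℤ) ^ (2 ^ K)) ^ j := ⟨_, rfl⟩
    have hA1 : (2 : ℤ) ^ K ∣ A - 1 := by
      rw [hA]
      exact (odd_pow_two_pow (by exact_mod_cast ho1) K).trans (sub_one_dvd_pow_sub_one _ i)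
    have hB1 : (2 : ℤ) ^ K ∣ B - 1 := by
      rw [hB]
      exact (odd_pow_two_pow (by exact_mod_cast ho2) K).trans (sub_one_dvd_pow_sub_one _ j)
    rw [← hA, ← hB]
    have e2 : t - (m * ((r1 : ℤ) ^ i0 * r2 ^ j0)) * A * B =
        (t - m * ((r1 : ℤ) ^ i0 * r2 ^ j0)) - (m * ((r1 : ℤ) ^ i0 * r2 ^ j0)) * (A - 1) * B
        - (m * ((r1 : ℤ) ^ i0 * r2 ^ j0)) * (B - 1) := by ring
    rw [e2]
    exact dvd_sub (dvd_sub h0 ((hA1.mul_left _).mul_right _)) (hB1.mul_left _)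
  · have e1 : ((m * (r1 ^ (i0 + 2 ^ K * i) * r2 ^ (j0 + 2 ^ K * j)) : ℕ) : ℝ) =
        C * (((r1 ^ (2 ^ K) : ℕ) : ℝ) ^ i * ((r2 ^ (2 ^ K) : ℕ) : ℝ) ^ j) := by
      rw [hC]; push_cast
      rw [pow_add, pow_add, pow_mul, pow_mul]; ring
    rw [e1]
    rw [div_lt_iff₀ hC0'] at h1
    rw [mul_comm]; exact h1
  · have e1 : ((m * (r1 ^ (i0 + 2 ^ K * i) * r2 ^ (j0 + 2 ^ K * j)) : ℕ) : ℝ) =
        C * (((r1 ^ (2 ^ K) : ℕ) : ℝ) ^ i * ((r2 ^ (2 ^ K) : ℕ) : ℝ) ^ j) := by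
      rw [hC]; push_cast
      rw [pow_add, pow_add, pow_mul, pow_mul]; ring
    rw [e1]
    calc (C : ℝ) * (((r1 ^ (2 ^ K) : ℕ) : ℝ) ^ i * ((r2 ^ (2 ^ K) : ℕ) : ℝ) ^ j)
        ≤ C * ((1 + ε) * (x / C)) := mul_le_mul_of_nonneg_left h2 hC0'.le
      _ = (1 + ε) * x := by field_simp

end Pool.Agent.Helper109
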