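import Pool.Agent.Helper109.Classes

/-!
# Degrees of irreducible pentanomials in residue classes modulo powers of two: the final form
-/

set_option autoImplicit false

namespace Pool.Agent.Helper109

theorem odd_mod_eight {u : ℤ} (hu : Odd u) : u % 8 = 1 ∨ u % 8 = 3 ∨ u % 8 = 5 ∨ u % 8 = 7 := by
  obtain ⟨t, ht⟩ := hu
  omega

theorem solve35 (K : ℕ) {u : ℤ} (hu : Odd u) :
    ∃ i j : ℕ, (2 : ℤ) ^ K ∣ u - (3 : ℤ) ^ i * 5 ^ j := by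
  have hg : ∃ m : ℤ, (9 : ℤ) = 1 + 8 * (2 * m + 1) := ⟨0, by norm_num⟩
  have h : ∃ e1 e2 : ℕ, (8 : ℤ) ∣ u * (3 ^ e1 * 5 ^ e2) - 1 := by
    rcases odd_mod_eight hu with h | h | h | h
    · exact ⟨0, 0, by norm_num; omega⟩
    · exact ⟨1, 0, by norm_num; omega⟩
    · exact ⟨0, 1, by norm_num; omega⟩
    · exact ⟨1, 1, by norm_num; omega⟩
  obtain ⟨e1, e2, he⟩ := h
  obtain ⟨j, hj⟩ := exists_pow_cong' hg K (u := u) (s := 3 ^ e1 * 5 ^ e2)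
    ((Odd.pow (by decide)).mul (Odd.pow (by decide))) he
  refine ⟨2 * j + e1, e2, ?_⟩
  have : (3 : ℤ) ^ (2 * j + e1) * 5 ^ e2 = 9 ^ j * (3 ^ e1 * 5 ^ e2) := by
    rw [pow_add, pow_mul]; norm_num; ring
  rw [this]; exact hj

theorem solve37 (K : ℕ) {u : ℤ} (hu : Odd u) :
    ∃ i j : ℕ, (2 : ℤ) ^ K ∣ u - 3 * ((3 : ℤ) ^ i * 7 ^ j) := by
  have hg : ∃ m : ℤ, (9 : ℤ) = 1 + 8 * (2 * m + 1) := ⟨0, by norm_num⟩
  have h : ∃ e1 e2 : ℕ, (8 : ℤ) ∣ u * (3 * (3 ^ e1 * 7 ^ e2)) - 1 := by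
    rcases odd_mod_eight hu with h | h | h | h
    · exact ⟨1, 0, by norm_num; omega⟩
    · exact ⟨0, 0, by norm_num; omega⟩
    · exact ⟨0, 1, by norm_num; omega⟩
    · exact ⟨1, 1, by norm_num; omega⟩
  obtain ⟨e1, e2, he⟩ := h
  obtain ⟨j, hj⟩ := exists_pow_cong' hg K (u := u) (s := 3 * (3 ^ e1 * 7 ^ e2))
    (Odd.mul (by decide) ((Odd.pow (by decide)).mul (Odd.pow (by decide)))) he
  refine ⟨2 * j + e1, e2, ?_⟩
  have : 3 * ((3 : ℤ) ^ (2 * j + e1) * 7 ^ e2) = 9 ^ j * (3 * (3 ^ e1 * 7 ^ e2)) := by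
    rw [pow_add, pow_mul]; norm_num; ring
  rw [this]; exact hj

theorem solve15 (K : ℕ) {u : ℤ} (hu : u % 8 = 1 ∨ u % 8 = 7) :
    ∃ i j : ℕ, (2 : ℤ) ^ K ∣ u - 15 * ((7 : ℤ) ^ i * 31 ^ j) := by
  have hg : ∃ m : ℤ, (217 : ℤ) = 1 + 8 * (2 * m + 1) := ⟨13, by norm_num⟩
  have h : ∃ e1 : ℕ, (8 : ℤ) ∣ u * (15 * 7 ^ e1) - 1 := by
    rcases hu with h | h
    · exact ⟨1, by norm_num; omega⟩
    · exact ⟨0, by norm_num; omega⟩
  obtain ⟨e1, he⟩ := h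
  obtain ⟨j, hj⟩ := exists_pow_cong' hg K (u := u) (s := 15 * 7 ^ e1)
    (Odd.mul (by decide) (Odd.pow (by decide))) he
  refine ⟨j + e1, j, ?_⟩
  have : 15 * ((7 : ℤ) ^ (j + e1) * 31 ^ j) = 217 ^ j * (15 * 7 ^ e1) := by
    rw [show (217 : ℤ) = 7 * 31 by norm_num, mul_pow, pow_add]; ring
  rw [this]; exact hj

theorem solve21 (K : ℕ) {u : ℤ} (hu : u % 8 = 3 ∨ u % 8 = 5) :
    ∃ i j : ℕ, (2 : ℤ) ^ K ∣ u - 21 * ((7 : ℤ) ^ i * 127 ^ j) := by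
  have hg : ∃ m : ℤ, (889 : ℤ) = 1 + 8 * (2 * m + 1) := ⟨55, by norm_num⟩
  have h : ∃ e1 : ℕ, (8 : ℤ) ∣ u * (21 * 7 ^ e1) - 1 := by
    rcases hu with h | h
    · exact ⟨1, by norm_num; omega⟩
    · exact ⟨0, by norm_num; omega⟩
  obtain ⟨e1, he⟩ := h
  obtain ⟨j, hj⟩ := exists_pow_cong' hg K (u := u) (s := 21 * 7 ^ e1)
    (Odd.mul (by decide) (Odd.pow (by decide))) he
  refine ⟨j + e1, j, ?_⟩
  have : 21 * ((7 : ℤ) ^ (j + e1) * 127 ^ j) = 889 ^ j * (21 * 7 ^ e1) := by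
    rw [show (889 : ℤ) = 7 * 127 by norm_num, mul_pow, pow_add]; ring
  rw [this]; exact hj

/-- **Irreducible pentanomials in residue classes modulo powers of two.** -/
theorem class_main {a k : ℕ} (ha : ¬ 2 ^ 13 ∣ a) {ε : ℝ} (hε : 0 < ε) :
    ∃ X : ℝ, ∀ x : ℝ, X ≤ x →
      ∃ n : ℕ, n ≡ a [MOD 2 ^ k] ∧ x < n ∧ n ≤ (1 + ε) * x ∧ PD n := by
  have ha0 : a ≠ 0 := by rintro rfl; exact ha (dvd_zero _)
  obtain ⟨v, u, hu, hav⟩ := Nat.exists_eq_two_pow_mul_odd ha0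
  have hv : v < 13 := by
    by_contra h
    push Not at h
    exact ha ((pow_dvd_pow 2 h).trans (by rw [hav]; exact Dvd.intro _ rfl))
  have hu' : Odd (u : ℤ) := by exact_mod_cast hu
  have key : ∀ {m r1 r2 : ℕ}, 0 < m → r1.Prime → r2.Prime → r1 ≠ r2 → Odd r1 → Odd r2 →
      (∀ i j : ℕ, PD (m * (r1 ^ i * r2 ^ j))) →
      (∃ i j : ℕ, (2 : ℤ) ^ k ∣ (2 : ℤ) ^ v * u - m * ((r1 : ℤ) ^ i * (r2 : ℤ) ^ j)) →
      ∃ X : ℝ, ∀ x : ℝ, X ≤ x →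
      ∃ n : ℕ, n ≡ a [MOD 2 ^ k] ∧ x < n ∧ n ≤ (1 + ε) * x ∧ PD n := by
    intro m r1 r2 hm hp1 hp2 hne ho1 ho2 hPD ht
    obtain ⟨X, hX⟩ := class_of_family hm hp1 hp2 hne ho1 ho2 hPD ht hε
    refine ⟨X, fun x hx => ?_⟩
    obtain ⟨n, h1, h2, h3, h4⟩ := hX x hx
    refine ⟨n, ?_, h2, h3, h4⟩
    rw [Nat.modEq_iff_dvd, hav]
    push_cast
    exact h1
  have k35 : (∀ i j : ℕ, PD (2 ^ v * (3 ^ i * 5 ^ j))) → ∃ X : ℝ, ∀ x : ℝ, X ≤ x →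
      ∃ n : ℕ, n ≡ a [MOD 2 ^ k] ∧ x < n ∧ n ≤ (1 + ε) * x ∧ PD n := by
    intro h
    refine key (m := 2 ^ v) (by positivity) Nat.prime_three Nat.prime_five (by norm_num)
      (by decide) (by decide) h ?_
    obtain ⟨i, j, hij⟩ := solve35 k hu'
    refine ⟨i, j, ?_⟩
    have : (2 : ℤ) ^ v * u - ((2 ^ v : ℕ) : ℤ) * (((3 : ℕ) : ℤ) ^ i * ((5 : ℕ) : ℤ) ^ j) =
      2 ^ v * (u - 3 ^ i * 5 ^ j) := by push_cast; ring
    rw [this]
    exact hij.mul_left _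
  interval_cases v
  · -- odd degrees
    rcases odd_mod_eight hu' with h | h | h | h
    · obtain ⟨i, j, hij⟩ := solve15 k (Or.inl h)
      exact key (m := 15) (by norm_num) (by norm_num) (by norm_num) (by norm_num) (by decide)
        (by decide) PD_base15 ⟨i, j, by simpa using hij⟩
    · obtain ⟨i, j, hij⟩ := solve21 k (Or.inl h)
      exact key (m := 21) (by norm_num) (by norm_num) (by norm_num) (by norm_num) (by decide)
        (by decide) PD_base21 ⟨i, j, by simpa using hij⟩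
    · obtain ⟨i, j, hij⟩ := solve21 k (Or.inr h)
      exact key (m := 21) (by norm_num) (by norm_num) (by norm_num) (by norm_num) (by decide)
        (by decide) PD_base21 ⟨i, j, by simpa using hij⟩
    · obtain ⟨i, j, hij⟩ := solve15 k (Or.inr h)
      exact key (m := 15) (by norm_num) (by norm_num) (by norm_num) (by norm_num) (by decide)
        (by decide) PD_base15 ⟨i, j, by simpa using hij⟩
  · obtain ⟨i, j, hij⟩ := solve37 k hu'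
    refine key (m := 6) (by norm_num) (by norm_num) (by norm_num) (by norm_num) (by decide)
        (by decide) PD_base6 ⟨i, j, ?_⟩
    have : (2 : ℤ) ^ 1 * u - ((6 : ℕ) : ℤ) * (((3 : ℕ) : ℤ) ^ i * ((7 : ℕ) : ℤ) ^ j) =
      2 * (u - 3 * (3 ^ i * 7 ^ j)) := by push_cast; ring
    rw [this]
    exact hij.mul_left _
  · exact k35 PD_four'
  · exact k35 kron_3
  · exact k35 kron_4
  · exact k35 kron_5
  · exact k35 kron_6
  · exact k35 kron_7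
  · exact k35 kron_8
  · exact k35 kron_9
  · exact k35 kron_10
  · exact k35 kron_11
  · exact k35 kron_12

end Pool.Agent.Helper109
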