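import Pool.Agent.Helper109.TriMain

/-!
# Irreducible trinomials over the field with four elements
-/

set_option autoImplicit false
set_option linter.style.haveILetI false

namespace Pool.Agent.Helper109

open Polynomial

/-- If no nontrivial automorphism fixes `β`, then `β` is a generator. -/
theorem gen_of_fix' {F K : Type*} [Field F] [Field K] [Algebra F K] [FiniteDimensional F K]
    [IsGalois F K] {β : K} (h : ∀ τ : K ≃ₐ[F] K, τ β = β → τ = 1) :
    IntermediateField.adjoin F {β} = ⊤ := by
  have hfix : (IntermediateField.adjoin F {β}).fixingSubgroup = ⊥ := by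
    rw [eq_bot_iff]
    intro τ hτ
    rw [Subgroup.mem_bot]
    apply h
    rw [IntermediateField.mem_fixingSubgroup_iff] at hτ
    exact hτ β (IntermediateField.mem_adjoin_simple_self F β)
  have := IsGalois.fixedField_fixingSubgroup (IntermediateField.adjoin F {β})
  rw [← this, hfix]
  exact IntermediateField.fixedField_bot

section
variable {K : Type} [Field K] [Fintype K] [Algebra (ZMod 2) K]

/-- a monic trinomial -/
noncomputable def tr (m k : ℕ) (b c : K) : K[X] := X ^ m + C b * X ^ k + C c

theorem natDegree_tr {m k : ℕ} (b c : K) (hkm : k < m) : (tr m k b c).natDegree = m := by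
  unfold tr
  have h1 : (C b * X ^ k + C c : K[X]).natDegree < m := by
    refine lt_of_le_of_lt (natDegree_add_le _ _) ?_
    rw [natDegree_C]
    exact max_lt (lt_of_le_of_lt (natDegree_C_mul_X_pow_le b k) hkm) (by omega)
  rw [add_assoc, natDegree_add_eq_left_of_natDegree_lt]
  · exact natDegree_X_pow m
  · rw [natDegree_X_pow]; exact h1

theorem monic_tr {m k : ℕ} (b c : K) (hkm : k < m) : (tr m k b c).Monic := by
  unfold Monic leadingCoeff
  rw [natDegree_tr b c hkm]
  unfold tr
  rw [coeff_add, coeff_add, coeff_X_pow_self, coeff_C_mul, coeff_X_pow, if_neg (by omega),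
    coeff_C, if_neg (by omega)]
  simp

/-- elements of the field with four elements: roots of `x ^ 2 + x + 1` -/
theorem four_cases [CharP K 2] (hK : Fintype.card K = 4) {x : K} (hx : x ≠ 0) :
    x = 1 ∨ x ^ 2 + x + 1 = 0 := by
  have h := FiniteField.pow_card_sub_one_eq_one x hx
  rw [hK] at h
  have h' : (x - 1) * (x ^ 2 + x + 1) = 0 := by
    have : x ^ 3 = 1 := by simpa using h
    linear_combination this
  rcases mul_eq_zero.mp h' with h1 | h1
  · left; exact sub_eq_zero.mp h1
  · right; exact h1

theorem sub_eq_one_of_omega [CharP K 2] {x y : K} (hx : x ^ 2 + x + 1 = 0) (hy : y ^ 2 + y + 1 = 0)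
    (hne : x ≠ y) : x + y = 1 := by
  have h2 : (2 : K) = 0 := CharTwo.two_eq_zero
  have h : (x - y) * (x + y + 1) = 0 := by linear_combination hx - hy
  rcases mul_eq_zero.mp h with h1 | h1
  · exact absurd (sub_eq_zero.mp h1) hne
  · linear_combination h1 - h2

end

section main
variable {K : Type} [Field K] [Fintype K] [Algebra (ZMod 2) K]

/-- The generator of the extension given by an irreducible trinomial over the field with four
elements generates it over the field with two elements, unless all coefficients are equal
to one. -/
theorem gen_four [CharP K 2] (hK : Fintype.card K = 4) {m k : ℕ} {b c : K} (hk : 0 < k)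
    (hkm : k < m) (hb : b ≠ 0) (hc : c ≠ 0) (h1 : ¬ (b = 1 ∧ c = 1))
    {L : Type} [Field L] [Algebra K L] [Algebra (ZMod 2) L] [IsScalarTower (ZMod 2) K L]
    [FiniteDimensional K L] {α : L} (hgen : IntermediateField.adjoin K {α} = ⊤)
    (hα : α ^ m + algebraMap K L b * α ^ k + algebraMap K L c = 0)
    (hrank : Module.finrank K L = m) :
    (minpoly (ZMod 2) α).natDegree = 2 * m := by
  haveI : Finite L := Module.finite_of_finite K
  haveI : FiniteDimensional (ZMod 2) K := Module.Finite.of_finite
  haveI : FiniteDimensional (ZMod 2) L := Module.Finite.of_finite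
  haveI : CharP L 2 := charP_of_injective_algebraMap (algebraMap K L).injective 2
  have hinj := (algebraMap K L).injective
  have h2 : Module.finrank (ZMod 2) K = 2 := by
    have h3 := Module.card_eq_pow_finrank (K := ZMod 2) (V := K)
    rw [hK, ZMod.card] at h3
    have : (2 : ℕ) ^ 2 = 2 ^ Module.finrank (ZMod 2) K := by rw [← h3]; norm_num
    exact (Nat.pow_right_injective (le_refl 2) this).symm
  have h3 : Module.finrank (ZMod 2) L = 2 * m := by
    rw [← Module.finrank_mul_finrank (ZMod 2) K L, h2, hrank]
  rw [natDegree_minpoly_of_gen, h3]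
  have hα0 : α ≠ 0 := by
    rintro rfl
    rw [zero_pow (by omega), zero_pow (by omega), mul_zero, zero_add, zero_add] at hα
    exact hc (hinj (by rw [hα, map_zero]))
  apply gen_of_fix'
  intro τ hτ
  -- the automorphism on `K`
  have hτK : ∀ x : K, x = 1 ∨ x ^ 2 + x + 1 = 0 →
      τ (algebraMap K L x) = algebraMap K L x ∨
        (x ^ 2 + x + 1 = 0 ∧ τ (algebraMap K L x) = algebraMap K L x + 1) := by
    intro x hx
    rcases hx with hx | hx
    · left; rw [hx, map_one, map_one]
    · have e1 : (algebraMap K L x) ^ 2 + algebraMap K L x + 1 = 0 := by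
        rw [← map_pow, ← map_add, ← map_one (algebraMap K L), ← map_add, hx, map_zero]
      have e2 : (τ (algebraMap K L x)) ^ 2 + τ (algebraMap K L x) + 1 = 0 := by
        rw [← map_pow, ← map_add, ← map_one τ, ← map_add, e1, map_zero]
      by_cases hne : τ (algebraMap K L x) = algebraMap K L x
      · left; exact hne
      · right
        refine ⟨hx, ?_⟩
        have h2 : (2 : L) = 0 := CharTwo.two_eq_zero
        have h : (τ (algebraMap K L x) - algebraMap K L x) *
            (τ (algebraMap K L x) + algebraMap K L x + 1) = 0 := by
          linear_combination e2 - e1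
        rcases mul_eq_zero.mp h with h1 | h1
        · exact absurd (sub_eq_zero.mp h1) hne
        · linear_combination h1 - (algebraMap K L x + 1) * h2
  have hα' : α ^ m + τ (algebraMap K L b) * α ^ k + τ (algebraMap K L c) = 0 := by
    have := congrArg τ hα
    rw [map_add, map_add, map_mul, map_pow, map_pow, map_zero, hτ] at this
    exact this
  have hbc := four_cases hK hb
  have hcc := four_cases hK hc
  have key : τ (algebraMap K L b) = algebraMap K L b ∧ τ (algebraMap K L c) = algebraMap K L c := by
    rcases hτK b hbc with hb1 | ⟨hb1, hb2⟩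
    · refine ⟨hb1, ?_⟩
      rw [hb1] at hα'
      have : τ (algebraMap K L c) = algebraMap K L c := by linear_combination hα' - hα
      exact this
    · exfalso
      rcases hτK c hcc with hc1 | ⟨hc1, hc2⟩
      · rw [hb2, hc1] at hα'
        have : α ^ k = 0 := by linear_combination hα' - hα
        exact pow_ne_zero k hα0 this
      · rw [hb2, hc2] at hα'
        have h4 : α ^ k + 1 = 0 := by linear_combination hα' - hα
        -- degree
        have h5 : aeval α (X ^ k + 1 : K[X]) = 0 := by simp [h4]
        have h6 : (X ^ k + 1 : K[X]).natDegree = k := by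
          rw [show (1 : K[X]) = C 1 from rfl]
          exact natDegree_X_pow_add_C
        have h7 : (X ^ k + 1 : K[X]) ≠ 0 := by
          intro h; rw [h, natDegree_zero] at h6; omega
        have h8 := natDegree_le_of_dvd (minpoly.dvd K α h5) h7
        rw [natDegree_minpoly_of_gen hgen, hrank, h6] at h8
        omega
  -- a coefficient that is not one
  obtain ⟨w, hw, hτw⟩ : ∃ w : K, w ^ 2 + w + 1 = 0 ∧ τ (algebraMap K L w) = algebraMap K L w := by
    by_cases hb1 : b = 1
    · have hc1 : c ≠ 1 := fun h => h1 ⟨hb1, h⟩
      exact ⟨c, hcc.resolve_left hc1, key.2⟩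
    · exact ⟨b, hbc.resolve_left hb1, key.1⟩
  have hfixK : ∀ x : K, τ (algebraMap K L x) = algebraMap K L x := by
    intro x
    rcases eq_or_ne x 0 with rfl | hx
    · rw [map_zero, map_zero]
    rcases four_cases hK hx with hx | hx
    · rw [hx, map_one, map_one]
    · by_cases hxw : x = w
      · rw [hxw]; exact hτw
      · have hs := sub_eq_one_of_omega hx hw hxw
        have hx' : x = 1 - w := by linear_combination hs
        rw [hx', map_sub, map_one, map_sub, map_one, hτw]
  -- conclude
  have hσ : ∀ x : L, τ x = x := by
    let σ : L →ₐ[K] L := { τ.toAlgHom.toRingHom with commutes' := fun x => hfixK x }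
    have hσ1 : σ = AlgHom.id K L := by
      have htop : (⊤ : IntermediateField K L) ≤ ⊤ := le_rfl
      have hint : IsIntegral K α := Algebra.IsIntegral.isIntegral α
      have hadj : Algebra.adjoin K {α} = ⊤ := by
        rw [← IntermediateField.adjoin_simple_toSubalgebra_of_isAlgebraic
          (Algebra.IsAlgebraic.isAlgebraic α), hgen, IntermediateField.top_toSubalgebra]
      apply AlgHom.ext_of_adjoin_eq_top hadj
      intro x hx
      rw [Set.mem_singleton_iff.mp hx]
      exact hτ
    intro x
    have := DFunLike.congr_fun hσ1 x
    exact this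
  ext x
  exact hσ x

end main

end Pool.Agent.Helper109
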