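import Pool.Agent.Helper109.Four

/-!
# Irreducible trinomials over the field with four elements give irreducible pentanomials over the
# field with two elements of twice the degree
-/

set_option autoImplicit false
set_option linter.style.haveILetI false

namespace Pool.Agent.Helper109

open Polynomial

section core
variable {K : Type} [Field K] [Fintype K] [Algebra (ZMod 2) K]

theorem PD_four_core [CharP K 2] (hK : Fintype.card K = 4) {m k : ℕ} {b c : K} (hk : 0 < k)
    (hkm : k < m) (hb : b ≠ 0) (hc : c ≠ 0) (h1 : ¬ (b = 1 ∧ c = 1))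
    {L : Type} [Field L] [Algebra K L] [Algebra (ZMod 2) L] [IsScalarTower (ZMod 2) K L]
    [FiniteDimensional K L] {α : L} (hgen : IntermediateField.adjoin K {α} = ⊤)
    (hα : α ^ m + algebraMap K L b * α ^ k + algebraMap K L c = 0)
    (hrank : Module.finrank K L = m) : PD (2 * m) := by
  haveI : Finite L := Module.finite_of_finite K
  haveI : FiniteDimensional (ZMod 2) L := Module.Finite.of_finite
  haveI : CharP L 2 := charP_of_injective_algebraMap (algebraMap K L).injective 2
  have hdeg := gen_four hK hk hkm hb hc h1 hgen hα hrank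
  have hint : IsIntegral (ZMod 2) α := Algebra.IsIntegral.isIntegral α
  have htwo : (2 : L) = 0 := CharTwo.two_eq_zero
  have hL : ∀ x : K, x ^ 2 + x + 1 = 0 →
      (algebraMap K L x) ^ 2 + algebraMap K L x + 1 = 0 := by
    intro x hx
    rw [← map_pow, ← map_add, ← map_one (algebraMap K L), ← map_add, hx, map_zero]
  have e2 : α ^ (2 * m) = (α ^ m) ^ 2 := by rw [← pow_mul, mul_comm]
  have e3 : α ^ (2 * k) = (α ^ k) ^ 2 := by rw [← pow_mul, mul_comm]
  have e4 : α ^ (m + k) = α ^ m * α ^ k := pow_add _ _ _
  -- the exceptional case `m = 2 k`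
  have hexc : ∀ e : ℕ, (e = 1 ∨ e = 3) → m = 2 * k → α ^ (4 * k) + α ^ (e * k) + 1 = 0 →
      PD (2 * m) := by
    intro e he hm hr
    have hek : e * k < 4 * k := by
      apply Nat.mul_lt_mul_of_pos_right _ hk
      rcases he with rfl | rfl <;> norm_num
    have hek0 : 0 < e * k := by
      apply Nat.mul_pos _ hk
      rcases he with rfl | rfl <;> norm_num
    have hroot : aeval α (X ^ (4 * k) + X ^ (e * k) + 1 : (ZMod 2)[X]) = 0 := by
      simpa using hr
    have hmon : (X ^ (4 * k) + X ^ (e * k) + 1 : (ZMod 2)[X]).Monic := by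
      rw [tri_eq_sp hek0 hek]
      apply monic_sp (n := 4 * k) (by simp)
      intro e' he'
      simp at he'
      rcases he' with h | h | h <;> omega
    have heq : minpoly (ZMod 2) α = X ^ (4 * k) + X ^ (e * k) + 1 := by
      symm
      apply eq_of_monic_of_dvd_of_natDegree_le (minpoly.monic hint) hmon (minpoly.dvd _ _ hroot)
      rw [hdeg, natDegree_tri hek0 hek, hm]
      omega
    have hirr := minpoly.irreducible hint
    rw [heq] at hirr
    have h1 : (X ^ (4 * k) + X ^ (e * k) + 1 : (ZMod 2)[X]) =
        expand (ZMod 2) k (X ^ 4 + X ^ e + 1) := by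
      simp [pow_mul, mul_comm]
    rw [h1] at hirr
    have h4 := PD_exc4 (by omega) (natDegree_tri (by rcases he with rfl | rfl <;> norm_num)
      (by rcases he with rfl | rfl <;> norm_num)) hirr
    rw [hm, ← mul_assoc]
    exact h4
  have hbc := four_cases hK hb
  have hcc := four_cases hK hc
  by_cases hb1 : b = 1
  · -- `b = 1`, `c` is not one
    have hc1 : c ≠ 1 := fun h => h1 ⟨hb1, h⟩
    have hc2 := hL c (hcc.resolve_left hc1)
    rw [hb1, map_one, one_mul] at hα
    have hcv : algebraMap K L c = α ^ m + α ^ k := by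
      linear_combination hα - (α ^ m + α ^ k) * htwo
    rw [hcv] at hc2
    by_cases hm : m = 2 * k
    · apply hexc 1 (Or.inl rfl) hm
      have hmk : α ^ m = (α ^ k) ^ 2 := by rw [hm, ← pow_mul, mul_comm]
      have e5 : α ^ (4 * k) = (α ^ k) ^ 4 := by rw [← pow_mul, mul_comm]
      rw [hmk] at hc2
      rw [e5, one_mul]
      linear_combination hc2 - ((α ^ k) ^ 3 + (α ^ k) ^ 2) * htwo
    · refine PD_of_root (β := α) (n := 2 * m) (a := m) (b := 2 * k) (c := k) (d := 0) hint hdeg
        ?_ ?_ ?_ rfl ?_
      · refine ⟨?_, ?_, ?_, ?_⟩ <;> omega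
      · refine ⟨?_, ?_, ?_⟩ <;> omega
      · refine ⟨?_, ?_, ?_⟩ <;> omega
      · rw [e2, e3]
        linear_combination hc2 - (α ^ m * α ^ k) * htwo
  · have hb2 := hL b (hbc.resolve_left hb1)
    by_cases hc1 : c = 1
    · rw [hc1, map_one] at hα
      -- `α ^ m + 1 = b * α ^ k`
      set B := algebraMap K L b with hB
      refine PD_of_root (β := α) (n := 2 * m) (a := m + k) (b := 2 * k) (c := k) (d := 0) hint hdeg
        ?_ ?_ ?_ rfl ?_
      · refine ⟨?_, ?_, ?_, ?_⟩ <;> omega
      · refine ⟨?_, ?_, ?_⟩ <;> omega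
      · refine ⟨?_, ?_, ?_⟩ <;> omega
      · rw [e2, e3, e4]
        have h5 : B * α ^ k = α ^ m + 1 := by
          linear_combination hα - (α ^ m + 1) * htwo
        have h6 : (B * α ^ k) ^ 2 + (B * α ^ k) * α ^ k + (α ^ k) ^ 2 = 0 := by
          linear_combination (α ^ k) ^ 2 * hb2
        rw [h5] at h6
        linear_combination h6 - α ^ m * htwo
    · have hc2 := hL c (hcc.resolve_left hc1)
      by_cases hbc' : b = c
      · rw [← hbc'] at hα
        set B := algebraMap K L b with hB
        have h5 : B * (α ^ k + 1) = α ^ m := by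
          linear_combination hα - α ^ m * htwo
        have h6 : (B * (α ^ k + 1)) ^ 2 + (B * (α ^ k + 1)) * (α ^ k + 1) + (α ^ k + 1) ^ 2 = 0 := by
          linear_combination (α ^ k + 1) ^ 2 * hb2
        rw [h5] at h6
        by_cases hm : m = 2 * k
        · apply hexc 3 (Or.inr rfl) hm
          have hmk : α ^ m = (α ^ k) ^ 2 := by rw [hm, ← pow_mul, mul_comm]
          have e5 : α ^ (4 * k) = (α ^ k) ^ 4 := by rw [← pow_mul, mul_comm]
          have e6 : α ^ (3 * k) = (α ^ k) ^ 3 := by rw [← pow_mul, mul_comm]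
          rw [hmk] at h6
          rw [e5, e6]
          linear_combination h6 - ((α ^ k) ^ 2 + α ^ k) * htwo
        · refine PD_of_root (β := α) (n := 2 * m) (a := m + k) (b := m) (c := 2 * k) (d := 0) hint
            hdeg ?_ ?_ ?_ rfl ?_
          · refine ⟨?_, ?_, ?_, ?_⟩ <;> omega
          · refine ⟨?_, ?_, ?_⟩ <;> omega
          · refine ⟨?_, ?_, ?_⟩ <;> omega
          · rw [e2, e3, e4]
            linear_combination h6 - α ^ k * htwo
      · -- `1 + b + c = 0`: the trinomial has the root one
        exfalso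
        have hs := sub_eq_one_of_omega (hbc.resolve_left hb1) (hcc.resolve_left hc1) hbc'
        have h2K : (2 : K) = 0 := CharTwo.two_eq_zero
        have hroot : (tr m k b c).IsRoot 1 := by
          unfold tr IsRoot
          simp only [eval_add, eval_pow, eval_X, one_pow, eval_mul, eval_C, mul_one]
          linear_combination hs + h2K
        have hint' : IsIntegral K α := Algebra.IsIntegral.isIntegral α
        have haev : aeval α (tr m k b c) = 0 := by
          unfold tr
          simpa using hα
        have hmp : minpoly K α = tr m k b c := by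
          symm
          apply eq_of_monic_of_dvd_of_natDegree_le (minpoly.monic hint') (monic_tr b c hkm)
            (minpoly.dvd _ _ haev)
          rw [natDegree_minpoly_of_gen hgen, hrank, natDegree_tr b c hkm]
        have hirr : Irreducible (tr m k b c) := by
          rw [← hmp]; exact minpoly.irreducible hint'
        have hd : (tr m k b c).natDegree = 1 := natDegree_eq_of_degree_eq_some
          (degree_eq_one_of_irreducible_of_root hirr hroot)
        rw [natDegree_tr b c hkm] at hd
        omega

/-- A trinomial with all coefficients one that is irreducible over the field with four elements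
is not a polynomial in `X ^ 3`. -/
theorem not_three_dvd [CharP K 2] (hK : Fintype.card K = 4) {m k : ℕ} (hk : 0 < k)
    (hkm : k < m) (h : Irreducible (tr m k (1 : K) 1)) : ¬ (3 ∣ m ∧ 3 ∣ k) := by
  rintro ⟨⟨a, ha⟩, ⟨b, hb⟩⟩
  have hmap : (X ^ m + X ^ k + 1 : (ZMod 2)[X]).map (algebraMap (ZMod 2) K) = tr m k (1 : K) 1 := by
    unfold tr; simp
  have hmon : (X ^ m + X ^ k + 1 : (ZMod 2)[X]).Monic := by
    rw [tri_eq_sp hk hkm]
    apply monic_sp (n := m) (by simp)
    intro e' he'
    simp at he'
    rcases he' with h | h | h <;> omega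
  have hirr : Irreducible (X ^ m + X ^ k + 1 : (ZMod 2)[X]) := by
    apply hmon.irreducible_of_irreducible_map (algebraMap (ZMod 2) K)
    rw [hmap]; exact h
  have hdeg2 : (X ^ m + X ^ k + 1 : (ZMod 2)[X]).natDegree = m := natDegree_tri hk hkm
  -- `m` is odd
  have hodd : ¬ 2 ∣ m := by
    rintro ⟨e, he⟩
    have h1 : (X ^ m + X ^ k + 1 : (ZMod 2)[X]) ∣ X ^ (Nat.card (ZMod 2)) ^ m - X := by
      rw [← hirr.natDegree_dvd_iff_dvd_X_pow_card_pow_sub_X, hdeg2]
    have h2 := Polynomial.map_dvd (algebraMap (ZMod 2) K) h1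
    rw [hmap] at h2
    have h3 : ((X ^ (Nat.card (ZMod 2)) ^ m - X : (ZMod 2)[X]).map (algebraMap (ZMod 2) K)) =
        X ^ (Nat.card K) ^ e - X := by
      rw [Polynomial.map_sub, Polynomial.map_pow, Polynomial.map_X, Nat.card_eq_fintype_card (α := K),
        hK, he, Nat.card_zmod, show (4 : ℕ) = 2 ^ 2 by norm_num, ← pow_mul]
    rw [h3] at h2
    have h4 := h.natDegree_dvd_of_dvd_X_pow_card_pow_sub_X h2
    rw [natDegree_tr _ _ hkm] at h4
    have h5 := Nat.le_of_dvd (by omega) h4
    omega
  have h1 : (X ^ m + X ^ k + 1 : (ZMod 2)[X]) = expand (ZMod 2) 3 (X ^ a + X ^ b + 1) := by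
    rw [ha, hb]; simp [pow_mul]
  rw [h1] at hirr
  have h3 := prime_dvd_of_irr_expand (by norm_num) Nat.prime_three (dvd_refl 3) hirr
  rw [natDegree_tri (by omega) (by omega)] at h3
  have ha2 : ¬ 2 ∣ a := fun h => hodd (by rw [ha]; exact h.mul_left 3)
  obtain ⟨e, he⟩ : ∃ e, a = 2 * e + 1 := ⟨a / 2, by omega⟩
  have h4 : 2 ^ a % 3 = 2 := by
    rw [he, pow_succ, pow_mul, Nat.mul_mod, Nat.pow_mod]
    norm_num
  have h5 : 1 ≤ 2 ^ a := Nat.one_le_two_pow
  omega

/-- **Irreducible trinomials over the field with four elements give irreducible pentanomials over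
the field with two elements.** -/
theorem PD_of_four [CharP K 2] (hK : Fintype.card K = 4) {m k : ℕ} {b c : K} (hk : 0 < k)
    (hkm : k < m) (hb : b ≠ 0) (hc : c ≠ 0) (h : Irreducible (tr m k b c)) : PD (2 * m) := by
  haveI : Fact (Irreducible (tr m k b c)) := ⟨h⟩
  have hne : tr m k b c ≠ 0 := h.ne_zero
  haveI hfd : FiniteDimensional K (AdjoinRoot (tr m k b c)) := (AdjoinRoot.powerBasis hne).finite
  have hrank : Module.finrank K (AdjoinRoot (tr m k b c)) = m := by
    rw [(AdjoinRoot.powerBasis hne).finrank, AdjoinRoot.powerBasis_dim, natDegree_tr b c hkm]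
  have hgen : IntermediateField.adjoin K {AdjoinRoot.root (tr m k b c)} = ⊤ :=
    IntermediateField.adjoin_root_eq_top _
  have hα : (AdjoinRoot.root (tr m k b c)) ^ m +
      algebraMap K (AdjoinRoot (tr m k b c)) b * (AdjoinRoot.root (tr m k b c)) ^ k +
      algebraMap K (AdjoinRoot (tr m k b c)) c = 0 := by
    have h1 : aeval (AdjoinRoot.root (tr m k b c)) (tr m k b c) = 0 := by
      rw [AdjoinRoot.aeval_eq, AdjoinRoot.mk_self]
    conv at h1 => lhs; arg 2; unfold tr
    simpa using h1
  by_cases h1 : b = 1 ∧ c = 1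
  · obtain ⟨rfl, rfl⟩ := h1
    have h3 := not_three_dvd hK hk hkm h
    -- a primitive cube root of unity
    obtain ⟨w, hw0, hw1⟩ : ∃ w : K, w ≠ 0 ∧ w ≠ 1 := by
      classical
      by_contra hcon
      push Not at hcon
      have : (Finset.univ : Finset K) ⊆ {0, 1} := by
        intro x _
        rcases eq_or_ne x 0 with hx | hx
        · simp [hx]
        · simp [hcon x hx]
      have h5 := Finset.card_le_card this
      rw [Finset.card_univ, hK] at h5
      have h6 : ({0, 1} : Finset K).card ≤ 2 := Finset.card_le_two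
      omega
    have hw := (four_cases hK hw0).resolve_left hw1
    have hw3 : w ^ 3 = 1 := by linear_combination (w - 1) * hw
    set L := AdjoinRoot (tr m k (1 : K) 1) with hL
    set α := AdjoinRoot.root (tr m k (1 : K) 1) with hαd
    set W := algebraMap K L w with hWd
    have hW3 : W ^ 3 = 1 := by rw [hWd, ← map_pow, hw3, map_one]
    rw [map_one, one_mul] at hα
    -- the new generator is `W * α`
    have hgen' : IntermediateField.adjoin K {W * α} = ⊤ := by
      rw [eq_top_iff, ← hgen, IntermediateField.adjoin_simple_le_iff]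
      have hmem : W * α ∈ IntermediateField.adjoin K {W * α} :=
        IntermediateField.mem_adjoin_simple_self K _
      have hmem2 : W ^ 2 ∈ IntermediateField.adjoin K {W * α} := by
        rw [hWd, ← map_pow]
        exact IntermediateField.algebraMap_mem _ _
      have := mul_mem hmem2 hmem
      have e : W ^ 2 * (W * α) = α := by linear_combination α * hW3
      rwa [e] at this
    have hmod : ∀ e : ℕ, w ^ e = w ^ (e % 3) := by
      intro e
      conv_lhs => rw [← Nat.div_add_mod e 3, pow_add, pow_mul, hw3, one_pow, one_mul]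
    have hw2 : w ^ 2 ≠ 1 := by
      intro h2
      have : w = 1 := by
        have h4 : w ^ 3 = w := by rw [pow_succ, h2, one_mul]
        rw [← h4, hw3]
      exact hw1 this
    -- the new trinomial: `X ^ m + w ^ (m + 2 k) X ^ k + w ^ m`
    refine PD_four_core hK (b := w ^ (m + 2 * k)) (c := w ^ m) hk hkm (pow_ne_zero _ hw0)
      (pow_ne_zero _ hw0) ?_ hgen' ?_ hrank
    · rintro ⟨e1, e2⟩
      have hm3 : m % 3 = 0 := by
        rw [hmod] at e2
        have : m % 3 < 3 := Nat.mod_lt _ (by norm_num)
        interval_cases hmm : m % 3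
        · rfl
        · rw [pow_one] at e2; exact absurd e2 hw1
        · exact absurd e2 hw2
      have hk3 : k % 3 = 0 := by
        rw [pow_add, e2, one_mul, hmod] at e1
        have : (2 * k) % 3 < 3 := Nat.mod_lt _ (by norm_num)
        interval_cases hkk : (2 * k) % 3
        · omega
        · rw [pow_one] at e1; exact absurd e1 hw1
        · exact absurd e1 hw2
      exact h3 ⟨Nat.dvd_of_mod_eq_zero hm3, Nat.dvd_of_mod_eq_zero hk3⟩
    · have e1 : (W * α) ^ m = W ^ m * α ^ m := mul_pow _ _ _
      have e2 : algebraMap K L (w ^ (m + 2 * k)) * (W * α) ^ k = W ^ m * α ^ k := by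
        rw [map_pow, ← hWd, mul_pow, pow_add, pow_mul]
        have : (W ^ 2) ^ k * W ^ k = 1 := by
          rw [← mul_pow, ← pow_succ, hW3, one_pow]
        calc W ^ m * (W ^ 2) ^ k * (W ^ k * α ^ k) = W ^ m * ((W ^ 2) ^ k * W ^ k) * α ^ k := by ring
          _ = W ^ m * α ^ k := by rw [this, mul_one]
      have e3 : algebraMap K L (w ^ m) = W ^ m := by rw [map_pow]
      rw [e1, e2, e3]
      linear_combination W ^ m * hα
  · exact PD_four_core hK hk hkm hb hc h1 hgen hα hrank

end core

end Pool.Agent.Helper109
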