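import Mathlib

/-!
# Fast arithmetic modulo a sparse polynomial over the field with two elements

Polynomials are packed into natural numbers with `k` bits for every coefficient, so that
multiplication of natural numbers followed by a mask is multiplication of polynomials.
-/

set_option autoImplicit false
set_option linter.unusedSectionVars false

namespace Pool.Agent.Helper109

open Finset

/-- all the bits are in positions divisible by `k` -/
def Msk (k x : ℕ) : Prop := ∀ i, x.testBit i = true → k ∣ i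

section
variable {R : Type*} [CommRing R] [CharP R 2]

/-- the value at `α` of the polynomial packed in `a` -/
noncomputable def EK (k : ℕ) (α : R) (a : ℕ) : R :=
  ∑ i ∈ range (a + 1), if a.testBit (k * i) = true then α ^ i else 0

theorem EK_eq {k : ℕ} (hk : 0 < k) (α : R) {a N : ℕ} (h : a < 2 ^ (k * N)) :
    EK k α a = ∑ i ∈ range N, if a.testBit (k * i) = true then α ^ i else 0 := by
  unfold EK
  have key : ∀ M : ℕ, (∀ i, M ≤ i → a.testBit (k * i) = false) → ∀ L : ℕ,
      ∑ i ∈ range M, (if a.testBit (k * i) = true then α ^ i else 0) =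
      ∑ i ∈ range (M + L), (if a.testBit (k * i) = true then α ^ i else 0) := by
    intro M hM L
    apply sum_subset
    · intro i hi
      rw [mem_range] at *
      omega
    · intro i _ hi
      rw [mem_range, not_lt] at hi
      rw [hM i hi]
      simp
  have h1 : ∀ i, N ≤ i → a.testBit (k * i) = false := by
    intro i hi
    apply Nat.testBit_lt_two_pow
    exact lt_of_lt_of_le h (Nat.pow_le_pow_right (by norm_num) (Nat.mul_le_mul_left k hi))
  have h2 : ∀ i, a + 1 ≤ i → a.testBit (k * i) = false := by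
    intro i hi
    apply Nat.testBit_lt_two_pow
    have h3 : a < 2 ^ a := Nat.lt_two_pow_self
    have h4 : a ≤ k * i := by
      calc a ≤ 1 * i := by omega
        _ ≤ k * i := Nat.mul_le_mul_right i hk
    exact lt_of_lt_of_le h3 (Nat.pow_le_pow_right (by norm_num) h4)
  rw [key (a + 1) h2 N, key N h1 (a + 1), add_comm N (a + 1)]

theorem EK_zero (k : ℕ) (α : R) : EK k α 0 = 0 := by
  unfold EK; simp

theorem EK_xor {k : ℕ} (hk : 0 < k) (α : R) (a b : ℕ) :
    EK k α (a ^^^ b) = EK k α a + EK k α b := by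
  obtain ⟨N, hN⟩ : ∃ N, a < 2 ^ (k * N) ∧ b < 2 ^ (k * N) := by
    refine ⟨a + b, ?_, ?_⟩
    · refine lt_of_lt_of_le (Nat.lt_two_pow_self) (Nat.pow_le_pow_right (by norm_num) ?_)
      calc a ≤ 1 * (a + b) := by omega
        _ ≤ k * (a + b) := Nat.mul_le_mul_right _ hk
    · refine lt_of_lt_of_le (Nat.lt_two_pow_self) (Nat.pow_le_pow_right (by norm_num) ?_)
      calc b ≤ 1 * (a + b) := by omega
        _ ≤ k * (a + b) := Nat.mul_le_mul_right _ hk
  rw [EK_eq hk α (Nat.xor_lt_two_pow hN.1 hN.2), EK_eq hk α hN.1, EK_eq hk α hN.2,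
    ← sum_add_distrib]
  apply sum_congr rfl
  intro i _
  rw [Nat.testBit_xor]
  cases a.testBit (k * i) <;> cases b.testBit (k * i) <;> simp [CharTwo.add_self_eq_zero]

theorem EK_step {k : ℕ} (hk : 0 < k) (α : R) (a : ℕ) :
    EK k α a = (if a % 2 = 1 then 1 else 0) + α * EK k α (a / 2 ^ k) := by
  have h1 : a < 2 ^ (k * (a + 1)) := by
    refine lt_of_lt_of_le (Nat.lt_two_pow_self) (Nat.pow_le_pow_right (by norm_num) ?_)
    calc a ≤ 1 * (a + 1) := by omega
      _ ≤ k * (a + 1) := Nat.mul_le_mul_right _ hk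
  have h2 : a / 2 ^ k < 2 ^ (k * a) := by
    rw [Nat.div_lt_iff_lt_mul (by positivity), ← pow_add]
    exact h1
  rw [EK_eq hk α h1, EK_eq hk α h2, sum_range_succ', mul_sum, add_comm]
  congr 1
  · rw [mul_zero, Nat.testBit_zero, pow_zero]
    by_cases h : a % 2 = 1 <;> simp [h]
  · apply sum_congr rfl
    intro i _
    rw [Nat.testBit_div_two_pow, show k * (i + 1) = k * i + k by ring, mul_ite, mul_zero,
      pow_succ']

theorem EK_shift {k : ℕ} (hk : 0 < k) (α : R) (s a : ℕ) :
    EK k α (a * 2 ^ (k * s)) = α ^ s * EK k α a := by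
  induction s with
  | zero => simp
  | succ s ih =>
    rw [EK_step hk, show k * (s + 1) = k * s + k by ring, pow_add, ← mul_assoc,
      Nat.mul_div_cancel _ (by positivity), ih, if_neg, zero_add, pow_succ]
    · ring
    · obtain ⟨k', rfl⟩ : ∃ k', k = k' + 1 := ⟨k - 1, by omega⟩
      rw [pow_succ, ← mul_assoc]
      omega

theorem EK_one {k : ℕ} (hk : 0 < k) (α : R) : EK k α 1 = 1 := by
  rw [EK_step hk, Nat.div_eq_of_lt (Nat.one_lt_two_pow (by omega)), EK_zero]
  simp

theorem EK_gen {k : ℕ} (hk : 0 < k) (α : R) (s : ℕ) : EK k α (2 ^ (k * s)) = α ^ s := by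
  have := EK_shift hk α s 1
  rwa [one_mul, EK_one hk, mul_one] at this

/-- all the digits are at most `c` -/
def Dig (k c x : ℕ) : Prop := ∀ i, x / (2 ^ k) ^ i % 2 ^ k ≤ c

theorem add_split {B x y : ℕ} (h : x % B + y % B < B) :
    (x + y) / B = x / B + y / B ∧ (x + y) % B = x % B + y % B := by
  have hB : 0 < B := by omega
  constructor
  · exact Nat.add_div_eq_of_add_mod_lt h
  · exact Nat.add_mod_of_add_mod_lt h

theorem Dig.add {k c d x y : ℕ} (hx : Dig k c x) (hy : Dig k d y) (h : c + d < 2 ^ k) :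
    Dig k (c + d) (x + y) := by
  have key : ∀ i, (x + y) / (2 ^ k) ^ i = x / (2 ^ k) ^ i + y / (2 ^ k) ^ i := by
    intro i
    induction i with
    | zero => simp
    | succ i ih =>
      rw [pow_succ, ← Nat.div_div_eq_div_mul, ← Nat.div_div_eq_div_mul,
        ← Nat.div_div_eq_div_mul, ih]
      exact (add_split (by have := hx i; have := hy i; omega)).1
  intro i
  have h1 := hx i
  have h2 := hy i
  rw [key i, (add_split (by omega)).2]
  omega

theorem Dig.mul_pow {k c x : ℕ} (hx : Dig k c x) : Dig k c (2 ^ k * x) := by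
  intro i
  cases i with
  | zero => simp
  | succ i =>
    rw [pow_succ', ← Nat.div_div_eq_div_mul, Nat.mul_div_cancel_left _ (by positivity)]
    exact hx i

theorem Dig.div {k c x : ℕ} (hx : Dig k c x) : Dig k c (x / 2 ^ k) := by
  intro i
  rw [Nat.div_div_eq_div_mul, ← pow_succ']
  exact hx (i + 1)

theorem EK_add {k : ℕ} (hk : 0 < k) (α : R) : ∀ (x y : ℕ) {c d : ℕ}, Dig k c x → Dig k d y →
    c + d < 2 ^ k → EK k α (x + y) = EK k α x + EK k α y := by
  intro x
  induction x using Nat.strong_induction_on with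
  | _ x ih =>
    intro y c d hx hy h
    rcases Nat.eq_zero_or_pos x with h0 | h0
    · subst h0; rw [zero_add, EK_zero, zero_add]
    · have h1 := hx 0
      have h2 := hy 0
      rw [pow_zero, Nat.div_one] at h1 h2
      have hs := add_split (B := 2 ^ k) (x := x) (y := y) (by omega)
      rw [EK_step hk, hs.1, ih (x / 2 ^ k) (Nat.div_lt_self h0 (Nat.one_lt_two_pow (by omega))) _
        hx.div hy.div h, EK_step hk α x, EK_step hk α y]
      have hpar : (if (x + y) % 2 = 1 then (1 : R) else 0) =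
          (if x % 2 = 1 then 1 else 0) + (if y % 2 = 1 then 1 else 0) := by
        rcases Nat.mod_two_eq_zero_or_one x with h3 | h3 <;>
          rcases Nat.mod_two_eq_zero_or_one y with h4 | h4
        · rw [if_neg (by omega), if_neg (by omega), if_neg (by omega), add_zero]
        · rw [if_pos (by omega), if_neg (by omega), if_pos (by omega), zero_add]
        · rw [if_pos (by omega), if_pos (by omega), if_neg (by omega), add_zero]
        · rw [if_neg (by omega), if_pos (by omega), if_pos (by omega), CharTwo.add_self_eq_zero]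
      rw [hpar]
      ring

theorem EK_mul {k : ℕ} (hk : 0 < k) (α : R) {a : ℕ} (ha : Dig k 1 a) :
    ∀ (N b : ℕ), Dig k 1 b → b < 2 ^ (k * N) → N < 2 ^ k →
    Dig k N (a * b) ∧ EK k α (a * b) = EK k α a * EK k α b := by
  intro N
  induction N with
  | zero =>
    intro b _ hb2 _
    have : b = 0 := by simpa using hb2
    subst this
    refine ⟨?_, by rw [mul_zero, EK_zero, mul_zero]⟩
    intro i; simp
  | succ N ih =>
    intro b hb hb2 hN
    have hb' : b / 2 ^ k < 2 ^ (k * N) := by
      rw [Nat.div_lt_iff_lt_mul (by positivity), ← pow_add]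
      exact hb2
    obtain ⟨h1, h2⟩ := ih (b / 2 ^ k) hb.div hb' (by omega)
    have h0 := hb 0
    rw [pow_zero, Nat.div_one] at h0
    have hsplit : a * b = a * (b % 2 ^ k) + 2 ^ k * (a * (b / 2 ^ k)) := by
      conv_lhs => rw [← Nat.mod_add_div b (2 ^ k)]
      ring
    have hd1 : Dig k 1 (a * (b % 2 ^ k)) := by
      have : b % 2 ^ k = 0 ∨ b % 2 ^ k = 1 := by omega
      rcases this with h | h
      · rw [h, mul_zero]; intro i; simp
      · rw [h, mul_one]; exact ha
    have hsum : 1 + N < 2 ^ k := by omega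
    refine ⟨?_, ?_⟩
    · rw [hsplit, add_comm N 1]
      exact hd1.add h1.mul_pow hsum
    · rw [hsplit, EK_add hk α _ _ hd1 h1.mul_pow hsum]
      have e1 : EK k α (2 ^ k * (a * (b / 2 ^ k))) = α * (EK k α a * EK k α (b / 2 ^ k)) := by
        have := EK_shift hk α 1 (a * (b / 2 ^ k))
        rw [mul_one, pow_one, h2] at this
        rw [← this, mul_comm]
      have e2 : EK k α (a * (b % 2 ^ k)) = EK k α a * (if b % 2 = 1 then 1 else 0) := by
        have hmod : b % 2 ^ k % 2 = b % 2 := Nat.mod_mod_of_dvd _ (dvd_pow_self 2 (by omega))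
        have : b % 2 ^ k = 0 ∨ b % 2 ^ k = 1 := by omega
        rcases this with h | h
        · rw [h, mul_zero, EK_zero, if_neg (by rw [h] at hmod; omega), mul_zero]
        · rw [h, mul_one, if_pos (by rw [h] at hmod; omega), mul_one]
      rw [e1, e2, EK_step hk α b]
      ring

end

theorem Msk.dig {k x : ℕ} (h : Msk k x) : Dig k 1 x := by
  intro i
  have h1 : x / (2 ^ k) ^ i % 2 ^ k = (x / (2 ^ k) ^ i % 2 ^ k) % 2 ^ 1 := by
    apply Nat.eq_of_testBit_eq
    intro j
    rw [Nat.testBit_mod_two_pow, Nat.testBit_mod_two_pow, Nat.testBit_mod_two_pow, ← pow_mul,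
      Nat.testBit_div_two_pow]
    by_cases hj : j < 1
    · simp [hj]
    · simp only [hj, decide_false, Bool.false_and]
      by_cases hjk : j < k
      · simp only [hjk, decide_true, Bool.true_and]
        by_contra hne
        have ht : x.testBit (j + k * i) = true := by
          cases hx : x.testBit (j + k * i) with
          | true => rfl
          | false => exact absurd hx hne
        have := h _ ht
        have h2 : k ∣ j := (Nat.dvd_add_left (Dvd.intro _ rfl)).mp this
        have := Nat.le_of_dvd (by omega) h2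
        omega
      · simp [hjk]
  rw [h1]
  have := Nat.mod_lt (x / (2 ^ k) ^ i % 2 ^ k) (show 0 < 2 ^ 1 by norm_num)
  omega

theorem Msk.xor {k x y : ℕ} (hx : Msk k x) (hy : Msk k y) : Msk k (x ^^^ y) := by
  intro i hi
  rw [Nat.testBit_xor] at hi
  cases h : x.testBit i with
  | true => exact hx i h
  | false =>
    rw [h, Bool.false_xor] at hi
    exact hy i hi

theorem Msk.mod {k x m : ℕ} (hx : Msk k x) : Msk k (x % 2 ^ m) := by
  intro i hi
  rw [Nat.testBit_mod_two_pow, Bool.and_eq_true] at hi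
  exact hx i hi.2

theorem Msk.divp {k x s : ℕ} (hx : Msk k x) : Msk k (x / 2 ^ (k * s)) := by
  intro i hi
  rw [Nat.testBit_div_two_pow] at hi
  have := hx _ hi
  exact (Nat.dvd_add_left (Dvd.intro _ rfl)).mp this

theorem Msk.mulp {k x s : ℕ} (hx : Msk k x) : Msk k (x * 2 ^ (k * s)) := by
  intro i hi
  rw [mul_comm, Nat.testBit_two_pow_mul, Bool.and_eq_true, decide_eq_true_eq] at hi
  obtain ⟨h1, h2⟩ := hi
  have := hx _ h2
  have h3 : i = (i - k * s) + k * s := by omega
  rw [h3]
  exact dvd_add this (Dvd.intro _ rfl)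

/-- the mask -/
def mkm (k : ℕ) : ℕ → ℕ
  | 0 => 0
  | (N + 1) => mkm k N * 2 ^ k + 1

theorem mkm_testBit {k : ℕ} (hk : 0 < k) (N i : ℕ) :
    (mkm k N).testBit i = true ↔ k ∣ i ∧ i < k * N := by
  induction N generalizing i with
  | zero => simp [mkm]
  | succ N ih =>
    rw [mkm, mul_comm, ]
    have h1 : 1 < 2 ^ k := Nat.one_lt_two_pow (by omega)
    rw [Nat.two_pow_add_eq_or_of_lt h1, Nat.testBit_or, Bool.or_eq_true, Nat.testBit_two_pow_mul,
      Bool.and_eq_true, decide_eq_true_eq, ih]
    constructor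
    · rintro (⟨h2, h3, h4⟩ | h)
      · refine ⟨?_, ?_⟩
        · have : i = (i - k) + k := by omega
          rw [this]; exact dvd_add h3 (dvd_refl k)
        · rw [mul_add, mul_one]; omega
      · have : i = 0 := by
          by_contra hne
          rw [Nat.testBit_one_eq_true_iff_self_eq_zero] at h
          exact hne h
        subst this
        refine ⟨dvd_zero k, ?_⟩
        positivity
    · rintro ⟨h2, h3⟩
      rcases Nat.eq_zero_or_pos i with h | h
      · right; subst h; rfl
      · left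
        have h4 : k ≤ i := Nat.le_of_dvd h h2
        refine ⟨h4, ?_, ?_⟩
        · exact Nat.dvd_sub h2 (dvd_refl k)
        · rw [mul_add, mul_one] at h3; omega

/-- one step of reduction modulo `X ^ n + X ^ a + X ^ b + X ^ c + 1` -/
def redK (k n a b c y : ℕ) : ℕ :=
  (y ^^^ ((y >>> (k * n)) <<< (k * n))) ^^^ ((y >>> (k * n)) ^^^
    (((y >>> (k * n)) <<< (k * a)) ^^^ (((y >>> (k * n)) <<< (k * b)) ^^^
      ((y >>> (k * n)) <<< (k * c)))))

/-- multiplication modulo `X ^ n + X ^ a + X ^ b + X ^ c + 1` -/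
def mulK (k n a b c x y : ℕ) : ℕ :=
  redK k n a b c (redK k n a b c ((x * y) &&& mkm k (2 * n)))

theorem low_part (y m : ℕ) : y ^^^ ((y >>> m) <<< m) = y % 2 ^ m := by
  apply Nat.eq_of_testBit_eq
  intro i
  rw [Nat.testBit_xor, Nat.testBit_shiftLeft, Nat.testBit_shiftRight, Nat.testBit_mod_two_pow]
  by_cases h : i < m
  · have h1 : ¬ m ≤ i := by omega
    simp [h, h1]
  · have h1 : m ≤ i := by omega
    have h2 : m + (i - m) = i := by omega
    simp [h, h1, h2]

/-- the parameters of the arithmetic -/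
structure Par (k n a b c : ℕ) : Prop where
  k0 : 0 < k
  nk : n < 2 ^ k
  ba : b ≤ a
  ca : c ≤ a
  an : 2 * a ≤ n

/-- reduced packed polynomials -/
def Good (k n x : ℕ) : Prop := Msk k x ∧ x < 2 ^ (k * n)

section
variable {k n a b c : ℕ}

theorem Msk.redK {y : ℕ} (hy : Msk k y) : Msk k (redK k n a b c y) := by
  unfold Helper109.redK
  have h : Msk k (y >>> (k * n)) := by rw [Nat.shiftRight_eq_div_pow]; exact hy.divp
  have h' : ∀ s, Msk k ((y >>> (k * n)) <<< (k * s)) := by
    intro s; rw [Nat.shiftLeft_eq]; exact h.mulp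
  exact (hy.xor (h' n)).xor (h.xor ((h' a).xor ((h' b).xor (h' c))))

theorem redK_lt (hba : b ≤ a) (hca : c ≤ a) {y s T : ℕ} (hy : y < 2 ^ (k * (n + s)))
    (hn : n ≤ T) (hs : s + a ≤ T) : redK k n a b c y < 2 ^ (k * T) := by
  unfold redK
  have h : y >>> (k * n) < 2 ^ (k * s) := by
    rw [Nat.shiftRight_eq_div_pow, Nat.div_lt_iff_lt_mul (by positivity), ← pow_add]
    have : k * s + k * n = k * (n + s) := by ring
    rw [this]; exact hy
  have h' : ∀ e, e ≤ a → (y >>> (k * n)) <<< (k * e) < 2 ^ (k * T) := by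
    intro e he
    rw [Nat.shiftLeft_eq]
    calc (y >>> (k * n)) * 2 ^ (k * e) < 2 ^ (k * s) * 2 ^ (k * e) :=
          Nat.mul_lt_mul_of_pos_right h (by positivity)
      _ = 2 ^ (k * (s + e)) := by rw [← pow_add]; congr 1; ring
      _ ≤ 2 ^ (k * T) :=
          Nat.pow_le_pow_right (by norm_num) (Nat.mul_le_mul_left k (by omega))
  have h0 : y >>> (k * n) < 2 ^ (k * T) :=
    lt_of_lt_of_le h (Nat.pow_le_pow_right (by norm_num) (Nat.mul_le_mul_left k (by omega)))
  have hl : y ^^^ ((y >>> (k * n)) <<< (k * n)) < 2 ^ (k * T) := by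
    rw [low_part]
    exact lt_of_lt_of_le (Nat.mod_lt _ (by positivity))
      (Nat.pow_le_pow_right (by norm_num) (Nat.mul_le_mul_left k (by omega)))
  exact Nat.xor_lt_two_pow hl (Nat.xor_lt_two_pow h0 (Nat.xor_lt_two_pow (h' a le_rfl)
    (Nat.xor_lt_two_pow (h' b hba) (h' c hca))))

theorem mulK_good (P : Par k n a b c) {x y : ℕ} (hx : x < 2 ^ (k * n))
    (hy : y < 2 ^ (k * n)) : Good k n (mulK k n a b c x y) := by
  unfold mulK
  have hm : Msk k ((x * y) &&& mkm k (2 * n)) := by
    intro i hi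
    rw [Nat.testBit_and, Bool.and_eq_true] at hi
    exact ((mkm_testBit P.k0 _ _).mp hi.2).1
  refine ⟨hm.redK.redK, ?_⟩
  have h1 : (x * y) &&& mkm k (2 * n) < 2 ^ (k * (n + n)) := by
    apply lt_of_le_of_lt Nat.and_le_left
    calc x * y < 2 ^ (k * n) * 2 ^ (k * n) := Nat.mul_lt_mul'' hx hy
      _ = 2 ^ (k * (n + n)) := by rw [← pow_add]; congr 1; ring
  have h2 := redK_lt (T := n + a) P.ba P.ca h1 (by omega) (by omega)
  have := P.an
  exact redK_lt (s := a) (T := n) P.ba P.ca h2 le_rfl (by omega)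

section
variable {R : Type*} [CommRing R] [CharP R 2]

theorem EK_redK (hk : 0 < k) {α : R} (hα : α ^ n + α ^ a + α ^ b + α ^ c + 1 = 0) (y : ℕ) :
    EK k α (redK k n a b c y) = EK k α y := by
  unfold redK
  have hs : ∀ s : ℕ, EK k α ((y >>> (k * n)) <<< (k * s)) = α ^ s * EK k α (y >>> (k * n)) := by
    intro s; rw [Nat.shiftLeft_eq]; exact EK_shift hk α s _
  rw [EK_xor hk, EK_xor hk, EK_xor hk, EK_xor hk, EK_xor hk, hs, hs, hs, hs]
  linear_combination (EK k α (y >>> (k * n))) * hα

theorem EK_mask (hk : 0 < k) (α : R) {y N : ℕ} (hy : y < 2 ^ (k * N)) :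
    EK k α (y &&& mkm k N) = EK k α y := by
  rw [EK_eq hk α hy, EK_eq hk α (N := N) (lt_of_le_of_lt Nat.and_le_left hy)]
  apply sum_congr rfl
  intro i hi
  rw [mem_range] at hi
  have h1 : (mkm k N).testBit (k * i) = true :=
    (mkm_testBit hk _ _).mpr ⟨Dvd.intro _ rfl, Nat.mul_lt_mul_of_pos_left hi hk⟩
  rw [Nat.testBit_and, h1, Bool.and_true]

theorem EK_mulK (P : Par k n a b c) {α : R} (hα : α ^ n + α ^ a + α ^ b + α ^ c + 1 = 0)
    {x y : ℕ} (hx : Good k n x) (hy : Good k n y) :
    EK k α (mulK k n a b c x y) = EK k α x * EK k α y := by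
  unfold mulK
  have h1 : x * y < 2 ^ (k * (2 * n)) := by
    calc x * y < 2 ^ (k * n) * 2 ^ (k * n) := Nat.mul_lt_mul'' hx.2 hy.2
      _ = 2 ^ (k * (2 * n)) := by rw [← pow_add]; congr 1; ring
  rw [EK_redK P.k0 hα, EK_redK P.k0 hα, EK_mask P.k0 α h1]
  exact (EK_mul P.k0 α hx.1.dig n y hy.1.dig hy.2 P.nk).2

end

/-- `2 ^ j` squarings; the test forces the kernel to evaluate the intermediate results -/
def itK (k n a b c : ℕ) : ℕ → ℕ → ℕ
  | 0, s => mulK k n a b c s s
  | (j + 1), s => bif Nat.beq (itK k n a b c j s) 0 then 0 else itK k n a b c j (itK k n a b c j s)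

theorem itK_good (P : Par k n a b c) (j : ℕ) : ∀ {s : ℕ}, Good k n s → Good k n (itK k n a b c j s) := by
  induction j with
  | zero => intro s hs; exact mulK_good P hs.2 hs.2
  | succ j ih =>
    intro s hs
    rw [itK]
    cases Nat.beq (itK k n a b c j s) 0 with
    | true =>
      rw [cond_true]
      exact ⟨fun i hi => by simp at hi, by positivity⟩
    | false =>
      rw [cond_false]
      exact ih (ih hs)

theorem EK_itK {R : Type*} [CommRing R] [CharP R 2] (P : Par k n a b c) {α : R}
    (hα : α ^ n + α ^ a + α ^ b + α ^ c + 1 = 0) (j : ℕ) : ∀ {s : ℕ}, Good k n s →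
    EK k α (itK k n a b c j s) = (EK k α s) ^ (2 ^ (2 ^ j)) := by
  induction j with
  | zero =>
    intro s hs
    rw [itK, EK_mulK P hα hs hs]
    norm_num
    ring
  | succ j ih =>
    intro s hs
    have h1 := ih hs
    have h2 := ih (itK_good P j hs)
    rw [itK]
    cases h : Nat.beq (itK k n a b c j s) 0 with
    | true =>
      rw [cond_true]
      have h3 : itK k n a b c j s = 0 := Nat.eq_of_beq_eq_true h
      rw [h3] at h1
      have e : (2 : ℕ) ^ 2 ^ (j + 1) = 2 ^ 2 ^ j * 2 ^ 2 ^ j := by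
        rw [← pow_add]; congr 1; ring
      rw [e, pow_mul, ← h1, EK_zero, zero_pow (by positivity)]
    | false =>
      rw [cond_false, h2, h1, ← pow_mul]
      congr 1
      rw [← pow_add]; congr 1; ring

end

end Pool.Agent.Helper109
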