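import Pool.Agent.Helper109.Kron
import Pool.Agent.Helper109.Base

/-!
# Certificates for irreducible pentanomials of degree `2 ^ J`
-/

set_option autoImplicit false
set_option linter.style.haveILetI false

namespace Pool.Agent.Helper109

open Polynomial

/-- norm-like powers -/
def nmK (k n a b c o : ℕ) : ℕ → ℕ → ℕ
  | 0, s => s
  | (i + 1), s => mulK k n a b c (nmK k n a b c o i s)
      (itK k n a b c (i + o) (nmK k n a b c o i s))

/-- the exponent computed by `nmK` -/
def ex (o : ℕ) : ℕ → ℕ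
  | 0 => 1
  | (i + 1) => ex o i * (1 + 2 ^ (2 ^ (i + o)))

theorem ex_pos (o i : ℕ) : 0 < ex o i := by
  induction i with
  | zero => exact Nat.one_pos
  | succ i ih => rw [ex]; positivity

theorem ex_mul (o i : ℕ) : ex o i * (2 ^ (2 ^ o) - 1) + 1 = 2 ^ (2 ^ (i + o)) := by
  obtain ⟨q, hq⟩ : ∃ q, 2 ^ (2 ^ o) = q + 1 :=
    ⟨2 ^ (2 ^ o) - 1, by have : 0 < 2 ^ (2 ^ o) := by positivity
                         omega⟩
  rw [hq, Nat.add_sub_cancel]
  induction i with
  | zero => rw [ex, zero_add, one_mul, hq]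
  | succ i ih =>
    have h1 : 2 ^ (2 ^ (i + 1 + o)) = 2 ^ (2 ^ (i + o)) * 2 ^ (2 ^ (i + o)) := by
      rw [← pow_add]; congr 1; ring
    rw [ex, h1, ← ih]
    ring

section
variable {k n a b c : ℕ}

theorem nmK_good (P : Par k n a b c) (o i : ℕ) {s : ℕ} (hs : Good k n s) :
    Good k n (nmK k n a b c o i s) := by
  induction i with
  | zero => exact hs
  | succ i ih => exact mulK_good P ih.2 (itK_good P _ ih).2

theorem EK_nmK {R : Type*} [CommRing R] [CharP R 2] (P : Par k n a b c) {α : R}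
    (hα : α ^ n + α ^ a + α ^ b + α ^ c + 1 = 0) (o i : ℕ) {s : ℕ} (hs : Good k n s) :
    EK k α (nmK k n a b c o i s) = (EK k α s) ^ (ex o i) := by
  induction i with
  | zero => rw [nmK, ex, pow_one]
  | succ i ih =>
    have h1 := nmK_good P o i hs
    rw [nmK, EK_mulK P hα h1 (itK_good P _ h1), EK_itK P hα _ h1, ih, ex, ← pow_mul, ← pow_add]
    congr 1
    ring

theorem Good.xor {x y : ℕ} (hx : Good k n x) (hy : Good k n y) : Good k n (x ^^^ y) :=
  ⟨hx.1.xor hy.1, Nat.xor_lt_two_pow hx.2 hy.2⟩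

theorem good_two_pow (hk : 0 < k) {s : ℕ} (hs : s < n) : Good k n (2 ^ (k * s)) := by
  refine ⟨?_, Nat.pow_lt_pow_right (by norm_num) (Nat.mul_lt_mul_of_pos_left hs hk)⟩
  intro i hi
  rw [Nat.testBit_two_pow] at hi
  have : k * s = i := by simpa using hi
  rw [← this]
  exact Dvd.intro _ rfl

theorem good_gen (hk : 0 < k) (hn : 1 < n) : Good k n (2 ^ k) := by
  have := good_two_pow (k := k) (n := n) hk hn
  rwa [mul_one] at this

theorem good_one (hk : 0 < k) (hn : 0 < n) : Good k n 1 := by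
  have := good_two_pow (k := k) (n := n) hk hn
  rwa [mul_zero, pow_zero] at this

end

/-- A criterion for irreducibility. -/
theorem irr_of_unit {f : (ZMod 2)[X]} {n : ℕ} (hdeg : f.natDegree = n) (hn : n ≠ 0)
    (hs : (AdjoinRoot.root f) ^ (2 ^ n) = AdjoinRoot.root f)
    (hu : ∀ p : ℕ, p.Prime → p ∣ n →
      ∃ u, ((AdjoinRoot.root f) ^ (2 ^ (n / p)) - AdjoinRoot.root f) * u = 1) :
    Irreducible f := by
  have hdvd : f ∣ X ^ (2 ^ n) - X := by
    rw [← AdjoinRoot.mk_eq_zero, map_sub, map_pow, AdjoinRoot.mk_X, hs, sub_self]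
  have hnu : ¬ IsUnit f := by
    intro h
    exact hn (by rw [← hdeg]; exact natDegree_eq_zero_of_isUnit h)
  have hf0 : f ≠ 0 := by
    intro h; rw [h, natDegree_zero] at hdeg; exact hn hdeg.symm
  obtain ⟨g, hg, hgf⟩ := WfDvdMonoid.exists_irreducible_factor hnu hf0
  have hcard : Nat.card (ZMod 2) = 2 := by simp
  have hgn : g.natDegree ∣ n := by
    rw [hg.natDegree_dvd_iff_dvd_X_pow_card_pow_sub_X, hcard]
    exact hgf.trans hdvd
  have hgd : g.natDegree = n := by
    by_contra hne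
    obtain ⟨m, hm⟩ := hgn
    have hm1 : m ≠ 1 := by rintro rfl; rw [mul_one] at hm; exact hne hm.symm
    obtain ⟨p, hp, hpm⟩ := Nat.exists_prime_and_dvd hm1
    obtain ⟨m', rfl⟩ := hpm
    have hpn : p ∣ n := by rw [hm]; exact ⟨g.natDegree * m', by ring⟩
    have hnp : n / p = g.natDegree * m' := by
      rw [hm]
      apply Nat.div_eq_of_eq_mul_left hp.pos; ring
    have hg2 : g ∣ X ^ (2 ^ (n / p)) - X := by
      have := (hg.natDegree_dvd_iff_dvd_X_pow_card_pow_sub_X (n := n / p)).mp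
        (by rw [hnp]; exact Dvd.intro _ rfl)
      rwa [hcard] at this
    obtain ⟨u, hu'⟩ := hu p hp hpn
    obtain ⟨U, rfl⟩ := AdjoinRoot.mk_surjective u
    have h1 : f ∣ (X ^ (2 ^ (n / p)) - X) * U - 1 := by
      rw [← AdjoinRoot.mk_eq_zero, map_sub, map_mul, map_sub, map_pow, AdjoinRoot.mk_X, map_one,
        hu', sub_self]
    have h3 : g ∣ 1 := by
      have h4 := hgf.trans h1
      have h5 : g ∣ (X ^ (2 ^ (n / p)) - X) * U := hg2.mul_right _
      have := dvd_sub h5 h4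
      rwa [sub_sub_cancel] at this
    exact hg.not_isUnit (isUnit_of_dvd_one h3)
  have hassoc : Associated g f := by
    obtain ⟨c, hc⟩ := hgf
    have hc0 : c ≠ 0 := by rintro rfl; rw [mul_zero] at hc; exact hf0 hc
    have hcd : c.natDegree = 0 := by
      have := natDegree_mul hg.ne_zero hc0
      rw [← hc, hdeg, hgd] at this
      omega
    rw [eq_C_of_natDegree_eq_zero hcd] at hc hc0
    have hcu : IsUnit (C (c.coeff 0)) := by
      rw [isUnit_C]
      exact isUnit_iff_ne_zero.mpr (by intro h; apply hc0; rw [h, C_0])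
    rw [hc]
    exact ⟨hcu.unit, rfl⟩
  exact hassoc.irreducible hg

/-- the fifteenth part of the group order, applied to the generator -/
def NK (k J a b c : ℕ) : ℕ := nmK k (2 ^ J) a b c 2 (J - 2) (2 ^ k)

/-- third power -/
def P3 (k n a b c s : ℕ) : ℕ := mulK k n a b c (mulK k n a b c s s) s

/-- fifth power -/
def P5 (k n a b c s : ℕ) : ℕ :=
  mulK k n a b c (mulK k n a b c (mulK k n a b c s s) (mulK k n a b c s s)) s

/-- **The certificate.** -/
theorem PD_of_kron {k J a b c : ℕ} (hJ : 2 ≤ J) (P : Par k (2 ^ J) a b c)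
    (hcb : 0 < c ∧ c < b ∧ b < a)
    (h1 : itK k (2 ^ J) a b c J (2 ^ k) = 2 ^ k)
    (h2 : nmK k (2 ^ J) a b c 0 (J - 1) (itK k (2 ^ J) a b c (J - 1) (2 ^ k) ^^^ 2 ^ k) = 1)
    (h3 : nmK k (2 ^ J) a b c 0 2 (P3 k (2 ^ J) a b c (NK k J a b c) ^^^ 1) = 1)
    (h5 : nmK k (2 ^ J) a b c 0 2 (P5 k (2 ^ J) a b c (NK k J a b c) ^^^ 1) = 1) (i j : ℕ) :
    PD (2 ^ J * (3 ^ i * 5 ^ j)) := by
  set n := 2 ^ J with hn
  have hn4 : 4 ≤ n := by
    rw [hn]
    calc 4 = 2 ^ 2 := by norm_num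
      _ ≤ 2 ^ J := Nat.pow_le_pow_right (by norm_num) hJ
  have han := P.an
  have m1 : n ∉ ({a, b, c, 0} : Finset ℕ) := by simp; omega
  have m2 : a ∉ ({b, c, 0} : Finset ℕ) := by simp; omega
  have m3 : b ∉ ({c, 0} : Finset ℕ) := by simp; omega
  have m4 : c ≠ 0 := by omega
  have hle : ∀ e ∈ ({n, a, b, c, 0} : Finset ℕ), e ≤ n := by
    intro e he
    simp at he
    omega
  have hmem : n ∈ ({n, a, b, c, 0} : Finset ℕ) := by simp
  set f : (ZMod 2)[X] := sp {n, a, b, c, 0} with hf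
  have hdeg : f.natDegree = n := natDegree_sp hmem hle
  have hcard5 : f.support.card = 5 := by rw [hf, support_sp]; exact card5 m1 m2 m3 m4
  haveI : CharP (AdjoinRoot f) 2 := charP_adjoinRoot (f := f) (by rw [hdeg]; omega)
  set α := AdjoinRoot.root f with hα'
  have hα : α ^ n + α ^ a + α ^ b + α ^ c + 1 = 0 := by
    have h0 : aeval α f = 0 := by rw [AdjoinRoot.aeval_eq, AdjoinRoot.mk_self]
    have h00 : aeval α (sp {n, a, b, c, 0}) = α ^ n + α ^ a + α ^ b + α ^ c + 1 := by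
      rw [aeval_sp, sum5 α m1 m2 m3 m4, pow_zero]
    rw [← h00]
    exact h0
  have hgen : Good k n (2 ^ k) := good_gen P.k0 (by omega)
  have hone : Good k n 1 := good_one P.k0 (by omega)
  have eg : EK k α (2 ^ k) = α := by
    have := EK_gen P.k0 α 1
    rwa [mul_one, pow_one] at this
  have e1 : EK k α 1 = 1 := EK_one P.k0 α
  have hfrob : α ^ (2 ^ n) = α := by
    have := EK_itK P hα J hgen
    rw [h1, eg] at this
    exact this.symm
  have hunit : ∃ u, (α ^ (2 ^ (n / 2)) - α) * u = 1 := by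
    have hit := itK_good P (J - 1) hgen
    have hw := EK_nmK P hα 0 (J - 1) (hit.xor hgen)
    rw [h2, e1, EK_xor P.k0, EK_itK P hα _ hgen, eg] at hw
    have hn2 : n / 2 = 2 ^ (J - 1) := by
      rw [hn]
      have : J = (J - 1) + 1 := by omega
      conv_lhs => rw [this, pow_succ]
      simp
    obtain ⟨e, he⟩ : ∃ e, ex 0 (J - 1) = e + 1 := ⟨ex 0 (J - 1) - 1, by
      have := ex_pos 0 (J - 1); omega⟩
    rw [he, pow_succ'] at hw
    refine ⟨(α ^ 2 ^ 2 ^ (J - 1) + α) ^ e, ?_⟩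
    rw [hn2, CharTwo.sub_eq_add]
    exact hw.symm
  have hirr : Irreducible f := by
    apply irr_of_unit hdeg (by omega) hfrob
    intro p hp hpn
    have h2 : p = 2 := (Nat.prime_dvd_prime_iff_eq hp Nat.prime_two).mp (hp.dvd_of_dvd_pow hpn)
    subst h2
    exact hunit
  -- the root is not a third or fifth power
  have hNg : Good k n (NK k J a b c) := nmK_good P 2 (J - 2) hgen
  have hN : EK k α (NK k J a b c) = α ^ (ex 2 (J - 2)) := by
    rw [NK, EK_nmK P hα 2 (J - 2) hgen, eg]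
  have hex : ex 2 (J - 2) * 15 = 2 ^ n - 1 := by
    have := ex_mul 2 (J - 2)
    have h4 : J - 2 + 2 = J := by omega
    rw [h4, ← hn] at this
    norm_num at this
    omega
  haveI : Nontrivial (AdjoinRoot f) := CharP.nontrivial_of_char_ne_one (R := AdjoinRoot f)
    (v := 2) (by norm_num)
  have hP3g : Good k n (P3 k n a b c (NK k J a b c)) :=
    mulK_good P (mulK_good P hNg.2 hNg.2).2 hNg.2
  have hP3 : EK k α (P3 k n a b c (NK k J a b c)) = α ^ (ex 2 (J - 2) * 3) := by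
    rw [P3, EK_mulK P hα (mulK_good P hNg.2 hNg.2) hNg, EK_mulK P hα hNg hNg, hN, pow_mul]
    ring
  have hP5g : Good k n (P5 k n a b c (NK k J a b c)) :=
    mulK_good P (mulK_good P (mulK_good P hNg.2 hNg.2).2 (mulK_good P hNg.2 hNg.2).2).2 hNg.2
  have hP5 : EK k α (P5 k n a b c (NK k J a b c)) = α ^ (ex 2 (J - 2) * 5) := by
    rw [P5, EK_mulK P hα (mulK_good P (mulK_good P hNg.2 hNg.2).2 (mulK_good P hNg.2 hNg.2).2) hNg,
      EK_mulK P hα (mulK_good P hNg.2 hNg.2) (mulK_good P hNg.2 hNg.2), EK_mulK P hα hNg hNg, hN,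
      pow_mul]
    ring
  have hne3 : α ^ (ex 2 (J - 2) * 3) ≠ 1 := by
    intro h
    have hw := EK_nmK P hα 0 2 (hP3g.xor hone)
    rw [h3, e1, EK_xor P.k0, hP3, e1, h, CharTwo.add_self_eq_zero,
      zero_pow (ex_pos 0 2).ne'] at hw
    exact one_ne_zero hw
  have hne5 : α ^ (ex 2 (J - 2) * 5) ≠ 1 := by
    intro h
    have hw := EK_nmK P hα 0 2 (hP5g.xor hone)
    rw [h5, e1, EK_xor P.k0, hP5, e1, h, CharTwo.add_self_eq_zero,
      zero_pow (ex_pos 0 2).ne'] at hw
    exact one_ne_zero hw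
  have hodd : Odd (3 ^ i * 5 ^ j) := (Odd.pow (by decide)).mul (Odd.pow (by decide))
  have hnd : ∀ e : ℕ, α ^ e ≠ 1 → ¬ f ∣ X ^ e - 1 := by
    intro e he hd
    rw [← AdjoinRoot.mk_eq_zero, map_sub, map_pow, AdjoinRoot.mk_X, map_one, sub_eq_zero] at hd
    exact he hd
  have := PD_expand (f := f) (t := 3 ^ i * 5 ^ j) (by positivity) hcard5
    (irr_expand hirr hodd (by
      intro p hp hpt
      rw [hdeg, ← hex]
      rcases (hp.dvd_mul).mp hpt with h | h
      · obtain rfl := prime_of_dvd_pow_three hp h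
        refine ⟨Dvd.intro_left (ex 2 (J - 2) * 5) (by ring), hnd _ ?_⟩
        have : ex 2 (J - 2) * 15 / 3 = ex 2 (J - 2) * 5 := by
          rw [show ex 2 (J - 2) * 15 = ex 2 (J - 2) * 5 * 3 by ring]
          exact Nat.mul_div_cancel _ (by norm_num)
        rw [this]
        exact hne5
      · obtain rfl := prime_of_dvd_pow_five hp h
        refine ⟨Dvd.intro_left (ex 2 (J - 2) * 3) (by ring), hnd _ ?_⟩
        have : ex 2 (J - 2) * 15 / 5 = ex 2 (J - 2) * 3 := by
          rw [show ex 2 (J - 2) * 15 = ex 2 (J - 2) * 3 * 5 by ring]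
          exact Nat.mul_div_cancel _ (by norm_num)
        rw [this]
        exact hne3))
  rwa [hdeg] at this

end Pool.Agent.Helper109
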