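import Pool.Agent.Helper109.Basic
import Pool.Agent.Helper109.Units

/-!
# Pentanomials of every large degree with a large irreducible factor
-/

set_option autoImplicit false
set_option linter.style.haveILetI false

namespace Pool.Agent.Helper109

open Polynomial

/-- The order of two modulo a power of an odd prime. -/
theorem order_dvd {p o : ℕ} (hp : p.Prime) (hp2 : Odd p) (ho : 0 < o)
    (h1 : ∀ d : ℕ, p ∣ 2 ^ d - 1 → o ∣ d) (h2 : p ∣ 2 ^ o - 1) (h3 : ¬ p ^ 2 ∣ 2 ^ o - 1)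
    (b d : ℕ) (h : p ^ (b + 1) ∣ 2 ^ d - 1) : o * p ^ b ∣ d := by
  haveI : Fact p.Prime := ⟨hp⟩
  obtain ⟨c, rfl⟩ := h1 d ((dvd_pow_self p (Nat.succ_ne_zero b)).trans h)
  rcases Nat.eq_zero_or_pos c with rfl | hc
  · simp
  apply Nat.mul_dvd_mul_left
  have hx : 1 < 2 ^ o := Nat.one_lt_two_pow (by omega)
  have hpx : ¬ p ∣ 2 ^ o := by
    intro h4
    have h5 := hp.dvd_of_dvd_pow h4
    have h6 := (Nat.prime_dvd_prime_iff_eq hp Nat.prime_two).mp h5
    rw [h6] at hp2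
    exact absurd hp2 (by decide)
  have hv := padicValNat.pow_sub_pow (p := p) hp2 hx h2 hpx hc.ne'
  rw [one_pow, ← pow_mul] at hv
  have hne1 : 2 ^ o - 1 ≠ 0 := by omega
  have hne2 : 2 ^ (o * c) - 1 ≠ 0 := by
    have : 1 < 2 ^ (o * c) := Nat.one_lt_two_pow (Nat.mul_pos ho hc).ne'
    omega
  have hv1 : padicValNat p (2 ^ o - 1) = 1 := by
    apply le_antisymm
    · by_contra hlt
      push Not at hlt
      exact h3 ((padicValNat_dvd_iff_le hne1).mpr hlt)
    · exact (padicValNat_dvd_iff_le hne1).mp (by rwa [pow_one])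
  have hv2 : b + 1 ≤ padicValNat p (2 ^ (o * c) - 1) := (padicValNat_dvd_iff_le hne2).mp h
  rw [hv, hv1] at hv2
  exact (padicValNat_dvd_iff_le hc.ne').mpr (by omega)

theorem dvd_gcd_pow {p d e : ℕ} (h1 : p ∣ 2 ^ d - 1) (h2 : p ∣ 2 ^ e - 1) :
    p ∣ 2 ^ (Nat.gcd d e) - 1 := by
  rw [← Nat.pow_sub_one_gcd_pow_sub_one]
  exact Nat.dvd_gcd h1 h2

theorem ord_seven (d : ℕ) (h : 7 ∣ 2 ^ d - 1) : 3 ∣ d := by
  have h1 := dvd_gcd_pow h (show 7 ∣ 2 ^ 3 - 1 by norm_num)
  have h2 : Nat.gcd d 3 ∣ 3 := Nat.gcd_dvd_right _ _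
  rcases (Nat.dvd_prime Nat.prime_three).mp h2 with h3 | h3
  · rw [h3] at h1; norm_num at h1
  · rw [← h3]; exact Nat.gcd_dvd_left _ _

theorem prime_1019 : Nat.Prime 1019 := by norm_num

theorem prime_509 : Nat.Prime 509 := by norm_num

theorem ord_1019 (d : ℕ) (h : 1019 ∣ 2 ^ d - 1) : 1018 ∣ d := by
  have h1018 : 1019 ∣ 2 ^ 1018 - 1 := by decide +kernel
  have h1 := dvd_gcd_pow h h1018
  set g := Nat.gcd d 1018 with hg
  have h2 : g ∣ 2 * 509 := Nat.gcd_dvd_right _ _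
  have key : 2 ∣ g ∧ 509 ∣ g := by
    constructor
    · by_contra h3
      have h4 : g ∣ 509 :=
        (Nat.Coprime.dvd_mul_left ((Nat.Prime.coprime_iff_not_dvd Nat.prime_two).mpr h3).symm).mp h2
      have h5 : 1019 ∣ 2 ^ 509 - 1 :=
        h1.trans (Nat.pow_sub_one_dvd_pow_sub_one 2 h4)
      exact absurd h5 (by decide +kernel)
    · by_contra h3
      have h4 : g ∣ 2 :=
        (Nat.Coprime.dvd_mul_right ((Nat.Prime.coprime_iff_not_dvd prime_509).mpr h3).symm).mp h2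
      have h5 : 1019 ∣ 2 ^ 2 - 1 :=
        h1.trans (Nat.pow_sub_one_dvd_pow_sub_one 2 h4)
      exact absurd h5 (by decide)
  have h3 : 1018 ∣ g := by
    have : Nat.Coprime 2 509 := by decide
    exact this.mul_dvd_of_dvd_of_dvd key.1 key.2
  exact h3.trans (Nat.gcd_dvd_left _ _)

/-- The degree of a root of unity over `F_2`. -/
theorem order_dvd_of_minpoly {L : Type*} [Field L] [Algebra (ZMod 2) L] {α : L} (h0 : α ≠ 0)
    (hint : IsIntegral (ZMod 2) α) :
    orderOf α ∣ 2 ^ (minpoly (ZMod 2) α).natDegree - 1 := by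
  haveI : FiniteDimensional (ZMod 2) (IntermediateField.adjoin (ZMod 2) {α}) :=
    IntermediateField.adjoin.finiteDimensional hint
  haveI : Finite (IntermediateField.adjoin (ZMod 2) {α}) := Module.finite_of_finite (ZMod 2)
  haveI : Fintype (IntermediateField.adjoin (ZMod 2) {α}) := Fintype.ofFinite _
  have hcard : Fintype.card (IntermediateField.adjoin (ZMod 2) {α}) =
      2 ^ (minpoly (ZMod 2) α).natDegree := by
    rw [Module.card_eq_pow_finrank (K := ZMod 2), ZMod.card, IntermediateField.adjoin.finrank hint]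
  set g := IntermediateField.AdjoinSimple.gen (ZMod 2) α with hg
  have hgα : algebraMap (IntermediateField.adjoin (ZMod 2) {α}) L g = α :=
    IntermediateField.AdjoinSimple.algebraMap_gen (ZMod 2) α
  have hg0 : g ≠ 0 := by
    intro h
    rw [h, map_zero] at hgα
    exact h0 hgα.symm
  apply orderOf_dvd_of_pow_eq_one
  have h1 := FiniteField.pow_card_sub_one_eq_one g hg0
  have h2 := congrArg (algebraMap (IntermediateField.adjoin (ZMod 2) {α}) L) h1
  rw [map_pow, hgα, map_one, hcard] at h2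
  exact h2

theorem large_degree {L : Type*} [Field L] [Algebra (ZMod 2) L] {α : L} (h0 : α ≠ 0)
    (hint : IsIntegral (ZMod 2) α) {a b : ℕ} (hord : orderOf α = 7 ^ (a + 1) * 1019 ^ (b + 1)) :
    3 * 7 ^ a * (1018 * 1019 ^ b) ≤ (minpoly (ZMod 2) α).natDegree := by
  have h := order_dvd_of_minpoly h0 hint
  rw [hord] at h
  have h7 : 3 * 7 ^ a ∣ (minpoly (ZMod 2) α).natDegree :=
    order_dvd (by norm_num) (by decide) (by norm_num) ord_seven (by norm_num) (by norm_num) a _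
      ((Dvd.intro _ rfl).trans h)
  have h1019 : 1018 * 1019 ^ b ∣ (minpoly (ZMod 2) α).natDegree :=
    order_dvd prime_1019 (by decide) (by norm_num) ord_1019 (by decide +kernel) (by decide +kernel)
      b _ ((Dvd.intro_left _ rfl).trans h)
  have hcop : Nat.Coprime (3 * 7 ^ a) (1018 * 1019 ^ b) := by
    apply Nat.Coprime.mul_left
    · apply Nat.Coprime.mul_right
      · decide
      · exact Nat.Coprime.pow_right b (by norm_num)
    · apply Nat.Coprime.pow_left
      apply Nat.Coprime.mul_right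
      · norm_num
      · exact Nat.Coprime.pow_right b (by norm_num)
  exact Nat.le_of_dvd (minpoly.natDegree_pos hint) (hcop.mul_dvd_of_dvd_of_dvd h7 h1019)

/-- The explicit pentanomials. -/
theorem exists_penta_with_factor {n a b : ℕ} (h1 : 7 ^ (a + 1) * 1019 ^ (b + 1) < n)
    (h2 : n < 7 ^ (a + 1) * 1019 ^ (b + 1) + 7 ^ a * 1019 ^ (b + 1)) :
    ∃ f g : (ZMod 2)[X], f.natDegree = n ∧ f.support.card = 5 ∧ f.coeff 0 = 1 ∧ Irreducible g ∧
      g ∣ f ∧ 3 * 7 ^ a * (1018 * 1019 ^ b) ≤ g.natDegree := by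
  set w := 7 ^ a * 1019 ^ (b + 1) with hw
  have he : 7 ^ (a + 1) * 1019 ^ (b + 1) = 7 * w := by rw [hw, pow_succ]; ring
  have hw0 : 0 < w := by positivity
  rw [he] at h1 h2
  let L := AlgebraicClosure (ZMod 2)
  haveI : CharP L 2 := charP_of_injective_algebraMap (algebraMap (ZMod 2) L).injective 2
  haveI : NeZero ((7 * w : ℕ) : L) := by
    refine ⟨?_⟩
    intro h
    rw [CharP.cast_eq_zero_iff L 2] at h
    rw [← he] at h
    rcases (Nat.prime_two.dvd_mul).mp h with h | h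
    · have := Nat.prime_two.dvd_of_dvd_pow h; revert this; decide
    · have := Nat.prime_two.dvd_of_dvd_pow h; revert this; decide
  obtain ⟨α, hα⟩ := HasEnoughRootsOfUnity.exists_primitiveRoot L (7 * w)
  have hα0 : α ≠ 0 := hα.ne_zero (by omega)
  have hint : IsIntegral (ZMod 2) α := Algebra.IsIntegral.isIntegral α
  have hord : orderOf α = 7 ^ (a + 1) * 1019 ^ (b + 1) := by rw [he]; exact hα.eq_orderOf.symm
  have hy : IsPrimitiveRoot (α ^ w) 7 := hα.pow (by omega) (mul_comm 7 w)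
  have hy7 : (α ^ w) ^ 7 = 1 := hy.pow_eq_one
  have hy1 : α ^ w ≠ 1 := hy.ne_one (by norm_num)
  have htwo : (2 : L) = 0 := CharTwo.two_eq_zero
  have hprod : ((α ^ w) ^ 3 + α ^ w + 1) * ((α ^ w) ^ 3 + (α ^ w) ^ 2 + 1) = 0 := by
    have h3 : (α ^ w - 1) * (((α ^ w) ^ 3 + α ^ w + 1) * ((α ^ w) ^ 3 + (α ^ w) ^ 2 + 1)) = 0 := by
      generalize α ^ w = y at *
      linear_combination hy7 + (y ^ 4 - y ^ 3) * htwo
    rcases mul_eq_zero.mp h3 with h4 | h4
    · exact absurd (sub_eq_zero.mp h4) hy1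
    · exact h4
  have hne : α ^ n = α ^ (n - 7 * w) := by
    have : n = (n - 7 * w) + 7 * w := by omega
    conv_lhs => rw [this, pow_add, hα.pow_eq_one, mul_one]
  obtain ⟨c, hc, hcr⟩ : ∃ c, (c = 1 ∨ c = 2) ∧ α ^ (3 * w) + α ^ (c * w) + 1 = 0 := by
    rcases mul_eq_zero.mp hprod with h | h
    · refine ⟨1, Or.inl rfl, ?_⟩
      rw [mul_comm 3 w, pow_mul, one_mul]; exact h
    · refine ⟨2, Or.inr rfl, ?_⟩
      rw [mul_comm 3 w, mul_comm 2 w, pow_mul α w 3, pow_mul α w 2]; exact h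
  have hcw : w ≤ c * w ∧ c * w ≤ 2 * w := by
    rcases hc with rfl | rfl <;> omega
  have m1 : n ∉ ({n - 7 * w, 3 * w, c * w, 0} : Finset ℕ) := by simp; omega
  have m2 : n - 7 * w ∉ ({3 * w, c * w, 0} : Finset ℕ) := by simp; omega
  have m3 : 3 * w ∉ ({c * w, 0} : Finset ℕ) := by simp; omega
  have m4 : c * w ≠ 0 := by omega
  have hle : ∀ e ∈ ({n, n - 7 * w, 3 * w, c * w, 0} : Finset ℕ), e ≤ n := by
    intro e he
    simp at he
    omega
  have hmem : n ∈ ({n, n - 7 * w, 3 * w, c * w, 0} : Finset ℕ) := by simp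
  refine ⟨sp {n, n - 7 * w, 3 * w, c * w, 0}, minpoly (ZMod 2) α, natDegree_sp hmem hle, ?_, ?_,
    minpoly.irreducible hint, ?_, large_degree hα0 hint hord⟩
  · rw [support_sp]; exact card5 m1 m2 m3 m4
  · rw [coeff_sp, if_pos (by simp)]
  · apply minpoly.dvd
    rw [aeval_sp, sum5 α m1 m2 m3 m4, pow_zero, hne]
    linear_combination hcr + α ^ (n - 7 * w) * htwo

end Pool.Agent.Helper109
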