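import Pool.Agent.Helper109.Large

/-!
# Pentanomials of every large degree with a large irreducible factor: the final form
-/

set_option autoImplicit false

namespace Pool.Agent.Helper109

open Polynomial

theorem large_factor {c : ℝ} (hc : c < 3054 / 7133) :
    ∃ N : ℕ, ∀ n : ℕ, N ≤ n → ∃ f g : (ZMod 2)[X], f.natDegree = n ∧ f.support.card = 5 ∧
      f.coeff 0 = 1 ∧ Irreducible g ∧ g ∣ f ∧ c * n ≤ g.natDegree := by
  obtain ⟨κ, hκ⟩ : ∃ κ : ℝ, κ = 3054 / 7133 := ⟨_, rfl⟩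
  rw [← hκ] at hc
  have hκ1 : κ < 1 := by rw [hκ]; norm_num
  obtain ⟨ε, hε0, hε1, hε2⟩ : ∃ ε : ℝ, 0 < ε ∧ ε ≤ 1 / 16 ∧ ε ≤ (κ - c) / 2 :=
    ⟨min (1 / 16) ((κ - c) / 2), lt_min (by norm_num) (by linarith), min_le_left _ _,
      min_le_right _ _⟩
  have hcε : c * (1 + ε) < κ := by
    rcases le_or_gt c 0 with h | h
    · nlinarith
    · have h1 : c * ε ≤ 1 * ε := mul_le_mul_of_nonneg_right (by linarith) hε0.le
      linarith
  obtain ⟨Y, hY⟩ := exists_between (P := 7) (Q := 1019) (by norm_num) (by norm_num) (by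
    intro u v hu h
    have := prime_pow_ind (p := 7) (q := 1019) (a := 1) (b := 1) (by norm_num) prime_1019
      (by norm_num) (by norm_num) u v hu
    simp only [pow_one] at this
    exact this h) hε0
  obtain ⟨N1, hN1⟩ := exists_nat_gt ((1 + ε) * 7133 * Y + 1)
  obtain ⟨N2, hN2⟩ := exists_nat_gt (κ / (κ - c * (1 + ε)))
  refine ⟨max (max N1 N2) 100, ?_⟩
  intro n hn
  have hn1 : N1 ≤ n := le_trans (le_trans (le_max_left _ _) (le_max_left _ _)) hn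
  have hn2 : N2 ≤ n := le_trans (le_trans (le_max_right _ _) (le_max_left _ _)) hn
  have hn3 : 100 ≤ n := le_trans (le_max_right _ _) hn
  have hn1' : (N1 : ℝ) ≤ n := by exact_mod_cast hn1
  have hn2' : (N2 : ℝ) ≤ n := by exact_mod_cast hn2
  have hn3' : (100 : ℝ) ≤ n := by exact_mod_cast hn3
  set y : ℝ := ((n : ℝ) - 1) / ((1 + ε) * 7133) with hy
  have hpos : 0 < (1 + ε) * 7133 := by positivity
  have hyY : Y ≤ y := by
    rw [hy, le_div_iff₀ hpos]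
    nlinarith
  obtain ⟨i, j, h1, h2⟩ := hY y hyY
  push_cast at h1 h2
  have he : ((7 ^ (i + 1) * 1019 ^ (j + 1) : ℕ) : ℝ) = 7133 * ((7 : ℝ) ^ i * (1019 : ℝ) ^ j) := by
    push_cast; ring
  have hw : ((7 ^ i * 1019 ^ (j + 1) : ℕ) : ℝ) = 1019 * ((7 : ℝ) ^ i * (1019 : ℝ) ^ j) := by
    push_cast; ring
  have hdeg : ((3 * 7 ^ i * (1018 * 1019 ^ j) : ℕ) : ℝ) =
      3054 * ((7 : ℝ) ^ i * (1019 : ℝ) ^ j) := by
    push_cast; ring
  set t : ℝ := (7 : ℝ) ^ i * (1019 : ℝ) ^ j with ht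
  have hy1 : (n : ℝ) - 1 = (1 + ε) * 7133 * y := by rw [hy]; field_simp
  have hup : 7133 * t ≤ (n : ℝ) - 1 := by rw [hy1]; nlinarith
  have hlow : (n : ℝ) - 1 < (1 + ε) * (7133 * t) := by rw [hy1]; nlinarith
  have hup' : 7 ^ (i + 1) * 1019 ^ (j + 1) < n := by
    have : ((7 ^ (i + 1) * 1019 ^ (j + 1) : ℕ) : ℝ) < n := by rw [he]; linarith
    exact_mod_cast this
  have hlow' : n < 7 ^ (i + 1) * 1019 ^ (j + 1) + 7 ^ i * 1019 ^ (j + 1) := by
    have : (n : ℝ) < ((7 ^ (i + 1) * 1019 ^ (j + 1) + 7 ^ i * 1019 ^ (j + 1) : ℕ) : ℝ) := by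
      rw [Nat.cast_add, he, hw]
      have ht0 : 0 < t := by positivity
      nlinarith
    exact_mod_cast this
  obtain ⟨f, g, hf1, hf2, hf3, hg, hgf, hgd⟩ := exists_penta_with_factor hup' hlow'
  refine ⟨f, g, hf1, hf2, hf3, hg, hgf, ?_⟩
  have hgd' : ((3 * 7 ^ i * (1018 * 1019 ^ j) : ℕ) : ℝ) ≤ g.natDegree := by exact_mod_cast hgd
  rw [hdeg] at hgd'
  refine le_trans ?_ hgd'
  have hgap : 0 < κ - c * (1 + ε) := by linarith
  have hn4 : κ < n * (κ - c * (1 + ε)) := by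
    have h3 := lt_of_lt_of_le hN2 hn2'
    rwa [div_lt_iff₀ hgap] at h3
  have hκt : 3054 * t = κ * (7133 * t) := by rw [hκ]; ring
  rw [hκt]
  have h5 : κ * ((n : ℝ) - 1) ≤ κ * ((1 + ε) * (7133 * t)) :=
    mul_le_mul_of_nonneg_left hlow.le (by rw [hκ]; norm_num)
  have h6 : c * n * (1 + ε) ≤ κ * (7133 * t) * (1 + ε) := by nlinarith
  exact le_of_mul_le_mul_right h6 (by linarith)

end Pool.Agent.Helper109
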