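import Pool.Agent.Helper109.Base

/-!
# Families of irreducible pentanomials of degrees not divisible by four
-/

set_option autoImplicit false

namespace Pool.Agent.Helper109

open Polynomial

theorem eq_of_dvd_pow_prime {p q i : ℕ} (hp : p.Prime) (hq : q.Prime) (h : p ∣ q ^ i) : p = q :=
  (Nat.prime_dvd_prime_iff_eq hp hq).mp (hp.dvd_of_dvd_pow h)

theorem PD_base15 (i j : ℕ) : PD (15 * (7 ^ i * 31 ^ j)) := by
  apply PD_of_cert (F := 32791) (by norm_num) (by decide +kernel) (by norm_num) _ (by decide +kernel)
  · exact (Odd.pow (by decide)).mul (Odd.pow (by decide))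
  · intro p hp hpt
    rcases (hp.dvd_mul).mp hpt with h | h
    · obtain rfl := eq_of_dvd_pow_prime hp (by norm_num) h
      exact ⟨by norm_num, 15, 3536, by norm_num, by decide +kernel⟩
    · obtain rfl := eq_of_dvd_pow_prime hp (by norm_num) h
      exact ⟨by norm_num, 15, 7840, by norm_num, by decide +kernel⟩
  · apply irr_of_cert (n := 15) (by norm_num) (by decide +kernel) (by norm_num) (by decide +kernel)
    intro p hp hpt
    have h6 : (15 : ℕ) = 3 * 5 := by norm_num
    rw [h6] at hpt
    rcases (hp.dvd_mul).mp hpt with h | h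
    · obtain rfl := (Nat.prime_dvd_prime_iff_eq hp Nat.prime_three).mp h
      exact ⟨31064, by decide +kernel⟩
    · obtain rfl := (Nat.prime_dvd_prime_iff_eq hp Nat.prime_five).mp h
      exact ⟨15615, by decide +kernel⟩

theorem PD_base21 (i j : ℕ) : PD (21 * (7 ^ i * 127 ^ j)) := by
  apply PD_of_cert (F := 2097191) (by norm_num) (by decide +kernel) (by norm_num) _
    (by decide +kernel)
  · exact (Odd.pow (by decide)).mul (Odd.pow (by decide))
  · intro p hp hpt
    rcases (hp.dvd_mul).mp hpt with h | h
    · obtain rfl := eq_of_dvd_pow_prime hp (by norm_num) h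
      exact ⟨by norm_num, 21, 1177429, by norm_num, by decide +kernel⟩
    · obtain rfl := eq_of_dvd_pow_prime hp (by norm_num) h
      exact ⟨by norm_num, 21, 559362, by norm_num, by decide +kernel⟩
  · apply irr_of_cert (n := 21) (by norm_num) (by decide +kernel) (by norm_num) (by decide +kernel)
    intro p hp hpt
    have h6 : (21 : ℕ) = 3 * 7 := by norm_num
    rw [h6] at hpt
    rcases (hp.dvd_mul).mp hpt with h | h
    · obtain rfl := (Nat.prime_dvd_prime_iff_eq hp Nat.prime_three).mp h
      exact ⟨179491, by decide +kernel⟩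
    · obtain rfl := (Nat.prime_dvd_prime_iff_eq hp (by norm_num)).mp h
      exact ⟨966005, by decide +kernel⟩

theorem PD_base6 (i j : ℕ) : PD (6 * (3 ^ i * 7 ^ j)) := by
  apply PD_of_cert (F := 91) (by norm_num) (by decide +kernel) (by norm_num) _ (by decide +kernel)
  · exact (Odd.pow (by decide)).mul (Odd.pow (by decide))
  · intro p hp hpt
    rcases (hp.dvd_mul).mp hpt with h | h
    · obtain rfl := eq_of_dvd_pow_prime hp (by norm_num) h
      exact ⟨by norm_num, 6, 14, by norm_num, by decide +kernel⟩
    · obtain rfl := eq_of_dvd_pow_prime hp (by norm_num) h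
      exact ⟨by norm_num, 6, 34, by norm_num, by decide +kernel⟩
  · apply irr_of_cert (n := 6) (by norm_num) (by decide +kernel) (by norm_num) (by decide +kernel)
    intro p hp hpt
    have h6 : (6 : ℕ) = 2 * 3 := by norm_num
    rw [h6] at hpt
    rcases (hp.dvd_mul).mp hpt with h | h
    · obtain rfl := (Nat.prime_dvd_prime_iff_eq hp Nat.prime_two).mp h
      exact ⟨22, by decide +kernel⟩
    · obtain rfl := (Nat.prime_dvd_prime_iff_eq hp Nat.prime_three).mp h
      exact ⟨5, by decide +kernel⟩

end Pool.Agent.Helper109
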