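import Pool.Agent.Helper109.TriMain

/-!
# Powers of a root of a primitive trinomial whose minimal polynomials are pentanomials
-/

set_option autoImplicit false
set_option linter.style.haveILetI false

namespace Pool.Agent.Helper109

open Polynomial

/-- `β` is a root of an irreducible pentanomial of degree `n` -/
def PR (n : ℕ) {K : Type} [Field K] [Algebra (ZMod 2) K] (β : K) : Prop :=
  ∃ p : (ZMod 2)[X], p.natDegree = n ∧ p.support.card = 5 ∧ Irreducible p ∧ aeval β p = 0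

theorem PR_of_root {K : Type} [Field K] [Algebra (ZMod 2) K] {β : K} {n a b c : ℕ}
    (hint : IsIntegral (ZMod 2) β) (hdeg : (minpoly (ZMod 2) β).natDegree = n)
    (h0 : 0 < a ∧ 0 < b ∧ 0 < c ∧ 0 < n) (hn : a < n ∧ b < n ∧ c < n)
    (hne : a ≠ b ∧ a ≠ c ∧ b ≠ c)
    (hβ : β ^ n + β ^ a + β ^ b + β ^ c + 1 = 0) : PR n β := by
  have h1 : n ∉ ({a, b, c, 0} : Finset ℕ) := by simp; omega
  have h2 : a ∉ ({b, c, 0} : Finset ℕ) := by simp; omega
  have h3 : b ∉ ({c, 0} : Finset ℕ) := by simp; omega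
  have h4 : c ≠ 0 := by omega
  have hle : ∀ e ∈ ({n, a, b, c, 0} : Finset ℕ), e ≤ n := by
    intro e he
    simp at he
    omega
  have hmem : n ∈ ({n, a, b, c, 0} : Finset ℕ) := by simp
  have hroot : aeval β (sp {n, a, b, c, 0}) = 0 := by
    rw [aeval_sp, sum5 β h1 h2 h3 h4, pow_zero]
    exact hβ
  refine ⟨sp {n, a, b, c, 0}, natDegree_sp hmem hle, ?_, ?_, hroot⟩
  · rw [support_sp]; exact card5 h1 h2 h3 h4
  · have hdvd : minpoly (ZMod 2) β ∣ sp {n, a, b, c, 0} := minpoly.dvd _ _ hroot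
    have heq : minpoly (ZMod 2) β = sp {n, a, b, c, 0} := by
      symm
      apply eq_of_monic_of_dvd_of_natDegree_le (minpoly.monic hint) (monic_sp hmem hle) hdvd
      rw [hdeg, natDegree_sp hmem hle]
    rw [← heq]
    exact minpoly.irreducible hint

section
variable {n k : ℕ} {K : Type} [Field K] [Algebra (ZMod 2) K] {α : K}

theorem TriData.deg_of_coprime (D : TriData n k K α) {s : ℕ} (hs : Nat.Coprime s (2 ^ n - 1)) :
    (minpoly (ZMod 2) (α ^ s)).natDegree = n := by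
  apply D.minpoly_deg
  intro α' h1 h2
  haveI := D.fin
  haveI := D.finK
  haveI : Fintype K := Fintype.ofFinite K
  have hcard : Fintype.card K = 2 ^ n := by
    rw [Module.card_eq_pow_finrank (K := ZMod 2), ZMod.card, D.rank]
  have h0 : α' ≠ 0 := by
    rintro rfl
    rw [eq_comm] at h1
    rcases Nat.eq_zero_or_pos s with h | h
    · rw [h] at hs
      have h3 : 2 ^ n - 1 = 1 := (Nat.coprime_zero_left _).mp hs
      have h4 := FiniteField.pow_card_sub_one_eq_one α D.ne0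
      rw [hcard, h3, pow_one] at h4
      have := D.char
      have h5 := D.eq0
      rw [h4, one_pow, one_pow, CharTwo.add_self_eq_zero, zero_add] at h5
      exact one_ne_zero h5
    · rw [zero_pow h.ne'] at h1
      exact D.ne0 (pow_eq_zero_iff h.ne' |>.mp h1)
  have h3 := FiniteField.pow_card_sub_one_eq_one α D.ne0
  have h4 := FiniteField.pow_card_sub_one_eq_one α' h0
  rw [hcard] at h3 h4
  exact eq_of_pow_coprime D.ne0 h1 (h4.trans h3.symm) hs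

/-- `n ≡ k` modulo `q + 1`, `q = 2 ^ j`. -/
theorem TriData.prEq (D : TriData n k K α) {j q : ℕ} (hj : 1 ≤ j) (hq : q = 2 ^ j)
    (hs : Nat.Coprime (q + 1) (2 ^ n - 1)) (h : (q + 1) ∣ n - k) (hkn : k < n) (hk0 : 0 < k)  :
    PR n (α ^ (q + 1)) := by
  haveI := D.char
  have hq2 : 2 ≤ q := by
    rw [hq]; calc 2 = 2 ^ 1 := by norm_num
      _ ≤ 2 ^ j := Nat.pow_le_pow_right (by norm_num) hj
  obtain ⟨c, hc⟩ := h
  have hc0 : 0 < c := by
    rcases Nat.eq_zero_or_pos c with h | h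
    · rw [h] at hc; omega
    · exact h
  have hqc : c < q * c := by nlinarith
  have e1 : n = k + q * c + c := by
    have : (q + 1) * c = q * c + c := by ring
    omega
  have hdeg := D.deg_of_coprime hs
  refine PR_of_root (β := α ^ (q + 1)) (a := k + q * c) (b := k + c) (c := k)
    (D.int _) hdeg ?_ ?_ ?_ ?_
  · refine ⟨?_, ?_, hk0, by omega⟩ <;> omega
  · refine ⟨?_, ?_, hkn⟩ <;> omega
  · refine ⟨?_, ?_, ?_⟩ <;> omega
  · have h5 := D.eq0
    have h9 : α ^ n + α ^ k = 1 := CharTwo.add_eq_zero.mp h5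
    have h10 : (α ^ n + α ^ k) ^ q = (α ^ n) ^ q + (α ^ k) ^ q := by
      rw [hq]; exact add_pow_char_pow _ _ 2 j
    have h11 : (α ^ n + α ^ k) ^ (q + 1) = 1 := by rw [h9, one_pow]
    rw [pow_succ, h10] at h11
    have g1 : (α ^ (q + 1)) ^ n = (α ^ n) ^ q * α ^ n := by
      rw [← pow_mul, ← pow_mul, ← pow_add]; congr 1; ring
    have g2 : (α ^ (q + 1)) ^ k = (α ^ k) ^ q * α ^ k := by
      rw [← pow_mul, ← pow_mul, ← pow_add]; congr 1; ring
    have g3 : (α ^ (q + 1)) ^ (k + q * c) = (α ^ n) ^ q * α ^ k := by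
      rw [← pow_mul, ← pow_mul, ← pow_add]; congr 1; rw [e1]; ring
    have g4 : (α ^ (q + 1)) ^ (k + c) = (α ^ k) ^ q * α ^ n := by
      rw [← pow_mul, ← pow_mul, ← pow_add]; congr 1; rw [e1]; ring
    rw [g1, g2, g3, g4]
    have h12 : ((α ^ n) ^ q + (α ^ k) ^ q) * (α ^ n + α ^ k) + 1 = 0 := by
      rw [h11]; exact CharTwo.add_self_eq_zero 1
    rw [← h12]; ring

/-- `q + 1` divides `n`. -/
theorem TriData.prN (D : TriData n k K α) {j q a : ℕ} (hj : 1 ≤ j) (hq : q = 2 ^ j)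
    (hs : Nat.Coprime (q + 1) (2 ^ n - 1)) (hn : n = (q + 1) * a) (hkn : k < n) (hk0 : 0 < k)
    (hne1 : k ≠ a) (hne2 : k ≠ q * a) : PR n (α ^ (q + 1)) := by
  haveI := D.char
  have hq2 : 2 ≤ q := by
    rw [hq]; calc 2 = 2 ^ 1 := by norm_num
      _ ≤ 2 ^ j := Nat.pow_le_pow_right (by norm_num) hj
  have ha0 : 0 < a := by
    rcases Nat.eq_zero_or_pos a with h | h
    · rw [h] at hn; omega
    · exact h
  have hqa : a < q * a := by nlinarith
  have e1 : n = q * a + a := by rw [hn]; ring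
  have hdeg := D.deg_of_coprime hs
  refine PR_of_root (β := α ^ (q + 1)) (a := q * a) (b := a) (c := k)
    (D.int _) hdeg ?_ ?_ ?_ ?_
  · refine ⟨?_, ?_, hk0, by omega⟩ <;> omega
  · refine ⟨?_, ?_, hkn⟩ <;> omega
  · refine ⟨?_, ?_, ?_⟩ <;> omega
  · have h5 := D.eq0
    have h9 : α ^ n + 1 = α ^ k := by
      have : (α ^ n + 1) + α ^ k = 0 := by rw [← h5]; ring
      exact CharTwo.add_eq_zero.mp this
    have h10 : (α ^ n + 1) ^ q = (α ^ n) ^ q + 1 ^ q := by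
      rw [hq]; exact add_pow_char_pow _ _ 2 j
    have h11 : (α ^ n + 1) ^ (q + 1) = (α ^ k) ^ (q + 1) := by rw [h9]
    rw [pow_succ, h10, one_pow] at h11
    have g1 : (α ^ (q + 1)) ^ n = (α ^ n) ^ q * α ^ n := by
      rw [← pow_mul, ← pow_mul, ← pow_add]; congr 1; ring
    have g2 : (α ^ (q + 1)) ^ k = (α ^ k) ^ (q + 1) := by
      rw [← pow_mul, ← pow_mul]; congr 1; ring
    have g3 : (α ^ (q + 1)) ^ (q * a) = (α ^ n) ^ q := by
      rw [← pow_mul, ← pow_mul]; congr 1; rw [hn]; ring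
    have g4 : (α ^ (q + 1)) ^ a = α ^ n := by
      rw [← pow_mul]; congr 1; rw [hn]
    rw [g1, g2, g3, g4, ← h11]
    have h12 : ((α ^ n) ^ q + 1) * (α ^ n + 1) + ((α ^ n) ^ q + 1) * (α ^ n + 1) = 0 :=
      CharTwo.add_self_eq_zero _
    rw [← h12]; ring

/-- `q + 1` divides `k`. -/
theorem TriData.prK (D : TriData n k K α) {j q b : ℕ} (hj : 1 ≤ j) (hq : q = 2 ^ j)
    (hs : Nat.Coprime (q + 1) (2 ^ n - 1)) (hk : k = (q + 1) * b) (hkn : k < n) (hk0 : 0 < k) :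
    PR n (α ^ (q + 1)) := by
  haveI := D.char
  have hq2 : 2 ≤ q := by
    rw [hq]; calc 2 = 2 ^ 1 := by norm_num
      _ ≤ 2 ^ j := Nat.pow_le_pow_right (by norm_num) hj
  have hb0 : 0 < b := by
    rcases Nat.eq_zero_or_pos b with h | h
    · rw [h] at hk; omega
    · exact h
  have hqb : b < q * b := by nlinarith
  have e1 : k = q * b + b := by rw [hk]; ring
  have hdeg := D.deg_of_coprime hs
  refine PR_of_root (β := α ^ (q + 1)) (a := q * b) (b := b) (c := k)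
    (D.int _) hdeg ?_ ?_ ?_ ?_
  · refine ⟨?_, ?_, hk0, by omega⟩ <;> omega
  · refine ⟨?_, ?_, hkn⟩ <;> omega
  · refine ⟨?_, ?_, ?_⟩ <;> omega
  · have h5 := D.eq0
    have h9 : α ^ k + 1 = α ^ n := by
      have : (α ^ k + 1) + α ^ n = 0 := by rw [← h5]; ring
      exact CharTwo.add_eq_zero.mp this
    have h10 : (α ^ k + 1) ^ q = (α ^ k) ^ q + 1 ^ q := by
      rw [hq]; exact add_pow_char_pow _ _ 2 j
    have h11 : (α ^ k + 1) ^ (q + 1) = (α ^ n) ^ (q + 1) := by rw [h9]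
    rw [pow_succ, h10, one_pow] at h11
    have g1 : (α ^ (q + 1)) ^ n = (α ^ n) ^ (q + 1) := by
      rw [← pow_mul, ← pow_mul]; congr 1; ring
    have g2 : (α ^ (q + 1)) ^ k = (α ^ k) ^ q * α ^ k := by
      rw [← pow_mul, ← pow_mul, ← pow_add]; congr 1; ring
    have g3 : (α ^ (q + 1)) ^ (q * b) = (α ^ k) ^ q := by
      rw [← pow_mul, ← pow_mul]; congr 1; rw [hk]; ring
    have g4 : (α ^ (q + 1)) ^ b = α ^ k := by
      rw [← pow_mul]; congr 1; rw [hk]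
    rw [g1, g2, g3, g4, ← h11]
    have h12 : ((α ^ k) ^ q + 1) * (α ^ k + 1) + ((α ^ k) ^ q + 1) * (α ^ k + 1) = 0 :=
      CharTwo.add_self_eq_zero _
    rw [← h12]; ring

/-- The case of three different residues modulo five. -/
theorem TriData.pr5 (D : TriData n k K α) (hk0 : 0 < k) (hkn : k < n)
    (hs : Nat.Coprime 5 (2 ^ n - 1))
    (h5n : n % 5 ≠ 0) (h5k : k % 5 ≠ 0) (h5 : n % 5 ≠ k % 5)
    (x1 : n ≠ 2 * k) (x2 : n ≠ 3 * k) (x3 : 2 * n ≠ 3 * k) (x4 : n ≠ 4 * k)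
    (x5 : 3 * n ≠ 4 * k) : PR n (α ^ 5) := by
  haveI := D.char
  have htwo : (2 : K) = 0 := CharTwo.two_eq_zero
  have hdeg := D.deg_of_coprime hs
  have hBA : α ^ k = α ^ n + 1 := by
    have : (α ^ n + 1) + α ^ k = 0 := by rw [← D.eq0]; ring
    exact (CharTwo.add_eq_zero.mp this).symm
  have g1 : ∀ m : ℕ, (α ^ 5) ^ m = (α ^ m) ^ 5 := by
    intro m; rw [← pow_mul, ← pow_mul]; congr 1; ring
  have hdis : (n + k) % 5 = 0 ∨ (3 * n + k) % 5 = 0 ∨ (n + 3 * k) % 5 = 0 := by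
    have hn5 : n % 5 = 1 ∨ n % 5 = 2 ∨ n % 5 = 3 ∨ n % 5 = 4 := by omega
    have hk5 : k % 5 = 1 ∨ k % 5 = 2 ∨ k % 5 = 3 ∨ k % 5 = 4 := by omega
    rcases hn5 with h | h | h | h <;> rcases hk5 with h' | h' | h' | h' <;> omega
  rcases hdis with h | h | h
  · obtain ⟨c, hc⟩ : ∃ c, n + k = 5 * c := ⟨(n + k) / 5, by omega⟩
    refine PR_of_root (β := α ^ 5) (a := k) (b := c) (c := 2 * c)
      (D.int _) hdeg ?_ ?_ ?_ ?_
    · refine ⟨?_, ?_, ?_, ?_⟩ <;> omega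
    · refine ⟨?_, ?_, ?_⟩ <;> omega
    · refine ⟨?_, ?_, ?_⟩ <;> omega
    · have g2 : (α ^ 5) ^ c = α ^ n * α ^ k := by
        rw [← pow_mul, ← pow_add]; congr 1; omega
      have g3 : (α ^ 5) ^ (2 * c) = (α ^ n * α ^ k) ^ 2 := by
        rw [← g2, ← pow_mul (α ^ 5) c 2, mul_comm c 2]
      rw [g3, g2, g1, g1, hBA]
      generalize α ^ n = A
      linear_combination (A ^ 5 + 3 * A ^ 4 + 6 * A ^ 3 + 6 * A ^ 2 + 3 * A + 1) * htwo
  · obtain ⟨u, hu⟩ : ∃ u, 3 * n + k = 5 * u := ⟨(3 * n + k) / 5, by omega⟩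
    obtain ⟨v, hv⟩ : ∃ v, n + 2 * k = 5 * v := ⟨(n + 2 * k) / 5, by omega⟩
    refine PR_of_root (β := α ^ 5) (a := k) (b := u) (c := v)
      (D.int _) hdeg ?_ ?_ ?_ ?_
    · refine ⟨?_, ?_, ?_, ?_⟩ <;> omega
    · refine ⟨?_, ?_, ?_⟩ <;> omega
    · refine ⟨?_, ?_, ?_⟩ <;> omega
    · have g2 : (α ^ 5) ^ u = (α ^ n) ^ 3 * α ^ k := by
        rw [← pow_mul, ← pow_mul, ← pow_add]; congr 1; omega
      have g3 : (α ^ 5) ^ v = α ^ n * (α ^ k) ^ 2 := by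
        rw [← pow_mul, ← pow_mul, ← pow_add]; congr 1; omega
      rw [g3, g2, g1, g1, hBA]
      generalize α ^ n = A
      linear_combination (A ^ 5 + 3 * A ^ 4 + 6 * A ^ 3 + 6 * A ^ 2 + 3 * A + 1) * htwo
  · obtain ⟨u, hu⟩ : ∃ u, n + 3 * k = 5 * u := ⟨(n + 3 * k) / 5, by omega⟩
    obtain ⟨v, hv⟩ : ∃ v, 2 * n + k = 5 * v := ⟨(2 * n + k) / 5, by omega⟩
    refine PR_of_root (β := α ^ 5) (a := k) (b := u) (c := v)
      (D.int _) hdeg ?_ ?_ ?_ ?_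
    · refine ⟨?_, ?_, ?_, ?_⟩ <;> omega
    · refine ⟨?_, ?_, ?_⟩ <;> omega
    · refine ⟨?_, ?_, ?_⟩ <;> omega
    · have g2 : (α ^ 5) ^ u = α ^ n * (α ^ k) ^ 3 := by
        rw [← pow_mul, ← pow_mul, ← pow_add]; congr 1; omega
      have g3 : (α ^ 5) ^ v = (α ^ n) ^ 2 * α ^ k := by
        rw [← pow_mul, ← pow_mul, ← pow_add]; congr 1; omega
      rw [g3, g2, g1, g1, hBA]
      generalize α ^ n = A
      linear_combination (A ^ 5 + 3 * A ^ 4 + 7 * A ^ 3 + 7 * A ^ 2 + 3 * A + 1) * htwo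

/-- The cases modulo seven. -/
theorem TriData.pr7 (D : TriData n k K α) (hk0 : 0 < k) (hkn : k < n)
    (hs : Nat.Coprime 7 (2 ^ n - 1)) (h3 : n % 3 ≠ 0)
    (h7 : (n + k) % 7 = 0 ∨ (n + 5 * k) % 7 = 0 ∨ (5 * n + k) % 7 = 0)
    (x1 : n ≠ 2 * k) (x4 : n ≠ 4 * k) (x5 : 3 * n ≠ 4 * k) : PR n (α ^ 7) := by
  haveI := D.char
  have htwo : (2 : K) = 0 := CharTwo.two_eq_zero
  have hdeg := D.deg_of_coprime hs
  have hBA : α ^ k = α ^ n + 1 := by
    have : (α ^ n + 1) + α ^ k = 0 := by rw [← D.eq0]; ring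
    exact (CharTwo.add_eq_zero.mp this).symm
  have g1 : ∀ m : ℕ, (α ^ 7) ^ m = (α ^ m) ^ 7 := by
    intro m; rw [← pow_mul, ← pow_mul]; congr 1; ring
  rcases h7 with h | h | h
  · obtain ⟨c, hc⟩ : ∃ c, n + k = 7 * c := ⟨(n + k) / 7, by omega⟩
    refine PR_of_root (β := α ^ 7) (a := k) (b := c) (c := 3 * c)
      (D.int _) hdeg ?_ ?_ ?_ ?_
    · refine ⟨?_, ?_, ?_, ?_⟩ <;> omega
    · refine ⟨?_, ?_, ?_⟩ <;> omega
    · refine ⟨?_, ?_, ?_⟩ <;> omega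
    · have g2 : (α ^ 7) ^ c = α ^ n * α ^ k := by
        rw [← pow_mul, ← pow_add]; congr 1; omega
      have g3 : (α ^ 7) ^ (3 * c) = (α ^ n * α ^ k) ^ 3 := by
        rw [← g2, ← pow_mul (α ^ 7) c 3, mul_comm c 3]
      rw [g3, g2, g1, g1, hBA]
      generalize α ^ n = A
      linear_combination (A ^ 7 + 4 * A ^ 6 + 12 * A ^ 5 + 19 * A ^ 4 + 18 * A ^ 3 + 11 * A ^ 2 +
        4 * A + 1) * htwo
  · obtain ⟨u, hu⟩ : ∃ u, n + 5 * k = 7 * u := ⟨(n + 5 * k) / 7, by omega⟩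
    obtain ⟨v, hv⟩ : ∃ v, 3 * n + k = 7 * v := ⟨(3 * n + k) / 7, by omega⟩
    refine PR_of_root (β := α ^ 7) (a := k) (b := u) (c := v)
      (D.int _) hdeg ?_ ?_ ?_ ?_
    · refine ⟨?_, ?_, ?_, ?_⟩ <;> omega
    · refine ⟨?_, ?_, ?_⟩ <;> omega
    · refine ⟨?_, ?_, ?_⟩ <;> omega
    · have g2 : (α ^ 7) ^ u = α ^ n * (α ^ k) ^ 5 := by
        rw [← pow_mul, ← pow_mul, ← pow_add]; congr 1; omega
      have g3 : (α ^ 7) ^ v = (α ^ n) ^ 3 * α ^ k := by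
        rw [← pow_mul, ← pow_mul, ← pow_add]; congr 1; omega
      rw [g3, g2, g1, g1, hBA]
      generalize α ^ n = A
      linear_combination (A ^ 7 + 4 * A ^ 6 + 13 * A ^ 5 + 23 * A ^ 4 + 23 * A ^ 3 + 13 * A ^ 2 +
        4 * A + 1) * htwo
  · obtain ⟨u, hu⟩ : ∃ u, 5 * n + k = 7 * u := ⟨(5 * n + k) / 7, by omega⟩
    obtain ⟨v, hv⟩ : ∃ v, n + 3 * k = 7 * v := ⟨(n + 3 * k) / 7, by omega⟩
    refine PR_of_root (β := α ^ 7) (a := k) (b := u) (c := v)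
      (D.int _) hdeg ?_ ?_ ?_ ?_
    · refine ⟨?_, ?_, ?_, ?_⟩ <;> omega
    · refine ⟨?_, ?_, ?_⟩ <;> omega
    · refine ⟨?_, ?_, ?_⟩ <;> omega
    · have g2 : (α ^ 7) ^ u = (α ^ n) ^ 5 * α ^ k := by
        rw [← pow_mul, ← pow_mul, ← pow_add]; congr 1; omega
      have g3 : (α ^ 7) ^ v = α ^ n * (α ^ k) ^ 3 := by
        rw [← pow_mul, ← pow_mul, ← pow_add]; congr 1; omega
      rw [g3, g2, g1, g1, hBA]
      generalize α ^ n = A
      linear_combination (A ^ 7 + 4 * A ^ 6 + 11 * A ^ 5 + 18 * A ^ 4 + 19 * A ^ 3 + 12 * A ^ 2 +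
        4 * A + 1) * htwo

end

end Pool.Agent.Helper109
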