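import Pool.Agent.Helper109.Prim
import Pool.Agent.Helper109.Large

/-!
# Primitive trinomials and primitive pentanomials of the same degree
-/

set_option autoImplicit false
set_option linter.style.haveILetI false

namespace Pool.Agent.Helper109

open Polynomial

theorem dvd_iff_pow_eq_one {K : Type} [Field K] [Algebra (ZMod 2) K] [CharP K 2] {β : K}
    {p : (ZMod 2)[X]} (hp : Irreducible p) (h0 : aeval β p = 0) (t : ℕ) :
    p ∣ X ^ t + 1 ↔ β ^ t = 1 := by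
  constructor
  · rintro ⟨c, hc⟩
    have h1 : aeval β (X ^ t + 1 : (ZMod 2)[X]) = 0 := by rw [hc, map_mul, h0, zero_mul]
    rw [map_add, map_pow, aeval_X, map_one] at h1
    exact CharTwo.add_eq_zero.mp h1
  · intro h
    have h1 : aeval β (X ^ t + 1 : (ZMod 2)[X]) = 0 := by
      rw [map_add, map_pow, aeval_X, map_one, h]
      exact CharTwo.add_self_eq_zero 1
    exact (Dvd.intro _ (minpoly.eq_of_irreducible hp h0)).trans (minpoly.dvd _ _ h1)

theorem isLeast_iff {K : Type} [Field K] [Algebra (ZMod 2) K] [CharP K 2] {β : K}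
    {p : (ZMod 2)[X]} (hp : Irreducible p) (h0 : aeval β p = 0) {N : ℕ} (hN : 0 < N) :
    IsLeast {t : ℕ | 0 < t ∧ p ∣ X ^ t + 1} N ↔ orderOf β = N := by
  rw [orderOf_eq_iff hN]
  constructor
  · rintro ⟨⟨_, h1⟩, h2⟩
    refine ⟨(dvd_iff_pow_eq_one hp h0 N).mp h1, ?_⟩
    intro m hm1 hm2 h3
    have := h2 ⟨hm2, (dvd_iff_pow_eq_one hp h0 m).mpr h3⟩
    omega
  · rintro ⟨h1, h2⟩
    refine ⟨⟨hN, (dvd_iff_pow_eq_one hp h0 N).mpr h1⟩, ?_⟩
    rintro m ⟨hm1, hm2⟩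
    by_contra h3
    push Not at h3
    exact h2 m h3 hm1 ((dvd_iff_pow_eq_one hp h0 m).mp hm2)

theorem coprime_of_order {p o n : ℕ} (hp : p.Prime) (h1 : p ∣ 2 ^ o - 1)
    (h2 : ∀ d : ℕ, d ∣ o → p ∣ 2 ^ d - 1 → d = o) (hn : ¬ o ∣ n) : Nat.Coprime p (2 ^ n - 1) := by
  rw [Nat.Prime.coprime_iff_not_dvd hp]
  intro h
  have h3 := dvd_gcd_pow h h1
  have h4 := h2 _ (Nat.gcd_dvd_right _ _) h3
  apply hn
  rw [← h4]
  exact Nat.gcd_dvd_left _ _

theorem coprime_five {n : ℕ} (h : ¬ 4 ∣ n) : Nat.Coprime 5 (2 ^ n - 1) := by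
  apply coprime_of_order (o := 4) (by norm_num) (by norm_num) _ h
  intro d hd hd2
  have h1 : d ≤ 4 := Nat.le_of_dvd (by norm_num) hd
  interval_cases d <;> first | rfl | (revert hd2; decide) | (revert hd; decide)

theorem coprime_seven {n : ℕ} (h : ¬ 3 ∣ n) : Nat.Coprime 7 (2 ^ n - 1) := by
  apply coprime_of_order (o := 3) (by norm_num) (by norm_num) _ h
  intro d hd hd2
  have h1 : d ≤ 3 := Nat.le_of_dvd (by norm_num) hd
  interval_cases d <;> first | rfl | (revert hd2; decide) | (revert hd; decide)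

theorem coprime_seventeen {n : ℕ} (h : ¬ 8 ∣ n) : Nat.Coprime 17 (2 ^ n - 1) := by
  apply coprime_of_order (o := 8) (by norm_num) (by norm_num) _ h
  intro d hd hd2
  have h1 : d ≤ 8 := Nat.le_of_dvd (by norm_num) hd
  interval_cases d <;> first | rfl | (revert hd2; decide) | (revert hd; decide)

theorem big_pow {n m k c : ℕ} (hn : n = m * k + k) (hk : 0 < k) (hc : c < 2 ^ (m * k)) :
    c * k < 2 ^ n - 1 := by
  have h1 : k < 2 ^ k := Nat.lt_two_pow_self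
  have h2 : (c + 1) * (k + 1) ≤ 2 ^ (m * k) * 2 ^ k := Nat.mul_le_mul hc h1
  rw [← pow_add, ← hn] at h2
  have h3 : (c + 1) * (k + 1) = c * k + c + k + 1 := by ring
  omega

section
variable {K : Type} [Field K] [CharP K 2]

theorem mob1 {y : K} {q j : ℕ} (hq : q = 2 ^ j) (h : y ^ (q + 1) + y + 1 = 0) :
    y ^ (q ^ 3) = y := by
  have htwo : (2 : K) = 0 := CharTwo.two_eq_zero
  have fr : ∀ a b : K, (a + b) ^ q = a ^ q + b ^ q := by
    intro a b; rw [hq]; exact add_pow_char_pow _ _ 2 j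
  have h1 : y ^ q * y = y + 1 := by
    rw [← pow_succ]; linear_combination h + (- y - 1) * htwo
  have h2 : (y ^ q) ^ q * y ^ q = y ^ q + 1 := by
    rw [← mul_pow, h1, fr, one_pow]
  have h3 : (y ^ q) ^ q * (y + 1) = 1 := by
    have : (y ^ q) ^ q * y ^ q * y = (y ^ q + 1) * y := by rw [h2]
    rw [mul_assoc, h1] at this
    rw [this, add_mul, h1]
    linear_combination y * htwo
  have h4 : ((y ^ q) ^ q) ^ q * (y ^ q + 1) = 1 := by
    have h4 := congrArg (fun z => z ^ q) h3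
    simp only [mul_pow, fr, one_pow] at h4
    exact h4
  have h5 : ((y ^ q) ^ q) ^ q * ((y ^ q + 1) * y) = y := by
    rw [← mul_assoc, h4, one_mul]
  have h6 : (y ^ q + 1) * y = 1 := by
    rw [add_mul, h1]; linear_combination y * htwo
  rw [h6, mul_one] at h5
  rw [pow_three, pow_mul, pow_mul]
  exact h5

theorem mob2 {y : K} {q j : ℕ} (hq : q = 2 ^ j) (h : y ^ (q + 1) + y ^ q + 1 = 0) :
    y ^ (q ^ 3) = y := by
  have htwo : (2 : K) = 0 := CharTwo.two_eq_zero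
  have fr : ∀ a b : K, (a + b) ^ q = a ^ q + b ^ q := by
    intro a b; rw [hq]; exact add_pow_char_pow _ _ 2 j
  have h1 : y ^ q * (y + 1) = 1 := by
    rw [mul_add, ← pow_succ, mul_one]; linear_combination h + (- 1) * htwo
  have h2 : (y ^ q) ^ q * (y ^ q + 1) = 1 := by
    have h4 := congrArg (fun z => z ^ q) h1
    simp only [mul_pow, fr, one_pow] at h4
    exact h4
  have h3 : (y ^ q) ^ q * y = y + 1 := by
    have h5 : (y ^ q) ^ q * ((y ^ q + 1) * (y + 1)) = y + 1 := by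
      rw [← mul_assoc, h2, one_mul]
    have h6 : (y ^ q + 1) * (y + 1) = y := by
      rw [add_mul, h1]; linear_combination htwo
    rwa [h6] at h5
  have h4 : ((y ^ q) ^ q) ^ q * y ^ q = y ^ q + 1 := by
    have h4 := congrArg (fun z => z ^ q) h3
    simp only [mul_pow, fr, one_pow] at h4
    exact h4
  have h5 : ((y ^ q) ^ q) ^ q * (y ^ q * (y + 1)) = (y ^ q + 1) * (y + 1) := by
    rw [← mul_assoc, h4]
  rw [h1, mul_one, add_mul, h1] at h5
  have h6 : ((y ^ q) ^ q) ^ q = y := by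
    rw [h5]; linear_combination htwo
  rw [pow_three, pow_mul, pow_mul]
  exact h6

end

theorem line_a {R : Type*} [CommRing R] (htw : (2 : R) = 0) {w : R} (h0 : w ^ 3 + w + 1 = 0)
    {n k : ℕ} (h : (k % 7 = 1 ∧ n % 7 = 3) ∨ (k % 7 = 2 ∧ n % 7 = 6) ∨ (k % 7 = 4 ∧ n % 7 = 5) ∨
      (k % 7 = 3 ∧ n % 7 = 1) ∨ (k % 7 = 6 ∧ n % 7 = 2) ∨ (k % 7 = 5 ∧ n % 7 = 4)) :
    w ^ n + w ^ k + 1 = 0 := by
  have h7 : w ^ 7 = 1 := by
    linear_combination (w ^ 4 + w ^ 2 + w + 1) * h0 + (- w ^ 5 - w ^ 4 - w ^ 3 - w ^ 2 - w - 1) * htw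
  have hm : ∀ m : ℕ, w ^ m = w ^ (m % 7) := by
    intro m
    conv_lhs => rw [← Nat.div_add_mod m 7, pow_add, pow_mul, h7, one_pow, one_mul]
  rw [hm n, hm k]
  have e6 : w ^ 6 + w ^ 2 + 1 = 0 := by
    linear_combination (w ^ 3 + w + 1) * h0 + (- w ^ 4 - w ^ 3 - w) * htw
  have e5 : w ^ 5 + w ^ 4 + 1 = 0 := by
    linear_combination (w ^ 2 + w + 1) * h0 + (- w ^ 3 - w ^ 2 - w) * htw
  rcases h with ⟨a, b⟩ | ⟨a, b⟩ | ⟨a, b⟩ | ⟨a, b⟩ | ⟨a, b⟩ | ⟨a, b⟩ <;> rw [a, b]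
  · linear_combination h0
  · linear_combination e6
  · linear_combination e5
  · linear_combination h0
  · linear_combination e6
  · linear_combination e5

theorem line_b {R : Type*} [CommRing R] (htw : (2 : R) = 0) {w : R} (h0 : w ^ 3 + w ^ 2 + 1 = 0)
    {n k : ℕ} (h : (k % 7 = 2 ∧ n % 7 = 3) ∨ (k % 7 = 4 ∧ n % 7 = 6) ∨ (k % 7 = 1 ∧ n % 7 = 5) ∨
      (k % 7 = 3 ∧ n % 7 = 2) ∨ (k % 7 = 6 ∧ n % 7 = 4) ∨ (k % 7 = 5 ∧ n % 7 = 1)) :
    w ^ n + w ^ k + 1 = 0 := by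
  have h7 : w ^ 7 = 1 := by
    linear_combination (w ^ 4 + w ^ 3 + w ^ 2 + 1) * h0 +
      (- w ^ 6 - w ^ 5 - w ^ 4 - w ^ 3 - w ^ 2 - 1) * htw
  have hm : ∀ m : ℕ, w ^ m = w ^ (m % 7) := by
    intro m
    conv_lhs => rw [← Nat.div_add_mod m 7, pow_add, pow_mul, h7, one_pow, one_mul]
  rw [hm n, hm k]
  have e6 : w ^ 6 + w ^ 4 + 1 = 0 := by
    linear_combination (w ^ 3 + w ^ 2 + 1) * h0 + (- w ^ 5 - w ^ 3 - w ^ 2) * htw
  have e5 : w ^ 5 + w + 1 = 0 := by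
    linear_combination (w ^ 2 + w + 1) * h0 + (- w ^ 4 - w ^ 3 - w ^ 2) * htw
  rcases h with ⟨a, b⟩ | ⟨a, b⟩ | ⟨a, b⟩ | ⟨a, b⟩ | ⟨a, b⟩ | ⟨a, b⟩ <;> rw [a, b]
  · linear_combination h0
  · linear_combination e6
  · linear_combination e5
  · linear_combination h0
  · linear_combination e6
  · linear_combination e5

theorem two_adj (g : (ZMod 2)[X]) : (2 : AdjoinRoot g) = 0 := by
  have h : (2 : (ZMod 2)[X]) = 0 := CharTwo.two_eq_zero
  have := congrArg (AdjoinRoot.mk g) h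
  rwa [map_ofNat, map_zero] at this

theorem dvd_tri {g : (ZMod 2)[X]} {n k : ℕ}
    (h : (AdjoinRoot.root g) ^ n + (AdjoinRoot.root g) ^ k + 1 = 0) : g ∣ X ^ n + X ^ k + 1 := by
  rw [← AdjoinRoot.mk_eq_zero, map_add, map_add, map_pow, map_pow, AdjoinRoot.mk_X, map_one]
  exact h

theorem root_a : (AdjoinRoot.root (X ^ 3 + X + 1 : (ZMod 2)[X])) ^ 3 +
    AdjoinRoot.root (X ^ 3 + X + 1 : (ZMod 2)[X]) + 1 = 0 := by
  generalize hg : (X ^ 3 + X + 1 : (ZMod 2)[X]) = g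
  have h : AdjoinRoot.mk g (X ^ 3 + X + 1) = 0 := by rw [hg]; exact AdjoinRoot.mk_self
  rw [map_add, map_add, map_pow, AdjoinRoot.mk_X, map_one] at h
  exact h

theorem root_b : (AdjoinRoot.root (X ^ 3 + X ^ 2 + 1 : (ZMod 2)[X])) ^ 3 +
    (AdjoinRoot.root (X ^ 3 + X ^ 2 + 1 : (ZMod 2)[X])) ^ 2 + 1 = 0 := by
  generalize hg : (X ^ 3 + X ^ 2 + 1 : (ZMod 2)[X]) = g
  have h : AdjoinRoot.mk g (X ^ 3 + X ^ 2 + 1) = 0 := by rw [hg]; exact AdjoinRoot.mk_self
  rw [map_add, map_add, map_pow, map_pow, AdjoinRoot.mk_X, map_one] at h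
  exact h

/-- The trinomials divisible by one of the factors of `X ^ 7 + 1`. -/
theorem seven_dvd {n k : ℕ} (hn : n % 7 ≠ 0) (hk : k % 7 ≠ 0) (hnk : n % 7 ≠ k % 7)
    (h1 : (n + k) % 7 ≠ 0) (h2 : (n + 5 * k) % 7 ≠ 0) (h3 : (5 * n + k) % 7 ≠ 0) :
    (X ^ 3 + X + 1 : (ZMod 2)[X]) ∣ X ^ n + X ^ k + 1 ∨
      (X ^ 3 + X ^ 2 + 1 : (ZMod 2)[X]) ∣ X ^ n + X ^ k + 1 := by
  have hcases : ((k % 7 = 1 ∧ n % 7 = 3) ∨ (k % 7 = 2 ∧ n % 7 = 6) ∨ (k % 7 = 4 ∧ n % 7 = 5) ∨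
      (k % 7 = 3 ∧ n % 7 = 1) ∨ (k % 7 = 6 ∧ n % 7 = 2) ∨ (k % 7 = 5 ∧ n % 7 = 4)) ∨
      ((k % 7 = 2 ∧ n % 7 = 3) ∨ (k % 7 = 4 ∧ n % 7 = 6) ∨ (k % 7 = 1 ∧ n % 7 = 5) ∨
      (k % 7 = 3 ∧ n % 7 = 2) ∨ (k % 7 = 6 ∧ n % 7 = 4) ∨ (k % 7 = 5 ∧ n % 7 = 1)) := by
    have e1 : (n + k) % 7 = (n % 7 + k % 7) % 7 := by omega
    have e2 : (n + 5 * k) % 7 = (n % 7 + 5 * (k % 7)) % 7 := by omega
    have e3 : (5 * n + k) % 7 = (5 * (n % 7) + k % 7) % 7 := by omega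
    rw [e1] at h1
    rw [e2] at h2
    rw [e3] at h3
    have ha : n % 7 < 7 := Nat.mod_lt _ (by norm_num)
    have hb : k % 7 < 7 := Nat.mod_lt _ (by norm_num)
    clear e1 e2 e3
    generalize n % 7 = a at *
    generalize k % 7 = b at *
    revert h1 h2 h3 hn hk hnk
    interval_cases a <;> interval_cases b <;> decide
  rcases hcases with h | h
  · left
    exact dvd_tri (line_a (two_adj _) root_a h)
  · right
    exact dvd_tri (line_b (two_adj _) root_b h)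

/-- **Primitive trinomials and primitive pentanomials.** -/
theorem prim_main {n k : ℕ} (hn : 6 ≤ n) (hk : 0 < k) (hkn : k < n)
    (hf : Irreducible (X ^ n + X ^ k + 1 : (ZMod 2)[X]))
    (hp : IsLeast {t : ℕ | 0 < t ∧ (X ^ n + X ^ k + 1 : (ZMod 2)[X]) ∣ X ^ t + 1} (2 ^ n - 1))
    (hcond : ¬ 4 ∣ n ∨ (¬ 3 ∣ n ∧ n % 7 ≠ 0 ∧ k % 7 ≠ 0 ∧ n % 7 ≠ k % 7) ∨
      (¬ 8 ∣ n ∧ (17 ∣ n ∨ 17 ∣ k ∨ 17 ∣ n - k))) :
    ∃ p : (ZMod 2)[X], p.natDegree = n ∧ p.support.card = 5 ∧ Irreducible p ∧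
      IsLeast {t : ℕ | 0 < t ∧ p ∣ X ^ t + 1} (2 ^ n - 1) := by
  obtain ⟨K, _, _, α, D⟩ := exists_triData hk hkn hf
  haveI := D.char
  have htwo : (2 : K) = 0 := CharTwo.two_eq_zero
  have hN : 0 < 2 ^ n - 1 := by
    have : 2 ^ 6 ≤ 2 ^ n := Nat.pow_le_pow_right (by norm_num) hn
    omega
  have hroot : aeval α (X ^ n + X ^ k + 1 : (ZMod 2)[X]) = 0 := by
    rw [map_add, map_add, map_pow, map_pow, aeval_X, map_one]; exact D.eq0
  have hord : orderOf α = 2 ^ n - 1 := (isLeast_iff hf hroot hN).mp hp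
  have key : ∀ s : ℕ, Nat.Coprime s (2 ^ n - 1) → PR n (α ^ s) →
      ∃ p : (ZMod 2)[X], p.natDegree = n ∧ p.support.card = 5 ∧ Irreducible p ∧
      IsLeast {t : ℕ | 0 < t ∧ p ∣ X ^ t + 1} (2 ^ n - 1) := by
    rintro s hs ⟨p, hp1, hp2, hp3, hp4⟩
    refine ⟨p, hp1, hp2, hp3, (isLeast_iff hp3 hp4 hN).mpr ?_⟩
    rw [← hord] at hs
    rw [Nat.Coprime.orderOf_pow hs.symm, hord]
  have small : ∀ t : ℕ, 0 < t → α ^ t = 1 → 2 ^ n - 1 ≤ t := by
    intro t ht h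
    rw [← hord]
    exact orderOf_le_of_pow_eq_one ht h
  have h0 := D.eq0
  have x1 : n ≠ 2 * k := by
    intro h
    have h1 : α ^ (3 * k) = 1 := by
      rw [h, mul_comm 2 k, pow_mul] at h0
      rw [mul_comm 3 k, pow_mul]
      linear_combination (α ^ k - 1) * h0
    have h2 := small _ (by omega) h1
    have h3 := big_pow (n := n) (m := 1) (k := k) (c := 3) (by omega) hk (by
      rw [one_mul]
      calc 3 < 2 ^ 3 := by norm_num
        _ ≤ 2 ^ k := Nat.pow_le_pow_right (by norm_num) (by omega))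
    omega
  have x2 : n ≠ 3 * k := by
    intro h
    have h1 : α ^ (7 * k) = 1 := by
      rw [h, mul_comm 3 k, pow_mul] at h0
      rw [mul_comm 7 k, pow_mul]
      generalize α ^ k = w at h0
      linear_combination (w ^ 4 + w ^ 2 + w + 1) * h0 +
        (- w ^ 5 - w ^ 4 - w ^ 3 - w ^ 2 - w - 1) * htwo
    have h2 := small _ (by omega) h1
    have h3 := big_pow (n := n) (m := 2) (k := k) (c := 7) (by omega) hk (by
      calc 7 < 2 ^ 4 := by norm_num
        _ ≤ 2 ^ (2 * k) := Nat.pow_le_pow_right (by norm_num) (by omega))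
    omega
  have x3 : 2 * n ≠ 3 * k := by
    intro h
    obtain ⟨e, he⟩ : ∃ e, k = 2 * e := ⟨k / 2, by omega⟩
    have hn' : n = 3 * e := by omega
    have h1 : α ^ (7 * e) = 1 := by
      rw [hn', he, mul_comm 3 e, pow_mul, mul_comm 2 e, pow_mul] at h0
      rw [mul_comm 7 e, pow_mul]
      generalize α ^ e = w at h0
      linear_combination (w ^ 4 + w ^ 3 + w ^ 2 + 1) * h0 +
        (- w ^ 6 - w ^ 5 - w ^ 4 - w ^ 3 - w ^ 2 - 1) * htwo
    have h2 := small _ (by omega) h1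
    have h3 := big_pow (n := n) (m := 2) (k := e) (c := 7) (by omega) (by omega) (by
      calc 7 < 2 ^ 4 := by norm_num
        _ ≤ 2 ^ (2 * e) := Nat.pow_le_pow_right (by norm_num) (by omega))
    omega
  have x4 : n ≠ 4 * k := by
    intro h
    have h1 : α ^ (15 * k) = 1 := by
      rw [h, mul_comm 4 k, pow_mul] at h0
      rw [mul_comm 15 k, pow_mul]
      generalize α ^ k = w at h0
      have h4 : w ^ 4 = w + 1 := by linear_combination h0 + (- w - 1) * htwo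
      have h15 : w ^ 15 = (w ^ 4) ^ 3 * w ^ 3 := by ring
      rw [h15, h4]
      linear_combination (w ^ 2 + 3 * w + 3) * h0 + (- 2 * w ^ 2 - 3 * w - 2) * htwo
    have h2 := small _ (by omega) h1
    have h3 := big_pow (n := n) (m := 3) (k := k) (c := 15) (by omega) hk (by
      calc 15 < 2 ^ 6 := by norm_num
        _ ≤ 2 ^ (3 * k) := Nat.pow_le_pow_right (by norm_num) (by omega))
    omega
  have x5 : 3 * n ≠ 4 * k := by
    intro h
    obtain ⟨e, he⟩ : ∃ e, k = 3 * e := ⟨k / 3, by omega⟩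
    have hn' : n = 4 * e := by omega
    have h1 : α ^ (15 * e) = 1 := by
      rw [hn', he, mul_comm 4 e, pow_mul, mul_comm 3 e, pow_mul] at h0
      rw [mul_comm 15 e, pow_mul]
      generalize α ^ e = w at h0
      linear_combination (w ^ 11 + w ^ 10 + w ^ 9 + w ^ 8 + w ^ 6 + w ^ 4 + w ^ 3 + 1) * h0 +
        (- w ^ 14 - w ^ 13 - w ^ 12 - w ^ 11 - w ^ 10 - w ^ 9 - w ^ 8 - w ^ 7 - w ^ 6 - w ^ 4
          - w ^ 3 - 1) * htwo
    have h2 := small _ (by omega) h1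
    have h3 := big_pow (n := n) (m := 3) (k := e) (c := 15) (by omega) (by omega) (by
      calc 15 < 2 ^ 6 := by norm_num
        _ ≤ 2 ^ (3 * e) := Nat.pow_le_pow_right (by norm_num) (by omega))
    omega
  have mobk : ∀ q j : ℕ, q = 2 ^ j → 0 < q → q ^ 3 ≤ 2 ^ (q * k) → n ≠ (q + 1) * k := by
    intro q j hq hq0 hq4 h
    have hq3 : 0 < q ^ 3 := by positivity
    rw [h, mul_comm (q + 1) k, pow_mul] at h0
    have h1 := mob1 hq h0
    have h2 : α ^ ((q ^ 3 - 1) * k) = 1 := by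
      have h3 : (α ^ k) ^ (q ^ 3 - 1) * α ^ k = 1 * α ^ k := by
        rw [← pow_succ, Nat.sub_add_cancel hq3, h1, one_mul]
      rw [mul_comm, pow_mul]
      exact mul_right_cancel₀ (pow_ne_zero _ D.ne0) h3
    have hlt : q ^ 3 - 1 < 2 ^ (q * k) := by omega
    have h3 := big_pow (n := n) (m := q) (k := k) (c := q ^ 3 - 1) (by rw [h]; ring) hk hlt
    rcases Nat.eq_zero_or_pos ((q ^ 3 - 1) * k) with h4 | h4
    · have h5 : q ^ 3 - 1 = 0 := by
        rcases mul_eq_zero.mp h4 with h5 | h5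
        · exact h5
        · omega
      have h6 : q ≤ 1 := by
        by_contra h7
        push Not at h7
        have : 2 ^ 3 ≤ q ^ 3 := Nat.pow_le_pow_left h7 3
        omega
      have h7 : q = 1 := by omega
      rw [h7] at h
      omega
    · have h5 := small _ h4 h2
      omega
  have mobk' : ∀ q j a : ℕ, q = 2 ^ j → 0 < a → 2 ≤ q → q ^ 3 ≤ 2 ^ (q * a) →
      n = (q + 1) * a → k ≠ q * a := by
    intro q j a hq ha hq0 hq4 h h'
    have hq3 : 2 ^ 3 ≤ q ^ 3 := Nat.pow_le_pow_left hq0 3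
    rw [h', h, mul_comm (q + 1) a, pow_mul, mul_comm q a, pow_mul] at h0
    have h1 := mob2 hq h0
    have h2 : α ^ ((q ^ 3 - 1) * a) = 1 := by
      have h3 : (α ^ a) ^ (q ^ 3 - 1) * α ^ a = 1 * α ^ a := by
        rw [← pow_succ, Nat.sub_add_cancel (by omega), h1, one_mul]
      rw [mul_comm, pow_mul]
      exact mul_right_cancel₀ (pow_ne_zero _ D.ne0) h3
    have h3 := big_pow (n := n) (m := q) (k := a) (c := q ^ 3 - 1) (by rw [h]; ring) ha (by omega)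
    have h5 := small _ (Nat.mul_pos (by omega) ha) h2
    omega
  rcases hcond with h4 | ⟨h3, hn7, hk7, hnk7⟩ | ⟨h8, h17⟩
  · have hs : Nat.Coprime (4 + 1) (2 ^ n - 1) := coprime_five h4
    by_cases hn5 : n % 5 = 0
    · have ha : n = (4 + 1) * (n / 5) := by omega
      have hbig : 4 ^ 3 ≤ 2 ^ (4 * (n / 5)) := by
        calc 4 ^ 3 ≤ 2 ^ 8 := by norm_num
          _ ≤ 2 ^ (4 * (n / 5)) := Nat.pow_le_pow_right (by norm_num) (by omega)
      refine key (4 + 1) hs (D.prN (j := 2) (q := 4) (a := n / 5) (by norm_num) (by norm_num) hs ha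
        hkn hk ?_ ?_)
      · intro h
        refine mobk 4 2 (by norm_num) (by norm_num) ?_ (by omega)
        rw [h]; exact hbig
      · exact mobk' 4 2 (n / 5) (by norm_num) (by omega) (by norm_num) hbig ha
    · by_cases hk5 : k % 5 = 0
      · exact key (4 + 1) hs (D.prK (j := 2) (q := 4) (b := k / 5) (by norm_num) (by norm_num) hs
          (by omega) hkn hk)
      · by_cases hnk : n % 5 = k % 5
        · exact key (4 + 1) hs (D.prEq (j := 2) (q := 4) (by norm_num) (by norm_num) hs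
            (by omega) hkn hk)
        · exact key 5 hs (D.pr5 hk hkn hs hn5 hk5 hnk x1 x2 x3 x4 x5)
  · have hs : Nat.Coprime 7 (2 ^ n - 1) := coprime_seven h3
    by_cases h7 : (n + k) % 7 = 0 ∨ (n + 5 * k) % 7 = 0 ∨ (5 * n + k) % 7 = 0
    · exact key 7 hs (D.pr7 hk hkn hs (by omega) h7 x1 x4 x5)
    · exfalso
      push Not at h7
      rcases seven_dvd hn7 hk7 hnk7 h7.1 h7.2.1 h7.2.2 with h | h
      · have hd : (X ^ 3 + X + 1 : (ZMod 2)[X]).natDegree = 3 := by compute_degree!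
        refine not_dvd_of_irr hf (not_isUnit_of_natDegree ?_) ?_ h
        · rw [hd]; norm_num
        · rw [natDegree_tri hk hkn, hd]; omega
      · have hd : (X ^ 3 + X ^ 2 + 1 : (ZMod 2)[X]).natDegree = 3 := by compute_degree!
        refine not_dvd_of_irr hf (not_isUnit_of_natDegree ?_) ?_ h
        · rw [hd]; norm_num
        · rw [natDegree_tri hk hkn, hd]; omega
  · have hs : Nat.Coprime (16 + 1) (2 ^ n - 1) := coprime_seventeen h8
    rcases h17 with h | h | h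
    · obtain ⟨a, ha⟩ := h
      have hbig : ∀ b : ℕ, 0 < b → 16 ^ 3 ≤ 2 ^ (16 * b) := by
        intro b hb
        calc 16 ^ 3 ≤ 2 ^ 16 := by norm_num
          _ ≤ 2 ^ (16 * b) := Nat.pow_le_pow_right (by norm_num) (by omega)
      refine key (16 + 1) hs (D.prN (j := 4) (q := 16) (a := a) (by norm_num) (by norm_num) hs ha
        hkn hk ?_ ?_)
      · intro h
        exact mobk 16 4 (by norm_num) (by norm_num) (hbig k hk) (by omega)
      · exact mobk' 16 4 a (by norm_num) (by omega) (by norm_num) (hbig a (by omega)) ha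
    · obtain ⟨b, hb⟩ := h
      exact key (16 + 1) hs (D.prK (j := 4) (q := 16) (b := b) (by norm_num) (by norm_num) hs
          hb hkn hk)
    · exact key (16 + 1) hs (D.prEq (j := 4) (q := 16) (by norm_num) (by norm_num) hs
          h hkn hk)

end Pool.Agent.Helper109
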