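import Pool.Agent.Helper109.Basic

/-!
# From irreducible trinomials to irreducible pentanomials: powers of a root
-/

set_option autoImplicit false
set_option linter.style.haveILetI false

namespace Pool.Agent.Helper109

open Polynomial

theorem eq_of_pow_coprime {K : Type*} [Field K] {a b : K} {r s : ℕ} (hb : b ≠ 0)
    (hr : a ^ r = b ^ r) (hs : a ^ s = b ^ s) (h : Nat.Coprime r s) : a = b := by
  have h1 : (a / b) ^ r = 1 := by rw [div_pow, hr, div_self (pow_ne_zero _ hb)]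
  have h2 : (a / b) ^ s = 1 := by rw [div_pow, hs, div_self (pow_ne_zero _ hb)]
  have h3 : orderOf (a / b) ∣ 1 := by
    rw [← h]
    exact Nat.dvd_gcd (orderOf_dvd_of_pow_eq_one h1) (orderOf_dvd_of_pow_eq_one h2)
  have h4 : a / b = 1 := by
    rw [← orderOf_eq_one_iff]; exact Nat.dvd_one.mp h3
  field_simp at h4
  exact h4

theorem tri_eq_sp {n k : ℕ} (hk : 0 < k) (hkn : k < n) :
    (X ^ n + X ^ k + 1 : (ZMod 2)[X]) = sp {n, k, 0} := by
  unfold sp
  rw [Finset.sum_insert (by simp; omega), Finset.sum_pair (by omega), pow_zero, add_assoc]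

theorem natDegree_tri {n k : ℕ} (hk : 0 < k) (hkn : k < n) :
    (X ^ n + X ^ k + 1 : (ZMod 2)[X]).natDegree = n := by
  rw [tri_eq_sp hk hkn]
  apply natDegree_sp (by simp)
  intro e he
  simp at he
  omega

/-- data attached to an irreducible trinomial -/
structure TriData (n k : ℕ) (K : Type) [Field K] [Algebra (ZMod 2) K] (α : K) : Prop where
  fin : FiniteDimensional (ZMod 2) K
  finK : Finite K
  char : CharP K 2
  rank : Module.finrank (ZMod 2) K = n
  gen : IntermediateField.adjoin (ZMod 2) {α} = ⊤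
  eq0 : α ^ n + α ^ k + 1 = 0
  ne0 : α ≠ 0

theorem exists_triData {n k : ℕ} (hk : 0 < k) (hkn : k < n)
    (hf : Irreducible (X ^ n + X ^ k + 1 : (ZMod 2)[X])) :
    ∃ (K : Type) (_ : Field K) (_ : Algebra (ZMod 2) K) (α : K), TriData n k K α := by
  haveI : Fact (Irreducible (X ^ n + X ^ k + 1 : (ZMod 2)[X])) := ⟨hf⟩
  have hdeg : (X ^ n + X ^ k + 1 : (ZMod 2)[X]).natDegree = n := natDegree_tri hk hkn
  have hne : (X ^ n + X ^ k + 1 : (ZMod 2)[X]) ≠ 0 := hf.ne_zero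
  have hroot : (AdjoinRoot.root (X ^ n + X ^ k + 1 : (ZMod 2)[X])) ^ n +
      (AdjoinRoot.root (X ^ n + X ^ k + 1 : (ZMod 2)[X])) ^ k + 1 = 0 := by
    have := AdjoinRoot.mk_self (f := (X ^ n + X ^ k + 1 : (ZMod 2)[X]))
    rw [map_add, map_add, map_pow, map_pow, AdjoinRoot.mk_X, map_one] at this
    exact this
  have hfd : FiniteDimensional (ZMod 2) (AdjoinRoot (X ^ n + X ^ k + 1 : (ZMod 2)[X])) :=
    (AdjoinRoot.powerBasis hne).finite
  refine ⟨AdjoinRoot (X ^ n + X ^ k + 1 : (ZMod 2)[X]), inferInstance, inferInstance,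
    AdjoinRoot.root _, hfd, Module.finite_of_finite (ZMod 2), ?_, ?_, ?_, hroot, ?_⟩
  · exact charP_of_injective_algebraMap (algebraMap (ZMod 2) _).injective 2
  · rw [(AdjoinRoot.powerBasis hne).finrank, AdjoinRoot.powerBasis_dim, hdeg]
  · exact IntermediateField.adjoin_root_eq_top _
  · intro h
    rw [h, zero_pow (by omega), zero_pow (by omega)] at hroot
    simp at hroot

section
variable {n k : ℕ} {K : Type} [Field K] [Algebra (ZMod 2) K] {α : K}

theorem TriData.minpoly_deg (D : TriData n k K α) {s : ℕ}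
    (hfix : ∀ α' : K, α' ^ s = α ^ s → α' ^ n + α' ^ k + 1 = 0 → α' = α) :
    (minpoly (ZMod 2) (α ^ s)).natDegree = n := by
  haveI := D.fin
  haveI := D.finK
  rw [natDegree_minpoly_of_gen, D.rank]
  apply gen_of_fix D.gen
  intro τ hτ
  apply hfix
  · rw [← map_pow, hτ]
  · rw [← map_pow, ← map_pow, ← map_add, ← map_one τ, ← map_add, D.eq0, map_zero]

theorem TriData.int (D : TriData n k K α) (x : K) : IsIntegral (ZMod 2) x := by
  haveI := D.fin
  exact Algebra.IsIntegral.isIntegral x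

theorem TriData.natDegree_le (D : TriData n k K α) (p : (ZMod 2)[X]) (hp : p ≠ 0)
    (h : aeval α p = 0) : n ≤ p.natDegree := by
  haveI := D.fin
  rw [← D.rank, ← natDegree_minpoly_of_gen D.gen]
  exact natDegree_le_of_dvd (minpoly.dvd _ _ h) hp

/-- The case `n ≡ k`. -/
theorem TriData.case_eq (D : TriData n k K α) {j q a b r : ℕ} (hj : 1 ≤ j) (hq : q = 2 ^ j)
    (hn : n = (q + 1) * a + r) (hk : k = (q + 1) * b + r) (hkn : k < n) (hk0 : 0 < k)
    (hr : Nat.Coprime r (q + 1)) : PD n := by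
  haveI := D.char
  have hq2 : 2 ≤ q := by
    rw [hq]; calc 2 = 2 ^ 1 := by norm_num
      _ ≤ 2 ^ j := Nat.pow_le_pow_right (by norm_num) hj
  have hab : b < a := by
    by_contra h
    push Not at h
    have := Nat.mul_le_mul_left (q + 1) h
    omega
  obtain ⟨c, hc⟩ : ∃ c, a = b + c := ⟨a - b, by omega⟩
  have hc0 : 0 < c := by omega
  have hqc : c < q * c := by nlinarith
  have e1 : n = q * b + q * c + b + c + r := by rw [hn, hc]; ring
  have e2 : k = q * b + b + r := by rw [hk]; ring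
  have hdeg : (minpoly (ZMod 2) (α ^ (q + 1))).natDegree = n := by
    apply D.minpoly_deg
    intro α' h1 h2
    have h3 : ∀ x : K, x ^ n = (x ^ (q + 1)) ^ a * x ^ r := by
      intro x; rw [hn, pow_add, pow_mul]
    have h4 : ∀ x : K, x ^ k = (x ^ (q + 1)) ^ b * x ^ r := by
      intro x; rw [hk, pow_add, pow_mul]
    have h5 := D.eq0
    rw [h3, h4] at h5 h2
    rw [h1] at h2
    set U := (α ^ (q + 1)) ^ a + (α ^ (q + 1)) ^ b with hU
    have h6 : U * α' ^ r = 1 := by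
      have : U * α' ^ r + 1 = 0 := by rw [← h2, hU]; ring
      exact CharTwo.add_eq_zero.mp this
    have h7 : U * α ^ r = 1 := by
      have : U * α ^ r + 1 = 0 := by rw [← h5, hU]; ring
      exact CharTwo.add_eq_zero.mp this
    have hU0 : U ≠ 0 := by
      intro h; rw [h, zero_mul] at h7; exact zero_ne_one h7
    have h8 : α' ^ r = α ^ r := by
      apply mul_left_cancel₀ hU0; rw [h6, h7]
    exact eq_of_pow_coprime D.ne0 h8 h1 hr
  refine PD_of_root (β := α ^ (q + 1)) (a := q * a + b + r) (b := a + q * b + r) (c := k) (d := 0)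
    (D.int _) hdeg ?_ ?_ ?_ rfl ?_
  · have e3 : q * a = q * b + q * c := by rw [hc]; ring
    refine ⟨?_, ?_, hk0, by omega⟩ <;> omega
  · have e3 : q * a = q * b + q * c := by rw [hc]; ring
    refine ⟨?_, ?_, hkn⟩ <;> omega
  · have e3 : q * a = q * b + q * c := by rw [hc]; ring
    refine ⟨?_, ?_, ?_⟩ <;> omega
  · have h5 := D.eq0
    have h9 : α ^ n + α ^ k = 1 := CharTwo.add_eq_zero.mp h5
    have h10 : (α ^ n + α ^ k) ^ q = (α ^ n) ^ q + (α ^ k) ^ q := by
      rw [hq]; exact add_pow_char_pow _ _ 2 j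
    have h11 : (α ^ n + α ^ k) ^ (q + 1) = 1 := by rw [h9, one_pow]
    rw [pow_succ, h10] at h11
    have g1 : (α ^ (q + 1)) ^ n = (α ^ n) ^ q * α ^ n := by
      rw [← pow_mul, ← pow_mul, ← pow_add]; congr 1; ring
    have g2 : (α ^ (q + 1)) ^ k = (α ^ k) ^ q * α ^ k := by
      rw [← pow_mul, ← pow_mul, ← pow_add]; congr 1; ring
    have g3 : (α ^ (q + 1)) ^ (q * a + b + r) = (α ^ n) ^ q * α ^ k := by
      rw [← pow_mul, ← pow_mul, ← pow_add]; congr 1; rw [hn, hk]; ring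
    have g4 : (α ^ (q + 1)) ^ (a + q * b + r) = (α ^ k) ^ q * α ^ n := by
      rw [← pow_mul, ← pow_mul, ← pow_add]; congr 1; rw [hn, hk]; ring
    rw [g1, g2, g3, g4]
    have h12 : ((α ^ n) ^ q + (α ^ k) ^ q) * (α ^ n + α ^ k) + 1 = 0 := by
      rw [h11]; exact CharTwo.add_self_eq_zero 1
    rw [← h12]; ring

/-- The case in which `q + 1` divides `n`. -/
theorem TriData.case_n (D : TriData n k K α) {j q a b r : ℕ} (hj : 1 ≤ j) (hq : q = 2 ^ j)
    (hn : n = (q + 1) * a) (hk : k = (q + 1) * b + r) (hkn : k < n) (hk0 : 0 < k)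
    (hr : Nat.Coprime r (q + 1)) (hne1 : k ≠ a) (hne2 : k ≠ q * a) : PD n := by
  haveI := D.char
  have hq2 : 2 ≤ q := by
    rw [hq]; calc 2 = 2 ^ 1 := by norm_num
      _ ≤ 2 ^ j := Nat.pow_le_pow_right (by norm_num) hj
  have ha0 : 0 < a := by
    rcases Nat.eq_zero_or_pos a with h | h
    · rw [h] at hn; omega
    · exact h
  have hqa : a < q * a := by nlinarith
  have e1 : n = q * a + a := by rw [hn]; ring
  have hdeg : (minpoly (ZMod 2) (α ^ (q + 1))).natDegree = n := by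
    apply D.minpoly_deg
    intro α' h1 h2
    have h3 : ∀ x : K, x ^ n = (x ^ (q + 1)) ^ a := by
      intro x; rw [hn, pow_mul]
    have h4 : ∀ x : K, x ^ k = (x ^ (q + 1)) ^ b * x ^ r := by
      intro x; rw [hk, pow_add, pow_mul]
    have h5 := D.eq0
    rw [h3, h4] at h5 h2
    rw [h1] at h2
    have h6 : (α ^ (q + 1)) ^ b * α' ^ r = (α ^ (q + 1)) ^ b * α ^ r := by
      have : (α ^ (q + 1)) ^ a + (α ^ (q + 1)) ^ b * α' ^ r + 1 =
        (α ^ (q + 1)) ^ a + (α ^ (q + 1)) ^ b * α ^ r + 1 := by rw [h5, h2]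
      simpa using this
    have h8 : α' ^ r = α ^ r := mul_left_cancel₀ (pow_ne_zero _ (pow_ne_zero _ D.ne0)) h6
    exact eq_of_pow_coprime D.ne0 h8 h1 hr
  refine PD_of_root (β := α ^ (q + 1)) (a := q * a) (b := a) (c := k) (d := 0)
    (D.int _) hdeg ?_ ?_ ?_ rfl ?_
  · refine ⟨?_, ?_, hk0, by omega⟩ <;> omega
  · refine ⟨?_, ?_, hkn⟩ <;> omega
  · refine ⟨?_, ?_, ?_⟩ <;> omega
  · have h5 := D.eq0
    have h9 : α ^ n + 1 = α ^ k := by
      have : (α ^ n + 1) + α ^ k = 0 := by rw [← h5]; ring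
      exact CharTwo.add_eq_zero.mp this
    have h10 : (α ^ n + 1) ^ q = (α ^ n) ^ q + 1 ^ q := by
      rw [hq]; exact add_pow_char_pow _ _ 2 j
    have h11 : (α ^ n + 1) ^ (q + 1) = (α ^ k) ^ (q + 1) := by rw [h9]
    rw [pow_succ, h10, one_pow] at h11
    have g1 : (α ^ (q + 1)) ^ n = (α ^ n) ^ q * α ^ n := by
      rw [← pow_mul, ← pow_mul, ← pow_add]; congr 1; ring
    have g2 : (α ^ (q + 1)) ^ k = (α ^ k) ^ (q + 1) := by
      rw [← pow_mul, ← pow_mul]; congr 1; ring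
    have g3 : (α ^ (q + 1)) ^ (q * a) = (α ^ n) ^ q := by
      rw [← pow_mul, ← pow_mul]; congr 1; rw [hn]; ring
    have g4 : (α ^ (q + 1)) ^ a = α ^ n := by
      rw [← pow_mul]; congr 1; rw [hn]
    rw [g1, g2, g3, g4, ← h11]
    have h12 : ((α ^ n) ^ q + 1) * (α ^ n + 1) + ((α ^ n) ^ q + 1) * (α ^ n + 1) = 0 :=
      CharTwo.add_self_eq_zero _
    rw [← h12]; ring

/-- The case in which `q + 1` divides `k`. -/
theorem TriData.case_k (D : TriData n k K α) {j q a b r : ℕ} (hj : 1 ≤ j) (hq : q = 2 ^ j)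
    (hn : n = (q + 1) * a + r) (hk : k = (q + 1) * b) (hkn : k < n) (hk0 : 0 < k)
    (hr : Nat.Coprime r (q + 1)) : PD n := by
  haveI := D.char
  have hq2 : 2 ≤ q := by
    rw [hq]; calc 2 = 2 ^ 1 := by norm_num
      _ ≤ 2 ^ j := Nat.pow_le_pow_right (by norm_num) hj
  have hb0 : 0 < b := by
    rcases Nat.eq_zero_or_pos b with h | h
    · rw [h] at hk; omega
    · exact h
  have hqb : b < q * b := by nlinarith
  have e1 : k = q * b + b := by rw [hk]; ring
  have hdeg : (minpoly (ZMod 2) (α ^ (q + 1))).natDegree = n := by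
    apply D.minpoly_deg
    intro α' h1 h2
    have h3 : ∀ x : K, x ^ k = (x ^ (q + 1)) ^ b := by
      intro x; rw [hk, pow_mul]
    have h4 : ∀ x : K, x ^ n = (x ^ (q + 1)) ^ a * x ^ r := by
      intro x; rw [hn, pow_add, pow_mul]
    have h5 := D.eq0
    rw [h3, h4] at h5 h2
    rw [h1] at h2
    have h6 : (α ^ (q + 1)) ^ a * α' ^ r = (α ^ (q + 1)) ^ a * α ^ r := by
      have : (α ^ (q + 1)) ^ a * α' ^ r + (α ^ (q + 1)) ^ b + 1 =
        (α ^ (q + 1)) ^ a * α ^ r + (α ^ (q + 1)) ^ b + 1 := by rw [h5, h2]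
      simpa using this
    have h8 : α' ^ r = α ^ r := mul_left_cancel₀ (pow_ne_zero _ (pow_ne_zero _ D.ne0)) h6
    exact eq_of_pow_coprime D.ne0 h8 h1 hr
  refine PD_of_root (β := α ^ (q + 1)) (a := q * b) (b := b) (c := k) (d := 0)
    (D.int _) hdeg ?_ ?_ ?_ rfl ?_
  · refine ⟨?_, ?_, hk0, by omega⟩ <;> omega
  · refine ⟨?_, ?_, hkn⟩ <;> omega
  · refine ⟨?_, ?_, ?_⟩ <;> omega
  · have h5 := D.eq0
    have h9 : α ^ k + 1 = α ^ n := by
      have : (α ^ k + 1) + α ^ n = 0 := by rw [← h5]; ring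
      exact CharTwo.add_eq_zero.mp this
    have h10 : (α ^ k + 1) ^ q = (α ^ k) ^ q + 1 ^ q := by
      rw [hq]; exact add_pow_char_pow _ _ 2 j
    have h11 : (α ^ k + 1) ^ (q + 1) = (α ^ n) ^ (q + 1) := by rw [h9]
    rw [pow_succ, h10, one_pow] at h11
    have g1 : (α ^ (q + 1)) ^ n = (α ^ n) ^ (q + 1) := by
      rw [← pow_mul, ← pow_mul]; congr 1; ring
    have g2 : (α ^ (q + 1)) ^ k = (α ^ k) ^ q * α ^ k := by
      rw [← pow_mul, ← pow_mul, ← pow_add]; congr 1; ring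
    have g3 : (α ^ (q + 1)) ^ (q * b) = (α ^ k) ^ q := by
      rw [← pow_mul, ← pow_mul]; congr 1; rw [hk]; ring
    have g4 : (α ^ (q + 1)) ^ b = α ^ k := by
      rw [← pow_mul]; congr 1; rw [hk]
    rw [g1, g2, g3, g4, ← h11]
    have h12 : ((α ^ k) ^ q + 1) * (α ^ k + 1) + ((α ^ k) ^ q + 1) * (α ^ k + 1) = 0 :=
      CharTwo.add_self_eq_zero _
    rw [← h12]; ring

end

end Pool.Agent.Helper109
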