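import Pool.Agent.Helper109.Tri

/-!
# The fifth power of a root of an irreducible trinomial: three different residues modulo five
-/

set_option autoImplicit false
set_option linter.style.haveILetI false

namespace Pool.Agent.Helper109

open Polynomial

section
variable {n k : ℕ} {K : Type} [Field K] [Algebra (ZMod 2) K] {α : K}

theorem TriData.le_of_sum (D : TriData n k K α) {d m : ℕ} (hd : 0 < d) (S : Finset ℕ)
    (hS : S.Nonempty) (hm : ∀ e ∈ S, e ≤ m) (h : ∑ e ∈ S, (α ^ d) ^ e = 0) : n ≤ m * d := by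
  have hne : sp S ≠ 0 := by
    intro h0
    have := support_sp S
    rw [h0, support_zero] at this
    exact hS.ne_empty this.symm
  have h1 : aeval α (expand (ZMod 2) d (sp S)) = 0 := by
    rw [expand_aeval, aeval_sp, h]
  have h2 := D.natDegree_le _ ((expand_ne_zero hd).mpr hne) h1
  rw [natDegree_expand] at h2
  refine h2.trans (Nat.mul_le_mul_right d ?_)
  rw [natDegree_le_iff_coeff_eq_zero]
  intro N hN
  rw [coeff_sp, if_neg]
  intro h'
  exact absurd (hm N h') (by omega)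

/-- If the `d`-th power of the root lies in the field with 16 elements, the degree is at most
`4 d`. -/
theorem TriData.le_of_fifteen (D : TriData n k K α) {d : ℕ} (hd : 0 < d)
    (h : (α ^ d) ^ 15 = 1) : n ≤ 4 * d := by
  haveI := D.char
  have h2 : (2 : K) = 0 := CharTwo.two_eq_zero
  set g := α ^ d with hg
  have hprod : (g + 1) * (g ^ 2 + g + 1) * (g ^ 4 + g + 1) * (g ^ 4 + g ^ 3 + 1) *
      (g ^ 4 + g ^ 3 + g ^ 2 + g + 1) = 0 := by
    have : (g + 1) * (g ^ 2 + g + 1) * (g ^ 4 + g + 1) * (g ^ 4 + g ^ 3 + 1) *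
      (g ^ 4 + g ^ 3 + g ^ 2 + g + 1) = (g ^ 15 - 1) + 2 * (1 + 2 * g + 4 * g ^ 2 + 6 * g ^ 3 +
        9 * g ^ 4 + 13 * g ^ 5 + 16 * g ^ 6 + 17 * g ^ 7 + 17 * g ^ 8 + 16 * g ^ 9 + 13 * g ^ 10 +
        9 * g ^ 11 + 6 * g ^ 12 + 4 * g ^ 13 + 2 * g ^ 14) := by ring
    rw [this, h, h2]; ring
  rcases mul_eq_zero.mp hprod with hp | hp
  · rcases mul_eq_zero.mp hp with hp | hp
    · rcases mul_eq_zero.mp hp with hp | hp
      · rcases mul_eq_zero.mp hp with hp | hp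
        · apply D.le_of_sum hd {1, 0} (by simp) (by simp)
          rw [Finset.sum_pair (by norm_num)]; rw [← hp, ← hg]; ring
        · apply D.le_of_sum hd {2, 1, 0} (by simp) (by simp)
          rw [Finset.sum_insert (by simp), Finset.sum_pair (by norm_num)]; rw [← hp, ← hg]; ring
      · apply D.le_of_sum hd {4, 1, 0} (by simp) (by simp)
        rw [Finset.sum_insert (by simp), Finset.sum_pair (by norm_num)]; rw [← hp, ← hg]; ring
    · apply D.le_of_sum hd {4, 3, 0} (by simp) (by simp)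
      rw [Finset.sum_insert (by simp), Finset.sum_pair (by norm_num)]; rw [← hp, ← hg]; ring
  · apply D.le_of_sum hd {4, 3, 2, 1, 0} (by simp) (by simp)
    rw [Finset.sum_insert (by simp), Finset.sum_insert (by simp), Finset.sum_insert (by simp),
      Finset.sum_pair (by norm_num)]; rw [← hp, ← hg]; ring

/-- Uniqueness of the fifth root among the roots, when `n`, `k`, `0` are different modulo five. -/
theorem TriData.fix5 (D : TriData n k K α) (hk0 : 0 < k) (hkn : k < n)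
    (h5 : n % 5 ≠ k % 5)
    (x1 : n ≠ 2 * k) (x2 : n ≠ 3 * k) (x3 : 2 * n ≠ 3 * k) (x4 : n ≠ 4 * k) (x5 : 3 * n ≠ 4 * k)
    (α' : K) (h1 : α' ^ 5 = α ^ 5) (h2 : α' ^ n + α' ^ k + 1 = 0) : α' = α := by
  haveI := D.char
  by_contra hne
  have hα := D.ne0
  set z := α' / α with hz
  have hz1 : z ≠ 1 := by
    intro h
    apply hne
    rw [hz] at h
    field_simp at h
    exact h
  have hz5 : z ^ 5 = 1 := by rw [hz, div_pow, h1, div_self (pow_ne_zero _ hα)]
  have hα' : α' = z * α := by rw [hz]; field_simp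
  haveI : Fact (Nat.Prime 5) := ⟨by norm_num⟩
  have hord : orderOf z = 5 := orderOf_eq_prime hz5 hz1
  have hprim : IsPrimitiveRoot z 5 := by rw [← hord]; exact IsPrimitiveRoot.orderOf z
  set A := α ^ n with hA
  set B := α ^ k with hB
  have e0 : A + B + 1 = 0 := D.eq0
  have e1 : z ^ n * A + z ^ k * B + 1 = 0 := by
    rw [← h2, hα', mul_pow, mul_pow]
  have hBA : B = A + 1 := by
    have : (A + 1) + B = 0 := by rw [← e0]; ring
    exact (CharTwo.add_eq_zero.mp this).symm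
  have e2 : A * (z ^ n + z ^ k) = 1 + z ^ k := by
    have : A * (z ^ n + z ^ k) + (1 + z ^ k) = 0 := by
      rw [← e1, hBA]; ring
    exact CharTwo.add_eq_zero.mp this
  have hznk : z ^ n + z ^ k ≠ 0 := by
    intro h
    have h' := CharTwo.add_eq_zero.mp h
    rw [← pow_mod_orderOf z n, ← pow_mod_orderOf z k, hord] at h'
    exact h5 (hprim.pow_inj (Nat.mod_lt _ (by norm_num)) (Nat.mod_lt _ (by norm_num)) h')
  have hfrob : ∀ x y : K, (x + y) ^ 16 = x ^ 16 + y ^ 16 := by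
    intro x y
    have := add_pow_char_pow x y 2 4
    norm_num at this
    exact this
  have hz16 : ∀ m : ℕ, (z ^ m) ^ 16 = z ^ m := by
    intro m
    rw [← pow_mul, show m * 16 = 5 * (3 * m) + m by ring, pow_add, pow_mul, hz5, one_pow, one_mul]
  have hA16 : A ^ 16 = A := by
    have h : (A * (z ^ n + z ^ k)) ^ 16 = (1 + z ^ k) ^ 16 := by rw [e2]
    rw [mul_pow, hfrob, hfrob, hz16, hz16, one_pow] at h
    apply mul_right_cancel₀ hznk
    rw [h, e2]
  have hB16 : B ^ 16 = B := by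
    rw [hBA, hfrob, hA16, one_pow]
  have hA0 : A ≠ 0 := pow_ne_zero _ hα
  have hB0 : B ≠ 0 := pow_ne_zero _ hα
  have hA15 : α ^ (n * 15) = 1 := by
    rw [pow_mul, ← hA]
    apply mul_right_cancel₀ hA0
    rw [← pow_succ, hA16, one_mul]
  have hB15 : α ^ (k * 15) = 1 := by
    rw [pow_mul, ← hB]
    apply mul_right_cancel₀ hB0
    rw [← pow_succ, hB16, one_mul]
  have hg15 : (α ^ (Nat.gcd n k)) ^ 15 = 1 := by
    rw [← pow_mul, ← Nat.gcd_mul_right]
    exact pow_gcd_eq_one.mpr ⟨hA15, hB15⟩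
  have hd : 0 < Nat.gcd n k := Nat.gcd_pos_of_pos_right _ hk0
  have hle := D.le_of_fifteen hd hg15
  obtain ⟨a, ha⟩ := Nat.gcd_dvd_left n k
  obtain ⟨b, hb⟩ := Nat.gcd_dvd_right n k
  set d := Nat.gcd n k with hdd
  have ha4 : a ≤ 4 := by
    by_contra h
    push Not at h
    have : d * 5 ≤ d * a := Nat.mul_le_mul_left d h
    omega
  have hb0 : 0 < b := by
    rcases Nat.eq_zero_or_pos b with h | h
    · rw [h] at hb; omega
    · exact h
  have hba : b < a := by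
    by_contra h
    push Not at h
    have := Nat.mul_le_mul_left d h
    omega
  clear_value d
  interval_cases a <;> interval_cases b <;> omega

/-- The case of three different residues modulo five. -/
theorem TriData.case5 (D : TriData n k K α) (hk0 : 0 < k) (hkn : k < n)
    (h5n : n % 5 ≠ 0) (h5k : k % 5 ≠ 0) (h5 : n % 5 ≠ k % 5)
    (x1 : n ≠ 2 * k) (x2 : n ≠ 3 * k) (x3 : 2 * n ≠ 3 * k) (x4 : n ≠ 4 * k) (x5 : 3 * n ≠ 4 * k) :
    PD n := by
  haveI := D.char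
  have htwo : (2 : K) = 0 := CharTwo.two_eq_zero
  have hdeg : (minpoly (ZMod 2) (α ^ 5)).natDegree = n :=
    D.minpoly_deg (D.fix5 hk0 hkn h5 x1 x2 x3 x4 x5)
  have hBA : α ^ k = α ^ n + 1 := by
    have : (α ^ n + 1) + α ^ k = 0 := by rw [← D.eq0]; ring
    exact (CharTwo.add_eq_zero.mp this).symm
  have g1 : ∀ m : ℕ, (α ^ 5) ^ m = (α ^ m) ^ 5 := by
    intro m; rw [← pow_mul, ← pow_mul]; congr 1; ring
  have hdis : (n + k) % 5 = 0 ∨ (3 * n + k) % 5 = 0 ∨ (n + 3 * k) % 5 = 0 := by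
    have hn5 : n % 5 = 1 ∨ n % 5 = 2 ∨ n % 5 = 3 ∨ n % 5 = 4 := by omega
    have hk5 : k % 5 = 1 ∨ k % 5 = 2 ∨ k % 5 = 3 ∨ k % 5 = 4 := by omega
    rcases hn5 with h | h | h | h <;> rcases hk5 with h' | h' | h' | h' <;> omega
  rcases hdis with h | h | h
  · obtain ⟨c, hc⟩ : ∃ c, n + k = 5 * c := ⟨(n + k) / 5, by omega⟩
    refine PD_of_root (β := α ^ 5) (a := k) (b := c) (c := 2 * c) (d := 0)
      (D.int _) hdeg ?_ ?_ ?_ rfl ?_
    · refine ⟨?_, ?_, ?_, ?_⟩ <;> omega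
    · refine ⟨?_, ?_, ?_⟩ <;> omega
    · refine ⟨?_, ?_, ?_⟩ <;> omega
    · have g2 : (α ^ 5) ^ c = α ^ n * α ^ k := by
        rw [← pow_mul, ← pow_add]; congr 1; omega
      have g3 : (α ^ 5) ^ (2 * c) = (α ^ n * α ^ k) ^ 2 := by
        rw [← g2, ← pow_mul (α ^ 5) c 2, mul_comm c 2]
      rw [g3, g2, g1, g1, hBA]
      generalize α ^ n = A
      linear_combination (A ^ 5 + 3 * A ^ 4 + 6 * A ^ 3 + 6 * A ^ 2 + 3 * A + 1) * htwo
  · obtain ⟨u, hu⟩ : ∃ u, 3 * n + k = 5 * u := ⟨(3 * n + k) / 5, by omega⟩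
    obtain ⟨v, hv⟩ : ∃ v, n + 2 * k = 5 * v := ⟨(n + 2 * k) / 5, by omega⟩
    refine PD_of_root (β := α ^ 5) (a := k) (b := u) (c := v) (d := 0)
      (D.int _) hdeg ?_ ?_ ?_ rfl ?_
    · refine ⟨?_, ?_, ?_, ?_⟩ <;> omega
    · refine ⟨?_, ?_, ?_⟩ <;> omega
    · refine ⟨?_, ?_, ?_⟩ <;> omega
    · have g2 : (α ^ 5) ^ u = (α ^ n) ^ 3 * α ^ k := by
        rw [← pow_mul, ← pow_mul, ← pow_add]; congr 1; omega
      have g3 : (α ^ 5) ^ v = α ^ n * (α ^ k) ^ 2 := by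
        rw [← pow_mul, ← pow_mul, ← pow_add]; congr 1; omega
      rw [g3, g2, g1, g1, hBA]
      generalize α ^ n = A
      linear_combination (A ^ 5 + 3 * A ^ 4 + 6 * A ^ 3 + 6 * A ^ 2 + 3 * A + 1) * htwo
  · obtain ⟨u, hu⟩ : ∃ u, n + 3 * k = 5 * u := ⟨(n + 3 * k) / 5, by omega⟩
    obtain ⟨v, hv⟩ : ∃ v, 2 * n + k = 5 * v := ⟨(2 * n + k) / 5, by omega⟩
    refine PD_of_root (β := α ^ 5) (a := k) (b := u) (c := v) (d := 0)
      (D.int _) hdeg ?_ ?_ ?_ rfl ?_
    · refine ⟨?_, ?_, ?_, ?_⟩ <;> omega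
    · refine ⟨?_, ?_, ?_⟩ <;> omega
    · refine ⟨?_, ?_, ?_⟩ <;> omega
    · have g2 : (α ^ 5) ^ u = α ^ n * (α ^ k) ^ 3 := by
        rw [← pow_mul, ← pow_mul, ← pow_add]; congr 1; omega
      have g3 : (α ^ 5) ^ v = (α ^ n) ^ 2 * α ^ k := by
        rw [← pow_mul, ← pow_mul, ← pow_add]; congr 1; omega
      rw [g3, g2, g1, g1, hBA]
      generalize α ^ n = A
      linear_combination (A ^ 5 + 3 * A ^ 4 + 7 * A ^ 3 + 7 * A ^ 2 + 3 * A + 1) * htwo

end

end Pool.Agent.Helper109
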