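import Pool.Agent.Helper109.Tri5
import Pool.Agent.Helper109.Base

/-!
# Irreducible trinomials give irreducible pentanomials of the same degree
-/

set_option autoImplicit false

namespace Pool.Agent.Helper109

open Polynomial

/-- `X ^ 2 + X + 1` divides the trinomials with exponents `1, 2` modulo three. -/
theorem omega_dvd {n k : ℕ} (h : (n % 3 = 1 ∧ k % 3 = 2) ∨ (n % 3 = 2 ∧ k % 3 = 1)) :
    (X ^ 2 + X + 1 : (ZMod 2)[X]) ∣ X ^ n + X ^ k + 1 := by
  rw [← AdjoinRoot.mk_eq_zero, map_add, map_add, map_pow, map_pow, AdjoinRoot.mk_X, map_one]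
  set w := AdjoinRoot.root (X ^ 2 + X + 1 : (ZMod 2)[X]) with hw
  have h0 : w ^ 2 + w + 1 = 0 := by
    have := AdjoinRoot.mk_self (f := (X ^ 2 + X + 1 : (ZMod 2)[X]))
    rw [map_add, map_add, map_pow, AdjoinRoot.mk_X, map_one] at this
    exact this
  have h3 : w ^ 3 = 1 := by linear_combination (w - 1) * h0
  have hm : ∀ m : ℕ, w ^ m = w ^ (m % 3) := by
    intro m
    conv_lhs => rw [← Nat.div_add_mod m 3, pow_add, pow_mul, h3, one_pow, one_mul]
  rw [hm n, hm k]
  rcases h with ⟨h1, h2⟩ | ⟨h1, h2⟩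
  · rw [h1, h2]; linear_combination h0
  · rw [h1, h2]; linear_combination h0

theorem natDegree_omega : (X ^ 2 + X + 1 : (ZMod 2)[X]).natDegree = 2 := by compute_degree!

theorem not_dvd_of_irr {f g : (ZMod 2)[X]} (hf : Irreducible f) (hg : ¬ IsUnit g)
    (hne : g.natDegree ≠ f.natDegree) : ¬ g ∣ f := by
  intro h
  obtain ⟨c, hc⟩ := h
  rcases hf.isUnit_or_isUnit hc with h | h
  · exact hg h
  · apply hne
    have h0 : c ≠ 0 := h.ne_zero
    have hg0 : g ≠ 0 := by rintro rfl; rw [zero_mul] at hc; exact hf.ne_zero hc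
    rw [hc, natDegree_mul hg0 h0, natDegree_eq_zero_of_isUnit h, add_zero]

theorem not_isUnit_of_natDegree {g : (ZMod 2)[X]} (h : g.natDegree ≠ 0) : ¬ IsUnit g :=
  fun hu => h (natDegree_eq_zero_of_isUnit hu)

theorem natDegree_expand_tri {a b e : ℕ} (hb : 0 < b) (hab : b < a) :
    (expand (ZMod 2) e (X ^ a + X ^ b + 1)).natDegree = a * e := by
  rw [natDegree_expand, natDegree_tri hb hab]

/-- `X ^ (5 k) + X ^ k + 1` is reducible. -/
theorem red5 {k : ℕ} (hk : 0 < k) : ¬ Irreducible (X ^ (5 * k) + X ^ k + 1 : (ZMod 2)[X]) := by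
  intro h
  have hfac : (X ^ (5 * k) + X ^ k + 1 : (ZMod 2)[X]) =
      (X ^ (2 * k) + X ^ k + 1) * (X ^ (3 * k) + X ^ (2 * k) + 1) := by
    have h2 : (2 : (ZMod 2)[X]) = 0 := CharTwo.two_eq_zero
    rw [mul_comm 5 k, mul_comm 2 k, mul_comm 3 k, pow_mul, pow_mul, pow_mul]
    generalize (X : (ZMod 2)[X]) ^ k = y
    linear_combination (- y ^ 4 - y ^ 3 - y ^ 2) * h2
  have h1 : ¬ (X ^ (2 * k) + X ^ k + 1 : (ZMod 2)[X]) ∣ X ^ (5 * k) + X ^ k + 1 := by
    apply not_dvd_of_irr h (not_isUnit_of_natDegree _)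
    · rw [natDegree_tri hk (by omega), natDegree_tri hk (by omega)]; omega
    · rw [natDegree_tri hk (by omega)]; omega
  exact h1 ⟨_, hfac⟩

/-- `X ^ (5 e) + X ^ (4 e) + 1` is reducible. -/
theorem red54 {k : ℕ} (hk : 0 < k) :
    ¬ Irreducible (X ^ (5 * k) + X ^ (4 * k) + 1 : (ZMod 2)[X]) := by
  intro h
  have hfac : (X ^ (5 * k) + X ^ (4 * k) + 1 : (ZMod 2)[X]) =
      (X ^ (2 * k) + X ^ k + 1) * (X ^ (3 * k) + X ^ k + 1) := by
    have h2 : (2 : (ZMod 2)[X]) = 0 := CharTwo.two_eq_zero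
    rw [mul_comm 5 k, mul_comm 4 k, mul_comm 2 k, mul_comm 3 k, pow_mul, pow_mul, pow_mul, pow_mul]
    generalize (X : (ZMod 2)[X]) ^ k = y
    linear_combination (- y ^ 3 - y ^ 2 - y) * h2
  have h1 : ¬ (X ^ (2 * k) + X ^ k + 1 : (ZMod 2)[X]) ∣ X ^ (5 * k) + X ^ (4 * k) + 1 := by
    apply not_dvd_of_irr h (not_isUnit_of_natDegree _)
    · rw [natDegree_tri hk (by omega), natDegree_tri (by omega) (by omega)]; omega
    · rw [natDegree_tri hk (by omega)]; omega
  exact h1 ⟨_, hfac⟩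

/-- The exceptional trinomials. -/
theorem PD_exceptional {n k : ℕ} (hn : 4 ≤ n) (hk : 0 < k)
    (hf : Irreducible (X ^ n + X ^ k + 1 : (ZMod 2)[X]))
    (hex : n = 2 * k ∨ n = 3 * k ∨ 2 * n = 3 * k ∨ n = 4 * k ∨ 3 * n = 4 * k) : PD n := by
  rcases hex with h | h | h | h | h
  · subst h
    exact PD_exc2 (by omega) hf
  · subst h
    have h1 : (X ^ (3 * k) + X ^ k + 1 : (ZMod 2)[X]) = expand (ZMod 2) k (X ^ 3 + X ^ 1 + 1) := by
      simp [pow_mul, mul_comm]
    rw [h1] at hf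
    exact PD_exc3 (by omega) (natDegree_tri (by norm_num) (by norm_num)) hf
  · obtain ⟨e, he⟩ : ∃ e, k = 2 * e := ⟨k / 2, by omega⟩
    have hn' : n = 3 * e := by omega
    subst hn' he
    have h1 : (X ^ (3 * e) + X ^ (2 * e) + 1 : (ZMod 2)[X]) =
        expand (ZMod 2) e (X ^ 3 + X ^ 2 + 1) := by
      simp [pow_mul, mul_comm]
    rw [h1] at hf
    exact PD_exc3 (by omega) (natDegree_tri (by norm_num) (by norm_num)) hf
  · subst h
    have h1 : (X ^ (4 * k) + X ^ k + 1 : (ZMod 2)[X]) = expand (ZMod 2) k (X ^ 4 + X ^ 1 + 1) := by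
      simp [pow_mul, mul_comm]
    rw [h1] at hf
    exact PD_exc4 (by omega) (natDegree_tri (by norm_num) (by norm_num)) hf
  · obtain ⟨e, he⟩ : ∃ e, k = 3 * e := ⟨k / 3, by omega⟩
    have hn' : n = 4 * e := by omega
    subst hn' he
    have h1 : (X ^ (4 * e) + X ^ (3 * e) + 1 : (ZMod 2)[X]) =
        expand (ZMod 2) e (X ^ 4 + X ^ 3 + 1) := by
      simp [pow_mul, mul_comm]
    rw [h1] at hf
    exact PD_exc4 (by omega) (natDegree_tri (by norm_num) (by norm_num)) hf

theorem coprime_mod_three {r : ℕ} (h : r % 3 ≠ 0) : Nat.Coprime (r % 3) (2 + 1) := by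
  have : r % 3 = 1 ∨ r % 3 = 2 := by omega
  rcases this with h | h <;> rw [h] <;> decide

theorem coprime_mod_five {r : ℕ} (h : r % 5 ≠ 0) : Nat.Coprime (r % 5) (4 + 1) := by
  have : r % 5 = 1 ∨ r % 5 = 2 ∨ r % 5 = 3 ∨ r % 5 = 4 := by omega
  rcases this with h | h | h | h <;> rw [h] <;> decide

/-- **Irreducible trinomials give irreducible pentanomials.** -/
theorem PD_of_trinomial {n k : ℕ} (hn : 4 ≤ n) (hk : 0 < k) (hkn : k < n)
    (h15 : ¬ (15 ∣ n ∧ 15 ∣ k)) (hf : Irreducible (X ^ n + X ^ k + 1 : (ZMod 2)[X])) : PD n := by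
  by_cases hex : n = 2 * k ∨ n = 3 * k ∨ 2 * n = 3 * k ∨ n = 4 * k ∨ 3 * n = 4 * k
  · exact PD_exceptional hn hk hf hex
  push Not at hex
  obtain ⟨x1, x2, x3, x4, x5⟩ := hex
  obtain ⟨K, _, _, α, D⟩ := exists_triData hk hkn hf
  by_cases h3 : n % 3 = 0 ∧ k % 3 = 0
  · -- work modulo five
    have h5 : ¬ (n % 5 = 0 ∧ k % 5 = 0) := by
      rintro ⟨h5, h5'⟩
      exact h15 ⟨by omega, by omega⟩
    by_cases hn5 : n % 5 = 0
    · have hk5 : k % 5 ≠ 0 := fun h => h5 ⟨hn5, h⟩
      refine D.case_n (j := 2) (q := 4) (a := n / 5) (b := k / 5) (r := k % 5) (by norm_num)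
        (by norm_num) (by omega) (by omega) hkn hk (coprime_mod_five hk5) ?_ ?_
      · intro h
        have hn' : n = 5 * k := by omega
        rw [hn'] at hf
        exact red5 hk hf
      · intro h
        obtain ⟨e, he⟩ : ∃ e, n = 5 * e := ⟨n / 5, by omega⟩
        have hk' : k = 4 * e := by omega
        rw [he, hk'] at hf
        exact red54 (by omega) hf
    · by_cases hk5 : k % 5 = 0
      · exact D.case_k (j := 2) (q := 4) (a := n / 5) (b := k / 5) (r := n % 5) (by norm_num)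
          (by norm_num) (by omega) (by omega) hkn hk (coprime_mod_five hn5)
      · by_cases hnk : n % 5 = k % 5
        · exact D.case_eq (j := 2) (q := 4) (a := n / 5) (b := k / 5) (r := n % 5) (by norm_num)
            (by norm_num) (by omega) (by omega) hkn hk (coprime_mod_five hn5)
        · exact D.case5 hk hkn hn5 hk5 hnk x1 x2 x3 x4 x5
  · -- work modulo three
    by_cases hn3 : n % 3 = 0
    · have hk3 : k % 3 ≠ 0 := fun h => h3 ⟨hn3, h⟩
      exact D.case_n (j := 1) (q := 2) (a := n / 3) (b := k / 3) (r := k % 3) (by norm_num)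
        (by norm_num) (by omega) (by omega) hkn hk (coprime_mod_three hk3) (by omega) (by omega)
    · by_cases hk3 : k % 3 = 0
      · exact D.case_k (j := 1) (q := 2) (a := n / 3) (b := k / 3) (r := n % 3) (by norm_num)
          (by norm_num) (by omega) (by omega) hkn hk (coprime_mod_three hn3)
      · by_cases hnk : n % 3 = k % 3
        · exact D.case_eq (j := 1) (q := 2) (a := n / 3) (b := k / 3) (r := n % 3) (by norm_num)
            (by norm_num) (by omega) (by omega) hkn hk (coprime_mod_three hn3)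
        · exfalso
          have hd := omega_dvd (n := n) (k := k) (by omega)
          refine not_dvd_of_irr hf (not_isUnit_of_natDegree ?_) ?_ hd
          · rw [natDegree_omega]; norm_num
          · rw [natDegree_omega, natDegree_tri hk hkn]; omega

end Pool.Agent.Helper109
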