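import Pool.Agent.Helper109.TriMain
import Pool.Agent.Helper109.Large

/-!
# The excluded case: both exponents divisible by fifteen forces the degree to be divisible by sixty
-/

set_option autoImplicit false

namespace Pool.Agent.Helper109

open Polynomial

theorem two_dvd_of_three {m : ℕ} (h : 3 ∣ 2 ^ m - 1) : 2 ∣ m := by
  have h1 := dvd_gcd_pow h (show 3 ∣ 2 ^ 2 - 1 by norm_num)
  have h2 : Nat.gcd m 2 ∣ 2 := Nat.gcd_dvd_right _ _
  rcases (Nat.dvd_prime Nat.prime_two).mp h2 with h3 | h3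
  · rw [h3] at h1; norm_num at h1
  · rw [← h3]; exact Nat.gcd_dvd_left _ _

theorem four_dvd_of_five {m : ℕ} (h : 5 ∣ 2 ^ m - 1) : 4 ∣ m := by
  have h1 := dvd_gcd_pow h (show 5 ∣ 2 ^ 4 - 1 by norm_num)
  have h2 : Nat.gcd m 4 ∣ 4 := Nat.gcd_dvd_right _ _
  have h3 : Nat.gcd m 4 ≤ 4 := Nat.le_of_dvd (by norm_num) h2
  have h4 : Nat.gcd m 4 = 4 := by
    generalize Nat.gcd m 4 = d at h1 h2 h3
    interval_cases d
    · norm_num at h2
    · norm_num at h1
    · norm_num at h1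
    · norm_num at h2
    · rfl
  rw [← h4]; exact Nat.gcd_dvd_left _ _

theorem sixty_dvd {n k : ℕ} (hk : 0 < k) (hkn : k < n) (hn15 : 15 ∣ n) (hk15 : 15 ∣ k)
    (hf : Irreducible (X ^ n + X ^ k + 1 : (ZMod 2)[X])) : 60 ∣ n := by
  obtain ⟨a, rfl⟩ := hn15
  obtain ⟨b, rfl⟩ := hk15
  have h1 : (X ^ (15 * a) + X ^ (15 * b) + 1 : (ZMod 2)[X]) =
      expand (ZMod 2) 15 (X ^ a + X ^ b + 1) := by
    simp [pow_mul]
  rw [h1] at hf
  have hdeg : (X ^ a + X ^ b + 1 : (ZMod 2)[X]).natDegree = a := natDegree_tri (by omega) (by omega)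
  have h5 := prime_dvd_of_irr_expand (d := 15) (p := 5) (by norm_num) (by norm_num) (by norm_num) hf
  rw [hdeg] at h5
  have := four_dvd_of_five h5
  omega

/-- **Irreducible trinomials give irreducible pentanomials.** -/
theorem PD_of_trinomial' {n k : ℕ} (hn : 4 ≤ n) (hk : 0 < k) (hkn : k < n)
    (h60 : ¬ (60 ∣ n ∧ 15 ∣ k)) (hf : Irreducible (X ^ n + X ^ k + 1 : (ZMod 2)[X])) : PD n := by
  apply PD_of_trinomial hn hk hkn _ hf
  rintro ⟨h1, h2⟩
  exact h60 ⟨sixty_dvd hk hkn h1 h2 hf, h2⟩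

end Pool.Agent.Helper109
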